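import Pool.Agent.Q115.RV.SysMain

/-!
The lower bound for one exponent, and the limit of the ratio, for systems.
-/

set_option autoImplicit false

namespace Pool.Agent.Q190.RV

open MeasureTheory Filter Topology Set
open Pool.Agent.TH942.ES (Sys cv zv)
open Pool.Agent.TH270.MS (BM Mc Pl)
open Pool.Agent.TH270.RS (Lw)
open Pool.Agent.Q5.MS
open Pool.Agent.Q115.RV

variable {X : Type} {d : ℕ} {N : X → ℕ} {α : X → Fin d → ℂ} {Ψ G₀ : ℂ → ℂ} {k κ κ' : ℕ}
  {η C C' : ℝ} {m : ℕ}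

theorem step_low {l K : ℝ} (hl : 0 < l) (h : ∀ᶠ y : ℝ in atTop, Pv N α y + K ≤ Pv N α (y ^ l)) :
    ∀ᶠ s : ℝ in atTop, hv N α s + K ≤ hv N α (s + Real.log l) := by
  filter_upwards [ev_iff.1 h] with s hs
  rw [← pv_ee hl]
  exact hs

/-- linear lower bound from one step -/
theorem growth_low (E : Sys N α) {l K : ℝ} (hl : 1 < l)
    (h : ∀ᶠ y : ℝ in atTop, Pv N α y + K ≤ Pv N α (y ^ l)) :
    ∃ B : ℝ, ∀ᶠ s : ℝ in atTop, K / Real.log l * s - B ≤ hv N α s := by
  obtain ⟨S, hS⟩ := eventually_atTop.1 (step_low (lt_trans one_pos hl) h)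
  obtain ⟨B, hB⟩ := growth (h := fun s => -hv N α s) (κ := -K) (fun Y => by
    obtain ⟨M, hM⟩ := bdd_hv E Y
    refine ⟨M, fun s h1 h2 => ?_⟩
    have := (abs_le.1 (hM s h1 h2)).1
    show -hv N α s ≤ M
    linarith) (Real.log_pos hl) (le_max_right S 0)
    fun s hs => by
      have := hS s ((le_max_left _ _).trans hs)
      show -hv N α (s + Real.log l) ≤ -hv N α s + -K
      linarith
  refine ⟨B, ?_⟩
  filter_upwards [eventually_ge_atTop (max S 0)] with s hs
  have h1 := hB s hs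
  have h2 : -K / Real.log l * s = -(K / Real.log l * s) := by ring
  rw [h2] at h1
  linarith

/-- one exponent, lower bound -/
theorem sys_low (HM : Mc N α Ψ G₀ k κ η C) (HL : Lw N α Ψ m)
    (hnz : ∀ s : ℂ, 0 < s.re → Ψ s ≠ 0) {l K : ℝ}
    (hl : 1 < l) (h : ∀ᶠ y : ℝ in atTop, Pv N α y + K ≤ Pv N α (y ^ l)) :
    K ≤ m * Real.log l := by
  obtain ⟨B, hB1⟩ := growth_low HL.E hl h
  have hlog := Real.log_pos hl
  by_contra hcon
  push Not at hcon
  have h1 : 0 < K / Real.log l - m := by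
    rw [sub_pos, lt_div_iff₀ hlog]
    exact hcon
  obtain ⟨B', hB'⟩ := mean_of_noZeros HM HL hnz 1 zero_le_one
  have h2 : Tendsto (fun s : ℝ => (K / Real.log l - m) * s) atTop atTop :=
    tendsto_id.const_mul_atTop h1
  obtain ⟨S₁, hS₁⟩ := eventually_atTop.1 (hB1.and (h2.eventually_ge_atTop (B + (B' + 1))))
  obtain ⟨S, hS, hS2, hS0⟩ := (hB'.and ((eventually_ge_atTop S₁).and (eventually_ge_atTop 0))).exists
  have h3 : ∫ _ in Icc S (S + 1), (B' + 1) = B' + 1 := by
    rw [setIntegral_const, smul_eq_mul, Measure.real, Real.volume_Icc,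
      ENNReal.toReal_ofReal (by linarith)]
    ring
  have h4 : B' + 1 ≤ ∫ s in Icc S (S + 1), |hv N α s - m * s - 0| := by
    rw [← h3]
    refine setIntegral_mono_on (integrableOn_const isCompact_Icc.measure_lt_top.ne)
      (locInt_hv HL.E m 0 S 1 hS0) measurableSet_Icc fun s hs => ?_
    obtain ⟨h5, h6⟩ := hS₁ s (hS2.trans hs.1)
    have h7 := le_abs_self (hv N α s - m * s - 0)
    have h8 : (K / Real.log l - m) * s = K / Real.log l * s - m * s := by ring
    linarith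
  linarith

end Pool.Agent.Q190.RV
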