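import Mathlib
import Pool.Agent.Q18.P.Dbl2
import Pool.Agent.Q190.RV.Low

/-!
# Ratios of Euler products at the centre, for systems of roots over number fields
-/

set_option autoImplicit false
set_option linter.unusedSectionVars false

namespace Pool.Agent.Q190.RV

open Filter Topology Set Complex NumberField IsDedekindDomain MeasureTheory ComplexConjugate
open Pool.Agent.Q18.P (norm Pure Bdd Tempered Continues product NoZeros dbl cj cj_mero dbl_pure dbl_continues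
  dbl_order hasProd_dbl product_dbl product_pos log_product conj_cpow_nat cpow_c)
open Pool.Agent.Q5.VA (NS aD factorD)
open Pool.Agent.TH942.ES (zv xv LE)
open Pool.Agent.TH270.RS (Lw)
open Pool.Agent.TH270.MS (Mc)
open Pool.Agent.Q5.MS (Pv)
open Pool.Agent.Q115.RV (sys_one sys_tfae sys_order mean_of_noZeros)

variable {K : Type} [Field K] [NumberField K] {N : ℕ} {i : ℕ} {c : ℝ}
  {S : Finset (HeightOneSpectrum (𝓞 K))} {α : HeightOneSpectrum (𝓞 K) → Fin N → ℂ} {F : ℂ → ℂ}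

/-- `F` is holomorphic and of polynomial growth in a half plane `Re s > c - η`, and for `Re s > c + 1/2` it is the
Euler product `∏_{v ∉ S} ∏_j (1 - α_{v,j} q_v^{-s})⁻¹`. -/
def Holo (c : ℝ) (S : Finset (HeightOneSpectrum (𝓞 K))) (α : HeightOneSpectrum (𝓞 K) → Fin N → ℂ)
    (F : ℂ → ℂ) : Prop :=
  (∃ (η C : ℝ) (k : ℕ), 0 < η ∧ ∀ s : ℂ, c - η < s.re → DifferentiableAt ℂ F s ∧ ‖F s‖ ≤ C * (1 + ‖s‖) ^ k) ∧
  ∀ s : ℂ, c + 1 / 2 < s.re →
    HasProd (fun v : {v : HeightOneSpectrum (𝓞 K) // v ∉ S} => (∏ j, (1 - α v.1 j * (norm v.1 : ℂ) ^ (-s)))⁻¹) (F s)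

/-- `P(y) ≍ (log y)^ρ` -/
def OfOrder (P : ℝ → ℝ) (ρ : ℝ) : Prop :=
  ∃ a b : ℝ, 0 < a ∧ ∀ᶠ y : ℝ in atTop, a * Real.log y ^ ρ ≤ P y ∧ P y ≤ b * Real.log y ^ ρ

/-- There is a set `Λ ⊆ (1, ∞)` of positive (outer) Lebesgue measure such that for every `l ∈ Λ` there is a `Q` with
`P(y^l) ≤ Q P(y)` for all large `y`. -/
def Regular (P : ℝ → ℝ) : Prop :=
  ∃ Λ : Set ℝ, Λ ⊆ Ioi 1 ∧ volume Λ ≠ 0 ∧ ∀ l ∈ Λ, ∃ Q : ℝ, ∀ᶠ y : ℝ in atTop, P (y ^ l) ≤ Q * P y

theorem Holo.temp (h : Holo c S α F) : Tempered c S α F := by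
  obtain ⟨⟨η, C, k, hη, h1⟩, h2⟩ := h
  exact ⟨⟨η, C, 0, k, F, hη, h1, fun s _ _ => by rw [pow_zero, one_mul]⟩, h2⟩

theorem Holo.analytic (h : Holo c S α F) : AnalyticAt ℂ F c ∧ ∀ s : ℂ, c < s.re → AnalyticAt ℂ F s := by
  obtain ⟨⟨η, C, k, hη, h1⟩, -⟩ := h
  have ho : IsOpen {s : ℂ | c - η < s.re} := isOpen_lt continuous_const Complex.continuous_re
  have hd : DifferentiableOn ℂ F {s : ℂ | c - η < s.re} := fun s hs => (h1 s hs).1.differentiableWithinAt
  refine ⟨hd.analyticAt (ho.mem_nhds ?_), fun s hs => hd.analyticAt (ho.mem_nhds ?_)⟩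
  · show c - η < ((c : ℝ) : ℂ).re
    rw [Complex.ofReal_re]
    linarith
  · show c - η < s.re
    linarith

theorem Holo.prod (hc : c = ((i : ℝ) + 1) / 2) (h : Pure i S α) (hF : Holo c S α F) {s : ℂ} (hs : 1 / 2 < s.re) :
    F (c + s) = LE (NS S) (aD i S α) s := by
  have h1 := hF.2 (c + s) (by rw [Complex.add_re, Complex.ofReal_re]; linarith)
  have h3 : (fun v : {v : HeightOneSpectrum (𝓞 K) // v ∉ S} =>
      (∏ j, (1 - α v.1 j * (norm v.1 : ℂ) ^ (-((c : ℂ) + s))))⁻¹) =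
      fun v => ∏ j, (1 - zv (NS S) (aD i S α) v j * xv (NS S) v s)⁻¹ := by
    funext v
    have h4 := factorD (i := i) (S := S) (α := α) v (c + s)
    rw [← hc, add_sub_cancel_left] at h4
    exact h4.symm
  rw [h3] at h1
  exact h1.tprod_eq.symm

theorem Holo.order_finite (hc : c = ((i : ℝ) + 1) / 2) (h : Pure i S α) (hF : Holo c S α F) :
    ∃ m : ℕ, analyticOrderAt F c = m := by
  have hfin : analyticOrderAt F c ≠ ⊤ := by
    intro htop
    obtain ⟨⟨η, C, k, hη, h1⟩, -⟩ := id hF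
    have hU : IsOpen {s : ℂ | c - η < s.re} := isOpen_lt continuous_const Complex.continuous_re
    have hUc : Convex ℝ {s : ℂ | c - η < s.re} := convex_halfSpace_re_gt _
    have a1 : AnalyticOnNhd ℂ F {s : ℂ | c - η < s.re} :=
      DifferentiableOn.analyticOnNhd (fun s hs => (h1 s hs).1.differentiableWithinAt) hU
    rw [analyticOrderAt_eq_top] at htop
    have h2 := a1.eqOn_of_preconnected_of_eventuallyEq (analyticOnNhd_const (v := (0 : ℂ)))
      hUc.isPreconnected (show ((c : ℝ) : ℂ) ∈ {s : ℂ | c - η < s.re} by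
        show c - η < ((c : ℝ) : ℂ).re
        rw [Complex.ofReal_re]
        linarith) htop
    have h3 : F ((c : ℂ) + 1) = 0 := h2 (show c - η < ((c : ℂ) + 1).re by
      rw [Complex.add_re, Complex.ofReal_re, Complex.one_re]
      linarith)
    have h4 := Holo.prod (s := 1) hc h hF (by norm_num)
    have h5 := (h.sys.LE_diff (s := 1) (by norm_num)).2
    rw [h3] at h4
    exact h5 h4.symm
  obtain ⟨p, hp⟩ := ENat.ne_top_iff_exists.1 hfin
  exact ⟨p, hp.symm⟩

theorem Holo.lw (hc : c = ((i : ℝ) + 1) / 2) (h : Pure i S α) (hF : Holo c S α F) {m : ℕ}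
    (hm : analyticOrderAt F c = m) : Lw (NS S) (aD i S α) (fun s => F (c + s)) m := by
  obtain ⟨h1, h2⟩ := hF.analytic
  have hga : AnalyticAt ℂ (fun z : ℂ => F (c + z)) 0 := by
    have h3 : AnalyticAt ℂ (fun z : ℂ => (c : ℂ) + z) 0 := by fun_prop
    exact AnalyticAt.comp (f := fun z : ℂ => (c : ℂ) + z) (by simpa using h1) h3
  refine ⟨h.sys, h.real_z, fun s hs => ?_, fun s hs => hF.prod hc h hs, hga, ?_⟩
  · exact DifferentiableAt.comp s (f := fun s : ℂ => (c : ℂ) + s)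
      (h2 (c + s) (by rw [Complex.add_re, Complex.ofReal_re]; linarith)).differentiableAt (by fun_prop)
  · rw [h1.analyticOrderAt_eq_natCast] at hm
    rw [hga.analyticOrderAt_eq_natCast]
    obtain ⟨g, hg, hg1, he⟩ := hm
    have ht : Tendsto (fun z : ℂ => (c : ℂ) + z) (𝓝 0) (𝓝 (c : ℂ)) := by
      have : Continuous fun z : ℂ => (c : ℂ) + z := by fun_prop
      simpa using this.tendsto 0
    refine ⟨fun z => g (c + z), ?_, by simpa using hg1, ?_⟩
    · have h3 : AnalyticAt ℂ (fun z : ℂ => (c : ℂ) + z) 0 := by fun_prop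
      exact AnalyticAt.comp (f := fun z : ℂ => (c : ℂ) + z) (by simpa using hg) h3
    · filter_upwards [ht.eventually he] with s hs
      rw [hs, add_sub_cancel_left, sub_zero]

theorem Holo.grow (hF : Holo c S α F) : ∃ (C : ℝ) (κ : ℕ), ∀ s : ℂ, 0 < s.re →
    ‖F (c + s)‖ ≤ C * (1 + ‖s‖) ^ κ * (1 + 1 / s.re) ^ κ := by
  obtain ⟨⟨η, C, k, hη, h1⟩, -⟩ := hF
  refine ⟨|C| * (1 + |c|) ^ k, k, fun s hs => ?_⟩
  have h2 := (h1 (c + s) (by rw [Complex.add_re, Complex.ofReal_re]; linarith)).2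
  have h4 : 1 + ‖(c : ℂ) + s‖ ≤ (1 + |c|) * (1 + ‖s‖) := by
    have := norm_add_le (c : ℂ) s
    rw [Complex.norm_real, Real.norm_eq_abs] at this
    nlinarith [norm_nonneg s, abs_nonneg c]
  have h5 : 1 ≤ (1 + 1 / s.re) ^ k := by
    apply one_le_pow₀
    have : 0 < 1 / s.re := by positivity
    linarith
  calc ‖F (c + s)‖ ≤ C * (1 + ‖(c : ℂ) + s‖) ^ k := h2
    _ ≤ |C| * ((1 + |c|) * (1 + ‖s‖)) ^ k :=
        mul_le_mul (le_abs_self _) (pow_le_pow_left₀ (by positivity) h4 k) (by positivity) (abs_nonneg _)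
    _ = |C| * (1 + |c|) ^ k * (1 + ‖s‖) ^ k := by rw [mul_pow]; ring
    _ ≤ _ := le_mul_of_one_le_right (by positivity) h5

/-! ### doubling -/

theorem Holo.dbl (hF : Holo c S α F) : Holo c S (dbl α) (fun s => F s * cj F s) := by
  obtain ⟨⟨η, C, k, hη, h1⟩, h2⟩ := hF
  refine ⟨⟨η, C * C, k + k, hη, fun s hs => ?_⟩, fun s hs => hasProd_dbl (h2 s hs) (h2 _ (by rwa [Complex.conj_re]))⟩
  obtain ⟨a1, a2⟩ := h1 s hs
  obtain ⟨b1, b2⟩ := h1 (conj s) (by rwa [Complex.conj_re])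
  have b3 := b1.conj_conj
  rw [Complex.conj_conj] at b3
  refine ⟨a1.mul b3, ?_⟩
  rw [norm_mul]
  unfold cj
  rw [RCLike.norm_conj]
  rw [RCLike.norm_conj] at b2
  calc ‖F s‖ * ‖F (conj s)‖ ≤ (C * (1 + ‖s‖) ^ k) * (C * (1 + ‖s‖) ^ k) :=
        mul_le_mul a2 b2 (norm_nonneg _) ((norm_nonneg _).trans a2)
    _ = _ := by rw [pow_add]; ring

theorem analyticOrder_cj {x : ℝ} (h : AnalyticAt ℂ F x) : analyticOrderAt (cj F) x = analyticOrderAt F x := by
  have h1 := Pool.Agent.Q18.P.cj_analytic h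
  rw [Complex.conj_ofReal] at h1
  have h2 := (cj_mero h.meromorphicAt).2
  rw [Complex.conj_ofReal, h.meromorphicOrderAt_eq, h1.meromorphicOrderAt_eq] at h2
  exact ENat.map_natCast_injective h2

theorem Holo.dbl_order (hF : Holo c S α F) {m : ℕ} (hm : analyticOrderAt F c = m) :
    analyticOrderAt (fun s => F s * cj F s) c = (2 * m : ℕ) := by
  have h1 := hF.analytic.1
  have h2 := Pool.Agent.Q18.P.cj_analytic h1
  rw [Complex.conj_ofReal] at h2
  have h3 := analyticOrderAt_mul h1 h2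
  rw [analyticOrder_cj h1, hm] at h3
  rw [show (fun s => F s * cj F s) = F * cj F from rfl, h3, two_mul]
  norm_cast

theorem Holo.order_finite' (hc : c = ((i : ℝ) + 1) / 2) (h : Bdd i S α) (hF : Holo c S α F) :
    ∃ m : ℕ, analyticOrderAt F c = m := by
  obtain ⟨m, hm⟩ := hF.dbl.order_finite hc (dbl_pure h)
  have h1 := hF.analytic.1
  have h2 := Pool.Agent.Q18.P.cj_analytic h1
  rw [Complex.conj_ofReal] at h2
  have h3 := analyticOrderAt_mul h1 h2
  rw [analyticOrder_cj h1] at h3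
  rw [show (fun s => F s * cj F s) = F * cj F from rfl, h3] at hm
  have hfin : analyticOrderAt F c ≠ ⊤ := by
    intro ht
    rw [ht] at hm
    simp at hm
  obtain ⟨p, hp⟩ := ENat.ne_top_iff_exists.1 hfin
  exact ⟨p, hp.symm⟩

/-! ### the translation between `P` and `Pv` -/

theorem pos' (hc : c = ((i : ℝ) + 1) / 2) (h : Bdd i S α) (y : ℝ) : 0 < product c S α y := by
  have h1 := product_pos hc (dbl_pure h) y
  rw [product_dbl] at h1
  have h2 : 0 ≤ product c S α y := by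
    unfold Pool.Agent.Q18.P.product
    exact finprod_mem_induction (fun x : ℝ => 0 ≤ x) zero_le_one (fun x y => mul_nonneg) fun v _ => norm_nonneg _
  rcases h2.lt_or_eq with h3 | h3
  · exact h3
  · rw [← h3] at h1
    simp at h1

theorem log' (hc : c = ((i : ℝ) + 1) / 2) (h : Bdd i S α) (y : ℝ) :
    Pv (NS S) (aD i S (dbl α)) y = 2 * Real.log (product c S α y) := by
  rw [← log_product hc (dbl_pure h), product_dbl, Real.log_pow]
  norm_num

variable {P : ℝ → ℝ}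

theorem upper_iff {R : ℝ → ℝ} (hP : ∀ y, 0 < P y) (hR : ∀ y, R y = 2 * Real.log (P y)) (l : ℝ) :
    (∃ Q : ℝ, ∀ᶠ y : ℝ in atTop, P (y ^ l) ≤ Q * P y) ↔ ∃ M : ℝ, ∀ᶠ y : ℝ in atTop, R (y ^ l) ≤ R y + M := by
  constructor
  · rintro ⟨Q, hQ⟩
    refine ⟨2 * Real.log (max Q 1), ?_⟩
    filter_upwards [hQ] with y hy
    have h1 : P (y ^ l) ≤ max Q 1 * P y :=
      hy.trans (mul_le_mul_of_nonneg_right (le_max_left _ _) (hP y).le)
    have h2 := Real.log_le_log (hP _) h1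
    rw [Real.log_mul (lt_max_of_lt_right one_pos).ne' (hP y).ne'] at h2
    rw [hR, hR]
    linarith
  · rintro ⟨M, hM⟩
    refine ⟨Real.exp (M / 2), ?_⟩
    filter_upwards [hM] with y hy
    rw [hR, hR] at hy
    rw [← Real.exp_log (hP (y ^ l)), ← Real.exp_log (hP y), ← Real.exp_add]
    exact Real.exp_le_exp.2 (by linarith)

theorem regular_iff {R : ℝ → ℝ} (hP : ∀ y, 0 < P y) (hR : ∀ y, R y = 2 * Real.log (P y)) : Regular P ↔
    ∃ Λ : Set ℝ, Λ ⊆ Ioi 1 ∧ volume Λ ≠ 0 ∧ ∀ l ∈ Λ, ∃ M : ℝ, ∀ᶠ y : ℝ in atTop, R (y ^ l) ≤ R y + M := by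
  unfold Regular
  simp only [upper_iff hP hR]

theorem order_iff {R : ℝ → ℝ} (hP : ∀ y, 0 < P y) (hR : ∀ y, R y = 2 * Real.log (P y)) (ρ : ℝ) :
    OfOrder P ρ ↔ ∃ M : ℝ, ∀ᶠ y : ℝ in atTop, |R y - (2 * ρ) * Real.log (Real.log y)| ≤ M := by
  constructor
  · rintro ⟨a, b, ha, h⟩
    have hb : 0 < b := by
      obtain ⟨y, h1, h3⟩ := (h.and (eventually_gt_atTop 1)).exists
      have hlog := Real.rpow_pos_of_pos (Real.log_pos h3) ρ
      have h5 := (mul_pos ha hlog).trans_le (h1.1.trans h1.2)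
      exact (pos_iff_pos_of_mul_pos h5).2 hlog
    refine ⟨2 * (|Real.log a| + |Real.log b|), ?_⟩
    filter_upwards [h, eventually_gt_atTop 1] with y h1 h3
    have hl := Real.log_pos h3
    have hlog := Real.rpow_pos_of_pos hl ρ
    have h4 := Real.log_le_log (mul_pos ha hlog) h1.1
    have h5 := Real.log_le_log (hP y) h1.2
    rw [Real.log_mul ha.ne' hlog.ne', Real.log_rpow hl] at h4
    rw [Real.log_mul hb.ne' hlog.ne', Real.log_rpow hl] at h5
    rw [hR, abs_le]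
    have := neg_abs_le (Real.log a)
    have := le_abs_self (Real.log b)
    have := abs_nonneg (Real.log a)
    have := abs_nonneg (Real.log b)
    constructor <;> linarith
  · rintro ⟨M, h⟩
    refine ⟨Real.exp (-(M / 2)), Real.exp (M / 2), Real.exp_pos _, ?_⟩
    filter_upwards [h, eventually_gt_atTop 1] with y h1 h3
    have hl := Real.log_pos h3
    rw [hR, abs_le] at h1
    rw [Real.rpow_def_of_pos hl, ← Real.exp_log (hP y), ← Real.exp_add,
      ← Real.exp_add, mul_comm (Real.log (Real.log y))]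
    exact ⟨Real.exp_le_exp.2 (by linarith [h1.1]), Real.exp_le_exp.2 (by linarith [h1.2])⟩

/-! ### the theorems -/

theorem noZeros_back (hF : Holo c S α F) (h : ∀ s : ℂ, 0 < s.re → F (c + s) * cj F (c + s) ≠ 0) :
    NoZeros c F := by
  intro s hs
  have h1 := h (s - c) (by rw [Complex.sub_re, Complex.ofReal_re]; linarith)
  rw [add_sub_cancel] at h1
  exact left_ne_zero_of_mul h1

theorem noZeros_forth (h : NoZeros c F) (s : ℂ) (hs : 0 < s.re) : F (c + s) * cj F (c + s) ≠ 0 := by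
  refine mul_ne_zero (h _ (by rw [Complex.add_re, Complex.ofReal_re]; linarith)) ?_
  unfold cj
  refine (map_ne_zero _).2 (h _ ?_)
  rw [Complex.conj_re, Complex.add_re, Complex.ofReal_re]
  linarith

/-- **one exponent, upper bound** -/
theorem one_upper (hc : c = ((i : ℝ) + 1) / 2) (h : Bdd i S α) (hF : Holo c S α F) {m : ℕ}
    (hm : analyticOrderAt F c = m) {l Q : ℝ} (hl : 1 < l)
    (hQ : ∀ᶠ y : ℝ in atTop, product c S α (y ^ l) ≤ Q * product c S α y) : NoZeros c F ∧ l ^ m ≤ Q := by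
  have hp := dbl_pure h
  obtain ⟨G₀, k, κ, η, C, HM⟩ := Pool.Agent.Q18.P.mc hc hp hF.dbl.temp
  have HL := hF.dbl.lw hc hp (hF.dbl_order hm)
  obtain ⟨C', κ', hg⟩ := hF.dbl.grow
  have hQ0 : 0 < Q := by
    obtain ⟨y, hy⟩ := hQ.exists
    have h2 := (pos' hc h (y ^ l)).trans_le hy
    exact (pos_iff_pos_of_mul_pos h2).2 (pos' hc h y)
  have h1 : ∀ᶠ y : ℝ in atTop, Pv (NS S) (aD i S (dbl α)) (y ^ l) ≤
      Pv (NS S) (aD i S (dbl α)) y + 2 * Real.log Q := by
    filter_upwards [hQ] with y hy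
    have h2 := Real.log_le_log (pos' hc h _) hy
    rw [Real.log_mul hQ0.ne' (pos' hc h y).ne'] at h2
    rw [log' hc h, log' hc h]
    linarith
  obtain ⟨h2, h3⟩ := sys_one HM HL hg hl h1
  refine ⟨noZeros_back hF h2, ?_⟩
  have h4 : (m : ℝ) * Real.log l ≤ Real.log Q := by
    push_cast at h3
    linarith
  rw [← Real.log_pow] at h4
  exact (Real.log_le_log_iff (pow_pos (by linarith) m) hQ0).1 h4

/-- **one exponent, lower bound** -/
theorem one_lower (hc : c = ((i : ℝ) + 1) / 2) (h : Bdd i S α) (hF : Holo c S α F) {m : ℕ}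
    (hm : analyticOrderAt F c = m) (hz : NoZeros c F) {l q : ℝ} (hl : 1 < l) (hq0 : 0 < q)
    (hq : ∀ᶠ y : ℝ in atTop, q * product c S α y ≤ product c S α (y ^ l)) : q ≤ l ^ m := by
  have hp := dbl_pure h
  obtain ⟨G₀, k, κ, η, C, HM⟩ := Pool.Agent.Q18.P.mc hc hp hF.dbl.temp
  have HL := hF.dbl.lw hc hp (hF.dbl_order hm)
  have h1 : ∀ᶠ y : ℝ in atTop, Pv (NS S) (aD i S (dbl α)) y + 2 * Real.log q ≤
      Pv (NS S) (aD i S (dbl α)) (y ^ l) := by
    filter_upwards [hq] with y hy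
    have h2 := Real.log_le_log (mul_pos hq0 (pos' hc h y)) hy
    rw [Real.log_mul hq0.ne' (pos' hc h y).ne'] at h2
    rw [log' hc h, log' hc h]
    linarith
  have h3 := sys_low HM HL (noZeros_forth hz) hl h1
  have h4 : Real.log q ≤ (m : ℝ) * Real.log l := by
    push_cast at h3
    linarith
  rw [← Real.log_pow] at h4
  exact (Real.log_le_log_iff hq0 (pow_pos (by linarith) m)).1 h4

/-- **the limit of the ratio** -/
theorem one_limit (hc : c = ((i : ℝ) + 1) / 2) (h : Bdd i S α) (hF : Holo c S α F) {m : ℕ}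
    (hm : analyticOrderAt F c = m) {l r : ℝ} (hl : 1 < l)
    (hr : Tendsto (fun y : ℝ => product c S α (y ^ l) / product c S α y) atTop (𝓝 r)) :
    NoZeros c F ∧ r = l ^ m := by
  have hpos := pos' hc h
  have up : ∀ ε : ℝ, 0 < ε → ∀ᶠ y : ℝ in atTop, product c S α (y ^ l) ≤ (r + ε) * product c S α y := by
    intro ε hε
    filter_upwards [hr.eventually_lt_const (show r < r + ε by linarith)] with y hy
    rw [div_lt_iff₀ (hpos y)] at hy
    exact hy.le
  have hz := (one_upper hc h hF hm hl (up 1 one_pos)).1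
  have h1 : l ^ m ≤ r := le_of_forall_pos_le_add fun ε hε => (one_upper hc h hF hm hl (up ε hε)).2
  have hl0 : (0 : ℝ) < l ^ m := pow_pos (by linarith) m
  refine ⟨hz, le_antisymm ?_ h1⟩
  refine le_of_forall_pos_lt_add fun ε hε => ?_
  have h2 : ∀ᶠ y : ℝ in atTop, (r - min (ε / 2) (r / 2)) * product c S α y ≤ product c S α (y ^ l) := by
    have h3 : 0 < min (ε / 2) (r / 2) := lt_min (by linarith) (by linarith)
    filter_upwards [hr.eventually_const_lt (show r - min (ε / 2) (r / 2) < r by linarith)] with y hy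
    rw [lt_div_iff₀ (hpos y)] at hy
    exact hy.le
  have h4 := one_lower hc h hF hm hz hl (by
    have := min_le_right (ε / 2) (r / 2)
    linarith) h2
  have := min_le_left (ε / 2) (r / 2)
  linarith

/-- **exponents of positive measure** -/
theorem order_law (hc : c = ((i : ℝ) + 1) / 2) (h : Bdd i S α) (hF : Holo c S α F) {m : ℕ}
    (hm : analyticOrderAt F c = m) :
    (∀ ρ : ℝ, OfOrder (product c S α) ρ ↔ ρ = m ∧ Regular (product c S α)) ∧
    (Regular (product c S α) → NoZeros c F ∧ ∀ l : ℝ, 0 < l → ∃ a b : ℝ, 0 < a ∧ ∀ᶠ y : ℝ in atTop,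
      a * product c S α y ≤ product c S α (y ^ l) ∧ product c S α (y ^ l) ≤ b * product c S α y) := by
  have hp := dbl_pure h
  obtain ⟨G₀, k, κ, η, C, HM⟩ := Pool.Agent.Q18.P.mc hc hp hF.dbl.temp
  have HL := hF.dbl.lw hc hp (hF.dbl_order hm)
  obtain ⟨C', κ', hg⟩ := hF.dbl.grow
  have hpos := pos' hc h
  have hR := log' (i := i) hc h
  have t := sys_tfae HM HL hg
  have t2 := t.out 1 2
  refine ⟨fun ρ => ?_, fun hreg => ⟨?_, fun l hl => ?_⟩⟩
  · rw [order_iff hpos hR, regular_iff hpos hR, sys_order HM HL hg (2 * ρ)]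
    refine and_congr_left fun _ => ?_
    push_cast
    constructor <;> intro h <;> linarith
  · obtain ⟨Λ, h1, h2, h3⟩ := hreg
    have hne : Λ.Nonempty := by
      by_contra hcon
      rw [not_nonempty_iff_eq_empty] at hcon
      rw [hcon, measure_empty] at h2
      exact h2 rfl
    obtain ⟨l₀, hl₀⟩ := hne
    obtain ⟨Q, hQ⟩ := h3 l₀ hl₀
    exact (one_upper hc h hF hm (h1 hl₀) hQ).1
  · rw [regular_iff hpos hR] at hreg
    obtain ⟨M, hM⟩ := t2.2 hreg l hl
    refine ⟨Real.exp (-(M / 2)), Real.exp (M / 2), Real.exp_pos _, ?_⟩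
    filter_upwards [hM] with y hy
    rw [hR, hR, abs_le] at hy
    rw [← Real.exp_log (hpos (y ^ l)), ← Real.exp_log (hpos y),
      ← Real.exp_add, ← Real.exp_add]
    exact ⟨Real.exp_le_exp.2 (by linarith [hy.1]), Real.exp_le_exp.2 (by linarith [hy.2])⟩

end Pool.Agent.Q190.RV
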