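import Pool.Agent.Q115.RV.SysMain
import Pool.Agent.Q5.MS.Lead
import Pool.Agent.Q190.RV.Low

/-!
# The product over the prime powers: ratios, exponents of positive measure, and the leading coefficient
-/

set_option autoImplicit false

namespace Pool.Agent.Q190.RV

open MeasureTheory Filter Topology Set
open Pool.Agent.TH942.ES (Sys cv zv cP)
open Pool.Agent.TH270.MS (BM Mc Pl DvR)
open Pool.Agent.TH270.RS (Lw)
open Pool.Agent.Q5.MS
open Pool.Agent.Q115.RV

/-! ### step functions -/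

/-- a step function with jumps at the integers -/
def Step (f : ℝ → ℝ) : Prop := ∀ y : ℝ, 0 ≤ y → f y = f ((⌊y⌋₊ : ℕ) : ℝ)

variable {f : ℝ → ℝ}

theorem Step.measurable (hf : Step f) : Measurable fun s : ℝ => f (ee s) := by
  have h1 : (fun s : ℝ => f (ee s)) = fun s => (fun n : ℕ => f (n : ℝ)) ⌊ee s⌋₊ := by
    funext s
    exact hf _ (ee_pos s).le
  rw [h1]
  exact (measurable_from_nat (f := fun n : ℕ => f (n : ℝ))).comp
    (Nat.measurable_floor.comp ee_continuous.measurable)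

theorem Step.rc (hf : Step f) : RC fun s : ℝ => f (ee s) := by
  intro s
  have h1 : ee s < ⌊ee s⌋₊ + 1 := Nat.lt_floor_add_one _
  have h2 : ∀ᶠ t in 𝓝 s, ee t < ⌊ee s⌋₊ + 1 := ee_continuous.continuousAt.eventually_lt_const h1
  obtain ⟨δ, hδ, h3⟩ := Metric.eventually_nhds_iff.1 h2
  refine ⟨δ, hδ, fun t h4 h5 => ?_⟩
  have h6 : ee t < ⌊ee s⌋₊ + 1 := h3 (by
    rw [Real.dist_eq, abs_lt]
    constructor <;> linarith)
  have h7 : ⌊ee t⌋₊ = ⌊ee s⌋₊ := by
    rw [Nat.floor_eq_iff (ee_pos t).le]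
    exact ⟨(Nat.floor_le (ee_pos s).le).trans (ee_mono h4), h6⟩
  show f (ee t) = f (ee s)
  rw [hf _ (ee_pos t).le, hf _ (ee_pos s).le, h7]

theorem Step.locInt (hf : Step f) (bm : BM f) (ρ c : ℝ) : LocInt fun s => f (ee s) - ρ * s - c := by
  intro x L hx
  have hmeas : Measurable fun s => f (ee s) - ρ * s - c :=
    (hf.measurable.sub (measurable_const.mul measurable_id)).sub measurable_const
  obtain ⟨M, hM⟩ := bm.2 (ee (x + L))
  refine Measure.integrableOn_of_bounded (M := M + |ρ| * (|x| + |L|) + |c|)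
    isCompact_Icc.measure_lt_top.ne (hmeas.norm.aestronglyMeasurable) ?_
  filter_upwards [ae_restrict_mem measurableSet_Icc] with s hs
  have h1 := hM (ee s) (exp_one_le_ee (by linarith [hs.1])) (ee_mono hs.2)
  rw [Real.norm_eq_abs, abs_abs]
  have h2 : |ρ * s| ≤ |ρ| * (|x| + |L|) := by
    rw [abs_mul]
    refine mul_le_mul_of_nonneg_left ?_ (abs_nonneg _)
    rw [abs_of_nonneg (hx.trans hs.1)]
    exact hs.2.trans (add_le_add (le_abs_self _) (le_abs_self _))
  have h3 := abs_sub (f (ee s) - ρ * s) c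
  have h4 := abs_sub (f (ee s)) (ρ * s)
  linarith

/-- mean convergence in windows from convergence of the logarithmic means -/
theorem locM (bm : BM f)
    (h : Tendsto (fun Y : ℝ => (∫ y in Real.exp 1..Y, |f y| / y) / Real.log Y) atTop (𝓝 0)) :
    ∀ L : ℝ, 0 ≤ L → Tendsto (fun S : ℝ => ∫ s in Icc S (S + L), |f (ee s)|) atTop (𝓝 0) := by
  intro L hL
  have h1 : Tendsto (fun S : ℝ => Real.exp L * ((∫ x in Real.exp 1..ee (S + L),
      |f x| / x) / Real.log (ee (S + L)))) atTop (𝓝 0) := by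
    have h2 := (h.comp (tendsto_ee.comp (tendsto_atTop_add_const_right atTop L tendsto_id))).const_mul
      (Real.exp L)
    rw [mul_zero] at h2
    exact h2
  refine squeeze_zero' (Eventually.of_forall fun S => integral_nonneg fun s => abs_nonneg _) ?_ h1
  filter_upwards [eventually_ge_atTop 0] with S hS
  have hX : Real.exp 1 ≤ ee (S + L) := exp_one_le_ee (by linarith)
  have hint1 : IntegrableOn (fun x => |f x| / x) (Icc (Real.exp 1) (ee (S + L))) := by
    have h1 := (bm.li (ee (S + L)) hX).abs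
    have h2 : IntervalIntegrable (fun x => |f x| * x⁻¹) volume (Real.exp 1) (ee (S + L)) := by
      refine h1.mul_continuousOn ?_
      refine continuousOn_inv₀.mono ?_
      intro x hx
      rw [uIcc_of_le hX] at hx
      exact ((Real.exp_pos 1).trans_le hx.1).ne'
    rw [intervalIntegrable_iff_integrableOn_Icc_of_le hX] at h2
    exact h2
  have hSL : S ≤ S + L := by linarith
  have hint2 : IntegrableOn (fun s => Real.exp s * |f (ee s)|) (Icc S (S + L)) := by
    have h2 : IntegrableOn (fun x => |f x| / x) (ee '' Icc S (S + L)) := by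
      rw [ee_image hSL]
      exact hint1.mono_set (Icc_subset_Icc_left (exp_one_le_ee hS))
    rw [integrableOn_image_iff_integrableOn_abs_deriv_smul measurableSet_Icc
      (fun s _ => (ee_deriv s).hasDerivWithinAt) (ee_injOn _)] at h2
    refine h2.congr_fun (fun s _ => ?_) measurableSet_Icc
    have h1 := ee_pos s
    have h2 := Real.exp_pos s
    simp only [smul_eq_mul]
    rw [abs_of_pos (by positivity)]
    field_simp
  have hint : IntegrableOn (fun s => |f (ee s)|) (Icc S (S + L)) := by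
    have h3 := hint2.continuousOn_mul (g := fun s => Real.exp (-s))
      (Real.continuous_exp.comp continuous_neg).continuousOn isCompact_Icc
    refine h3.congr_fun (fun s _ => ?_) measurableSet_Icc
    simp only
    rw [← mul_assoc, ← Real.exp_add, neg_add_cancel, Real.exp_zero, one_mul]
  have e2 : Real.exp S * ∫ s in Icc S (S + L), |f (ee s)| ≤
      ∫ s in Icc S (S + L), Real.exp s * |f (ee s)| := by
    rw [← integral_const_mul]
    refine setIntegral_mono_on (hint.const_mul _) hint2 measurableSet_Icc fun s hs => ?_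
    exact mul_le_mul_of_nonneg_right (Real.exp_le_exp.2 hs.1) (abs_nonneg _)
  have e3 : ∫ s in Icc S (S + L), Real.exp s * |f (ee s)| ≤
      ∫ x in Real.exp 1..ee (S + L), |f x| / x := by
    rw [← change (fun x => |f x|) hSL,
      intervalIntegral.integral_of_le hX, ← integral_Icc_eq_integral_Ioc]
    refine setIntegral_mono_set hint1 ?_
      (Eventually.of_forall (Icc_subset_Icc_left (exp_one_le_ee hS)))
    filter_upwards [ae_restrict_mem measurableSet_Icc] with x hx
    exact div_nonneg (abs_nonneg _) ((Real.exp_pos 1).le.trans hx.1)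
  rw [log_ee, Real.exp_add]
  have hS0 := Real.exp_pos S
  have hL0 := Real.exp_pos L
  have h5 := e2.trans e3
  have e4 : Real.exp L * ((∫ x in Real.exp 1..ee (S + L), |f x| / x) / (Real.exp S * Real.exp L)) =
      (∫ x in Real.exp 1..ee (S + L), |f x| / x) / Real.exp S := by
    field_simp
  rw [e4, le_div_iff₀ hS0, mul_comm]
  exact h5

/-! ### the sum over the prime powers -/

variable {X : Type} {d : ℕ} {N : X → ℕ} {α : X → Fin d → ℂ} {Ψ G₀ : ℂ → ℂ} {k κ κ' : ℕ}
  {η C C' : ℝ} {m : ℕ}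

/-- the logarithm of the product over the prime powers -/
noncomputable def Ls (N : X → ℕ) (α : X → Fin d → ℂ) (y : ℝ) : ℝ := -Pl N α y

theorem step_ls : Step (Ls N α) := by
  intro y hy
  unfold Ls Pl
  congr 1
  refine finsum_congr fun p => ?_
  have : ((N p.1 : ℝ) ^ (p.2 + 1) ≤ y) = ((N p.1 : ℝ) ^ (p.2 + 1) ≤ ((⌊y⌋₊ : ℕ) : ℝ)) := by
    have h : ((N p.1 : ℝ) ^ (p.2 + 1)) = ((N p.1 ^ (p.2 + 1) : ℕ) : ℝ) := by push_cast; rfl
    rw [h, Nat.cast_le, Nat.le_floor_iff hy]
  rw [this]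

theorem bm_ls (HM : Mc N α Ψ G₀ k κ η C) : BM (Ls N α) := (bm_pl HM).neg

theorem close_ls (E : Sys N α) : ∃ M : ℝ, ∀ᶠ y : ℝ in atTop, |Pv N α y - Ls N α y| ≤ M := by
  obtain ⟨M, hM⟩ := close E
  refine ⟨M, ?_⟩
  filter_upwards [eventually_ge_atTop (Real.exp 1)] with y hy
  unfold Ls
  rw [sub_neg_eq_add]
  exact hM y hy

/-- iteration of an upper bound -/
theorem iter_up {g : ℝ → ℝ} {l K : ℝ} (hl : 0 < l) (h : ∀ᶠ y : ℝ in atTop, g (y ^ l) ≤ g y + K) (n : ℕ) :
    ∀ᶠ y : ℝ in atTop, g (y ^ l ^ n) ≤ g y + n * K := by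
  induction n with
  | zero =>
    refine Eventually.of_forall fun y => ?_
    rw [pow_zero, Real.rpow_one]
    simp
  | succ n ih =>
    have hln : 0 < l ^ n := pow_pos hl n
    filter_upwards [ih, (tendsto_rpow_atTop hln).eventually h, eventually_ge_atTop 0] with y h1 h2 h3
    rw [← Real.rpow_mul h3, ← pow_succ] at h2
    push_cast
    linarith

theorem nat_bound {a K M : ℝ} (h : ∀ n : ℕ, 1 ≤ n → n * a ≤ n * K + M) : a ≤ K := by
  by_contra hcon
  push Not at hcon
  obtain ⟨n, hn⟩ := exists_nat_gt (|M| / (a - K))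
  have h1 : 0 < a - K := by linarith
  rw [div_lt_iff₀ h1] at hn
  have h2 := h (n + 1) (by omega)
  push_cast at h2
  have h3 := le_abs_self M
  nlinarith

theorem star_one (HM : Mc N α Ψ G₀ k κ η C) (HL : Lw N α Ψ m)
    (hgrow : ∀ s : ℂ, 0 < s.re → ‖Ψ s‖ ≤ C' * (1 + ‖s‖) ^ κ' * (1 + 1 / s.re) ^ κ') {l K : ℝ}
    (hl : 1 < l) (h : ∀ᶠ y : ℝ in atTop, Ls N α (y ^ l) ≤ Ls N α y + K) :
    (∀ s : ℂ, 0 < s.re → Ψ s ≠ 0) ∧ m * Real.log l ≤ K := by
  obtain ⟨M, hM⟩ := close_ls HL.E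
  have hl0 : 0 < l := by linarith
  have key : ∀ n : ℕ, 1 ≤ n → (∀ s : ℂ, 0 < s.re → Ψ s ≠ 0) ∧ m * Real.log (l ^ n) ≤ n * K + 2 * M := by
    intro n hn
    have hln : 1 < l ^ n := one_lt_pow₀ hl (by omega)
    refine sys_one HM HL hgrow hln ?_
    filter_upwards [iter_up hl0 h n, hM, (tendsto_rpow_atTop (by linarith : 0 < l ^ n)).eventually hM]
      with y h1 h2 h3
    have h4 := (abs_le.1 h2).1
    have h5 := (abs_le.1 h3).2
    linarith
  refine ⟨(key 1 le_rfl).1, nat_bound (M := 2 * M) fun n hn => ?_⟩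
  have := (key n hn).2
  rw [Real.log_pow] at this
  linarith

theorem star_low (HM : Mc N α Ψ G₀ k κ η C) (HL : Lw N α Ψ m)
    (hnz : ∀ s : ℂ, 0 < s.re → Ψ s ≠ 0) {l K : ℝ}
    (hl : 1 < l) (h : ∀ᶠ y : ℝ in atTop, Ls N α y + K ≤ Ls N α (y ^ l)) : K ≤ m * Real.log l := by
  obtain ⟨M, hM⟩ := close_ls HL.E
  have hl0 : 0 < l := by linarith
  have h' : ∀ᶠ y : ℝ in atTop, (fun y => -Ls N α y) (y ^ l) ≤ (fun y => -Ls N α y) y + -K := by
    filter_upwards [h] with y hy
    show -Ls N α (y ^ l) ≤ -Ls N α y + -K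
    linarith
  have key : ∀ n : ℕ, 1 ≤ n → n * K - 2 * M ≤ m * Real.log (l ^ n) := by
    intro n hn
    have hln : 1 < l ^ n := one_lt_pow₀ hl (by omega)
    refine sys_low HM HL hnz hln ?_
    filter_upwards [iter_up (g := fun y => -Ls N α y) hl0 h' n, hM,
      (tendsto_rpow_atTop (by linarith : 0 < l ^ n)).eventually hM] with y h1 h2 h3
    have h4 := (abs_le.1 h2).2
    have h5 := (abs_le.1 h3).1
    have h1' : -Ls N α (y ^ l ^ n) ≤ -Ls N α y + n * -K := h1
    linarith
  refine nat_bound (M := 2 * M) fun n hn => ?_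
  have := key n hn
  rw [Real.log_pow] at this
  linarith

/-- the mean law with the leading coefficient -/
theorem mean_star (HM : Mc N α Ψ G₀ k κ η C) (hnz : ∀ s : ℂ, 0 < s.re → Ψ s ≠ 0) {A : ℝ} (hA : 0 < A)
    (hlead : Tendsto (fun s => Ψ s / s ^ (m : ℤ)) (𝓝[≠] 0) (𝓝 (A : ℂ))) :
    LocMean fun s => Ls N α (ee s) - m * s - (m * Real.eulerMascheroniConstant - Real.log A) := by
  have t := (lead_real HM (m : ℝ) hA).out 0 2
  have h1 := t.1 ⟨hnz, (m : ℤ), by push_cast; rfl, hlead⟩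
  intro L hL
  refine (locM (bm_dvR HM (m : ℝ) A) h1 L hL).congr fun S => ?_
  refine setIntegral_congr_fun measurableSet_Icc fun s _ => ?_
  show |DvR N α (m : ℝ) A (ee s)| = |Ls N α (ee s) - m * s - (m * Real.eulerMascheroniConstant - Real.log A)|
  unfold DvR Ls
  rw [loglog_ee, ← abs_neg]
  congr 1
  ring

/-- **convergence from exponents of positive measure** -/
theorem star_conv (HM : Mc N α Ψ G₀ k κ η C) (HL : Lw N α Ψ m)
    (hgrow : ∀ s : ℂ, 0 < s.re → ‖Ψ s‖ ≤ C' * (1 + ‖s‖) ^ κ' * (1 + 1 / s.re) ^ κ') {A : ℝ} (hA : 0 < A)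
    (hlead : Tendsto (fun s => Ψ s / s ^ (m : ℤ)) (𝓝[≠] 0) (𝓝 (A : ℂ))) {Λ : Set ℝ} (hΛ : Λ ⊆ Ioi 1)
    (hv : volume Λ ≠ 0)
    (h : ∀ l ∈ Λ, ∀ ε : ℝ, 0 < ε → ∀ᶠ y : ℝ in atTop, Ls N α (y ^ l) ≤ Ls N α y + m * Real.log l + ε) :
    Tendsto (fun y : ℝ => Ls N α y - m * Real.log (Real.log y)) atTop
      (𝓝 (m * Real.eulerMascheroniConstant - Real.log A)) := by
  have hne : Λ.Nonempty := by
    by_contra hcon
    rw [not_nonempty_iff_eq_empty] at hcon
    rw [hcon, measure_empty] at hv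
    exact hv rfl
  obtain ⟨l₀, hl₀⟩ := hne
  have hnz := (star_one HM HL hgrow (hΛ hl₀) (K := m * Real.log l₀ + 1) (by
    filter_upwards [h l₀ hl₀ 1 one_pos] with y hy
    linarith)).1
  have hc := conv_of step_ls.measurable step_ls.rc
    (step_ls.locInt (bm_ls HM) (m : ℝ) (m * Real.eulerMascheroniConstant - Real.log A))
    (mean_star HM hnz hA hlead) (log_image hΛ hv) (by
      rintro u ⟨l, hl, rfl⟩
      have hl1 : 1 < l := hΛ hl
      refine ⟨(Real.log_pos hl1).le, fun ε hε => ?_⟩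
      have h1 := ev_iff.1 (h l hl ε hε)
      filter_upwards [h1] with s hs
      show Ls N α (ee (s + Real.log l)) ≤ Ls N α (ee s) + m * Real.log l + ε
      rw [← ee_rpow, Real.exp_log (by linarith)]
      exact hs)
  have h2 := (hc.add_const (m * Real.eulerMascheroniConstant - Real.log A)).comp tendsto_loglog
  rw [zero_add] at h2
  refine h2.congr' ?_
  filter_upwards [eventually_gt_atTop 1] with y hy
  simp only [Function.comp_apply, sub_add_cancel]
  rw [ee_loglog hy]

/-- from the asymptotics to the ratio -/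
theorem ratio_of {g : ℝ → ℝ} {ρ c : ℝ}
    (h : Tendsto (fun y : ℝ => g y - ρ * Real.log (Real.log y)) atTop (𝓝 c)) {l : ℝ} (hl : 0 < l) :
    Tendsto (fun y : ℝ => g (y ^ l) - g y) atTop (𝓝 (ρ * Real.log l)) := by
  have h1 := ((h.comp (tendsto_rpow_atTop hl)).sub h).add_const (ρ * Real.log l)
  rw [sub_self, zero_add] at h1
  refine h1.congr' ?_
  filter_upwards [eventually_gt_atTop 1] with y hy
  have h2 := Real.log_pos hy
  simp only [Function.comp_apply]
  rw [Real.log_rpow (by linarith), Real.log_mul hl.ne' h2.ne']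
  ring

end Pool.Agent.Q190.RV
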