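import Mathlib
import Pool.Agent.Q18.P.Laws
import Pool.Agent.Q190.RV.Pure
import Pool.Agent.Q190.RV.Star

/-!
# Ratios of the Euler product over the prime powers at the centre, and the leading coefficient
-/

set_option autoImplicit false
set_option linter.unusedSectionVars false

namespace Pool.Agent.Q190.RV

open Filter Topology Set Complex NumberField IsDedekindDomain MeasureTheory ComplexConjugate
open Pool.Agent.Q18.P (norm Pure Bdd Tempered Continues productStar NoZeros IsLeading dbl cj cj_mero dbl_pure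
  star_dbl star_pos log_star lead_dbl lead_shift exists_leading)
open Pool.Agent.Q5.VA (NS aD factorD)
open Pool.Agent.TH942.ES (zv xv LE)
open Pool.Agent.TH270.RS (Lw)
open Pool.Agent.TH270.MS (Mc Pl)

variable {K : Type} [Field K] [NumberField K] {N : ℕ} {i : ℕ} {c : ℝ}
  {S : Finset (HeightOneSpectrum (𝓞 K))} {α : HeightOneSpectrum (𝓞 K) → Fin N → ℂ} {F : ℂ → ℂ}

theorem logs (hc : c = ((i : ℝ) + 1) / 2) (y : ℝ) :
    Ls (NS S) (aD i S (dbl α)) y = 2 * Real.log (productStar c S α y) := by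
  unfold Ls
  rw [← log_star hc, star_dbl, Real.log_pow]
  norm_num

/-- **one exponent, upper bound** -/
theorem s_upper (hc : c = ((i : ℝ) + 1) / 2) (h : Bdd i S α) (hF : Holo c S α F) {m : ℕ}
    (hm : analyticOrderAt F c = m) {l Q : ℝ} (hl : 1 < l)
    (hQ : ∀ᶠ y : ℝ in atTop, productStar c S α (y ^ l) ≤ Q * productStar c S α y) : NoZeros c F ∧ l ^ m ≤ Q := by
  have hp := dbl_pure h
  obtain ⟨G₀, k, κ, η, C, HM⟩ := Pool.Agent.Q18.P.mc hc hp hF.dbl.temp
  have HL := hF.dbl.lw hc hp (hF.dbl_order hm)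
  obtain ⟨C', κ', hg⟩ := hF.dbl.grow
  have hQ0 : 0 < Q := by
    obtain ⟨y, hy⟩ := hQ.exists
    have h2 := (star_pos (c := c) (S := S) (α := α) (y ^ l)).trans_le hy
    exact (pos_iff_pos_of_mul_pos h2).2 (star_pos y)
  have h1 : ∀ᶠ y : ℝ in atTop, Ls (NS S) (aD i S (dbl α)) (y ^ l) ≤
      Ls (NS S) (aD i S (dbl α)) y + 2 * Real.log Q := by
    filter_upwards [hQ] with y hy
    have h2 := Real.log_le_log (star_pos _) hy
    rw [Real.log_mul hQ0.ne' (star_pos y).ne'] at h2
    rw [logs hc, logs hc]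
    linarith
  obtain ⟨h2, h3⟩ := star_one HM HL hg hl h1
  refine ⟨noZeros_back hF h2, ?_⟩
  have h4 : (m : ℝ) * Real.log l ≤ Real.log Q := by
    push_cast at h3
    linarith
  rw [← Real.log_pow] at h4
  exact (Real.log_le_log_iff (pow_pos (by linarith) m) hQ0).1 h4

/-- **one exponent, lower bound** -/
theorem s_lower (hc : c = ((i : ℝ) + 1) / 2) (h : Bdd i S α) (hF : Holo c S α F) {m : ℕ}
    (hm : analyticOrderAt F c = m) (hz : NoZeros c F) {l q : ℝ} (hl : 1 < l) (hq0 : 0 < q)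
    (hq : ∀ᶠ y : ℝ in atTop, q * productStar c S α y ≤ productStar c S α (y ^ l)) : q ≤ l ^ m := by
  have hp := dbl_pure h
  obtain ⟨G₀, k, κ, η, C, HM⟩ := Pool.Agent.Q18.P.mc hc hp hF.dbl.temp
  have HL := hF.dbl.lw hc hp (hF.dbl_order hm)
  have h1 : ∀ᶠ y : ℝ in atTop, Ls (NS S) (aD i S (dbl α)) y + 2 * Real.log q ≤
      Ls (NS S) (aD i S (dbl α)) (y ^ l) := by
    filter_upwards [hq] with y hy
    have h2 := Real.log_le_log (mul_pos hq0 (star_pos y)) hy
    rw [Real.log_mul hq0.ne' (star_pos y).ne'] at h2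
    rw [logs hc, logs hc]
    linarith
  have h3 := star_low HM HL (noZeros_forth hz) hl h1
  have h4 : Real.log q ≤ (m : ℝ) * Real.log l := by
    push_cast at h3
    linarith
  rw [← Real.log_pow] at h4
  exact (Real.log_le_log_iff hq0 (pow_pos (by linarith) m)).1 h4

/-- **the limit of the ratio** -/
theorem s_limit (hc : c = ((i : ℝ) + 1) / 2) (h : Bdd i S α) (hF : Holo c S α F) {m : ℕ}
    (hm : analyticOrderAt F c = m) {l r : ℝ} (hl : 1 < l)
    (hr : Tendsto (fun y : ℝ => productStar c S α (y ^ l) / productStar c S α y) atTop (𝓝 r)) :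
    NoZeros c F ∧ r = l ^ m := by
  have hpos : ∀ y, 0 < productStar c S α y := star_pos
  have up : ∀ ε : ℝ, 0 < ε → ∀ᶠ y : ℝ in atTop, productStar c S α (y ^ l) ≤ (r + ε) * productStar c S α y := by
    intro ε hε
    filter_upwards [hr.eventually_lt_const (show r < r + ε by linarith)] with y hy
    rw [div_lt_iff₀ (hpos y)] at hy
    exact hy.le
  have hz := (s_upper hc h hF hm hl (up 1 one_pos)).1
  have h1 : l ^ m ≤ r := le_of_forall_pos_le_add fun ε hε => (s_upper hc h hF hm hl (up ε hε)).2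
  have hl0 : (0 : ℝ) < l ^ m := pow_pos (by linarith) m
  refine ⟨hz, le_antisymm ?_ h1⟩
  refine le_of_forall_pos_lt_add fun ε hε => ?_
  have h2 : ∀ᶠ y : ℝ in atTop, (r - min (ε / 2) (r / 2)) * productStar c S α y ≤ productStar c S α (y ^ l) := by
    have h3 : 0 < min (ε / 2) (r / 2) := lt_min (by linarith) (by linarith)
    filter_upwards [hr.eventually_const_lt (show r - min (ε / 2) (r / 2) < r by linarith)] with y hy
    rw [lt_div_iff₀ (hpos y)] at hy
    exact hy.le
  have h4 := s_lower hc h hF hm hz hl (by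
    have := min_le_right (ε / 2) (r / 2)
    linarith) h2
  have := min_le_left (ε / 2) (r / 2)
  linarith

theorem mero_of (hF : Holo c S α F) {m : ℕ} (hm : analyticOrderAt F c = m) :
    meromorphicOrderAt F c = ((m : ℤ) : WithTop ℤ) := by
  rw [hF.analytic.1.meromorphicOrderAt_eq, hm]
  rfl

/-- **exponents of positive measure give the asymptotics** -/
theorem s_conv (hc : c = ((i : ℝ) + 1) / 2) (h : Bdd i S α) (hF : Holo c S α F) {m : ℕ}
    (hm : analyticOrderAt F c = m) {a : ℂ} (ha : Tendsto (fun s : ℂ => F s / (s - c) ^ m) (𝓝[≠] (c : ℂ)) (𝓝 a))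
    (ha0 : a ≠ 0) {Λ : Set ℝ} (hΛ : Λ ⊆ Ioi 1) (hv : volume Λ ≠ 0)
    (hQ : ∀ l ∈ Λ, ∀ ε : ℝ, 0 < ε → ∀ᶠ y : ℝ in atTop,
      productStar c S α (y ^ l) ≤ (l ^ m + ε) * productStar c S α y) :
    Tendsto (fun y : ℝ => productStar c S α y / (Real.exp Real.eulerMascheroniConstant * Real.log y) ^ m) atTop
      (𝓝 (1 / ‖a‖)) := by
  have hp := dbl_pure h
  obtain ⟨G₀, k, κ, η, C, HM⟩ := Pool.Agent.Q18.P.mc hc hp hF.dbl.temp
  have HL := hF.dbl.lw hc hp (hF.dbl_order hm)
  obtain ⟨C', κ', hg⟩ := hF.dbl.grow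
  have hA : 0 < ‖a‖ := norm_pos_iff.2 ha0
  have hlead : Tendsto (fun s : ℂ => F (c + s) * cj F (c + s) / s ^ ((2 * m : ℕ) : ℤ)) (𝓝[≠] 0)
      (𝓝 (((‖a‖ ^ 2 : ℝ)) : ℂ)) := by
    have e1 : a * conj a = ((‖a‖ ^ 2 : ℝ) : ℂ) := by
      rw [Complex.mul_conj, Complex.normSq_eq_norm_sq]
    rw [← e1]
    have h1 : Tendsto (fun s : ℂ => F s / (s - c) ^ (m : ℤ)) (𝓝[≠] (c : ℂ)) (𝓝 a) := by
      simpa only [zpow_natCast] using ha
    have h2 := lead_shift.2 (lead_dbl h1)
    refine h2.congr fun s => ?_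
    push_cast
    rfl
  have hc1 := star_conv (m := 2 * m) HM HL hg (A := ‖a‖ ^ 2) (by positivity) hlead hΛ hv (by
    intro l hl ε hε
    have hl1 : 1 < l := hΛ hl
    have hlm : 0 < l ^ m := pow_pos (by linarith) m
    have h3 : 0 < l ^ m * (Real.exp (ε / 2) - 1) := by
      refine mul_pos hlm ?_
      have := Real.add_one_lt_exp (show ε / 2 ≠ 0 by positivity)
      linarith
    filter_upwards [hQ l hl _ h3] with y hy
    have e2 : l ^ m + l ^ m * (Real.exp (ε / 2) - 1) = l ^ m * Real.exp (ε / 2) := by ring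
    rw [e2] at hy
    have h4 := Real.log_le_log (star_pos _) hy
    rw [Real.log_mul (by positivity) (star_pos y).ne', Real.log_mul hlm.ne' (Real.exp_pos _).ne', Real.log_exp,
      Real.log_pow] at h4
    rw [logs hc, logs hc]
    push_cast
    linarith)
  have h5 := (Real.continuous_exp.tendsto _).comp (hc1.div_const 2)
  have e3 : Real.exp ((((2 * m : ℕ) : ℝ) * Real.eulerMascheroniConstant - Real.log (‖a‖ ^ 2)) / 2) =
      Real.exp Real.eulerMascheroniConstant ^ m * (1 / ‖a‖) := by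
    rw [Real.log_pow]
    push_cast
    rw [show (2 * (m : ℝ) * Real.eulerMascheroniConstant - 2 * Real.log ‖a‖) / 2 =
      m * Real.eulerMascheroniConstant + -Real.log ‖a‖ by ring, Real.exp_add, Real.exp_neg, Real.exp_log hA,
      Real.exp_nat_mul, one_div]
  rw [e3] at h5
  have h6 := h5.div_const (Real.exp Real.eulerMascheroniConstant ^ m)
  rw [mul_div_cancel_left₀ _ (by positivity)] at h6
  refine h6.congr' ?_
  filter_upwards [eventually_gt_atTop 1] with y hy
  have hlog := Real.log_pos hy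
  simp only [Function.comp_apply]
  rw [logs hc, mul_pow]
  have e4 : (2 * Real.log (productStar c S α y) - ((2 * m : ℕ) : ℝ) * Real.log (Real.log y)) / 2 =
      Real.log (productStar c S α y) + -Real.log (Real.log y ^ m) := by
    rw [Real.log_pow]
    push_cast
    ring
  rw [e4, Real.exp_add, Real.exp_log (star_pos y), Real.exp_neg, Real.exp_log (pow_pos hlog m)]
  field_simp

/-- **the law**: asymptotics with the leading coefficient, asymptotics with any exponent, all ratios, and ratios for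
exponents in a set of positive measure -/
theorem s_law (hc : c = ((i : ℝ) + 1) / 2) (h : Bdd i S α) (hF : Holo c S α F) {m : ℕ}
    (hm : analyticOrderAt F c = m) {a : ℂ} (ha : Tendsto (fun s : ℂ => F s / (s - c) ^ m) (𝓝[≠] (c : ℂ)) (𝓝 a))
    (ha0 : a ≠ 0) : List.TFAE [
      Tendsto (fun y : ℝ => productStar c S α y / (Real.exp Real.eulerMascheroniConstant * Real.log y) ^ m) atTop
        (𝓝 (1 / ‖a‖)),
      ∃ κ b : ℝ, 0 < b ∧ Tendsto (fun y : ℝ => productStar c S α y / Real.log y ^ κ) atTop (𝓝 b),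
      ∀ l : ℝ, 0 < l → Tendsto (fun y : ℝ => productStar c S α (y ^ l) / productStar c S α y) atTop (𝓝 (l ^ m)),
      ∃ Λ : Set ℝ, Λ ⊆ Ioi 1 ∧ volume Λ ≠ 0 ∧ ∀ l ∈ Λ, ∃ r : ℝ,
        Tendsto (fun y : ℝ => productStar c S α (y ^ l) / productStar c S α y) atTop (𝓝 r),
      ∃ Λ : Set ℝ, Λ ⊆ Ioi 1 ∧ volume Λ ≠ 0 ∧ ∀ l ∈ Λ, ∀ ε : ℝ, 0 < ε → ∀ᶠ y : ℝ in atTop,
        productStar c S α (y ^ l) ≤ (l ^ m + ε) * productStar c S α y] := by
  have hA : 0 < ‖a‖ := norm_pos_iff.2 ha0
  have hpos : ∀ y, 0 < productStar c S α y := star_pos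
  tfae_have 1 → 2 := by
    intro h1
    refine ⟨m, 1 / ‖a‖ * Real.exp Real.eulerMascheroniConstant ^ m, by positivity, ?_⟩
    refine (h1.mul_const (Real.exp Real.eulerMascheroniConstant ^ m)).congr' ?_
    filter_upwards [eventually_gt_atTop 1] with y hy
    have hlog := Real.log_pos hy
    rw [Real.rpow_natCast, mul_pow]
    field_simp
  tfae_have 2 → 3 := by
    rintro ⟨κ, b, hb, h1⟩
    have key : ∀ l : ℝ, 0 < l →
        Tendsto (fun y : ℝ => productStar c S α (y ^ l) / productStar c S α y) atTop (𝓝 (l ^ κ)) := by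
      intro l hl
      have h2 := ((h1.comp (tendsto_rpow_atTop hl)).div h1 hb.ne').mul_const (l ^ κ)
      rw [div_self hb.ne', one_mul] at h2
      refine h2.congr' ?_
      filter_upwards [eventually_gt_atTop 1] with y hy
      have hlog := Real.log_pos hy
      have h3 : 0 < Real.log y ^ κ := Real.rpow_pos_of_pos hlog κ
      have h4 : 0 < l ^ κ := Real.rpow_pos_of_pos hl κ
      have h5 := hpos y
      simp only [Pi.div_apply, Function.comp_apply]
      rw [Real.log_rpow (by linarith), Real.mul_rpow hl.le hlog.le]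
      field_simp
    intro l hl
    have h2 := (s_limit hc h hF hm (l := 2) (by norm_num) (key 2 (by norm_num))).2
    rw [← Real.rpow_natCast] at h2
    have h3 : κ = m := by
      have h4 := congrArg Real.log h2
      rw [Real.log_rpow (by norm_num), Real.log_rpow (by norm_num)] at h4
      exact mul_right_cancel₀ (Real.log_pos (by norm_num : (1 : ℝ) < 2)).ne' h4
    have h4 := key l hl
    rw [h3, Real.rpow_natCast] at h4
    exact h4
  tfae_have 3 → 4 := by
    intro h1
    refine ⟨Ioi 1, subset_rfl, by simp, fun l hl => ⟨_, h1 l (by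
      have : (1 : ℝ) < l := hl
      linarith)⟩⟩
  tfae_have 4 → 5 := by
    rintro ⟨Λ, h1, h2, h3⟩
    refine ⟨Λ, h1, h2, fun l hl ε hε => ?_⟩
    obtain ⟨r, hr⟩ := h3 l hl
    have hr1 := (s_limit hc h hF hm (h1 hl) hr).2
    rw [hr1] at hr
    filter_upwards [hr.eventually_lt_const (show l ^ m < l ^ m + ε by linarith)] with y hy
    rw [div_lt_iff₀ (hpos y)] at hy
    exact hy.le
  tfae_have 5 → 1 := by
    rintro ⟨Λ, h1, h2, h3⟩
    exact s_conv hc h hF hm ha ha0 h1 h2 h3
  tfae_finish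

/-- the leading coefficient of a holomorphic function -/
theorem Holo.leading (hF : Holo c S α F) {m : ℕ} (hm : analyticOrderAt F c = m) :
    ∃ a : ℂ, a ≠ 0 ∧ Tendsto (fun s : ℂ => F s / (s - c) ^ m) (𝓝[≠] (c : ℂ)) (𝓝 a) := by
  obtain ⟨a, ha, h1⟩ := exists_leading hF.analytic.1.meromorphicAt (mero_of hF hm)
  exact ⟨a, ha, by simpa only [zpow_natCast] using h1.2⟩

/-- **the value**: the product over the prime powers converges to a nonzero number iff it is slowly varying from
above along exponents of positive measure -/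
theorem s_value (hc : c = ((i : ℝ) + 1) / 2) (h : Bdd i S α) (hF : Holo c S α F) : List.TFAE [
      F c ≠ 0 ∧ Tendsto (productStar c S α) atTop (𝓝 (1 / ‖F c‖)),
      ∃ b : ℝ, 0 < b ∧ Tendsto (productStar c S α) atTop (𝓝 b),
      ∃ Λ : Set ℝ, Λ ⊆ Ioi 1 ∧ volume Λ ≠ 0 ∧ ∀ l ∈ Λ, ∀ ε : ℝ, 0 < ε → ∀ᶠ y : ℝ in atTop,
        productStar c S α (y ^ l) ≤ (1 + ε) * productStar c S α y] := by
  obtain ⟨m, hm⟩ := hF.order_finite' hc h
  obtain ⟨a, ha0, ha⟩ := hF.leading hm
  tfae_have 1 → 2 := fun h1 => ⟨_, by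
    have := norm_pos_iff.2 h1.1
    positivity, h1.2⟩
  tfae_have 2 → 3 := by
    rintro ⟨b, hb, h1⟩
    refine ⟨Ioi 1, subset_rfl, by simp, fun l hl ε hε => ?_⟩
    have hl1 : (1 : ℝ) < l := hl
    have h2 := (h1.comp (tendsto_rpow_atTop (by linarith : 0 < l))).div h1 hb.ne'
    rw [div_self hb.ne'] at h2
    filter_upwards [h2.eventually_lt_const (show (1 : ℝ) < 1 + ε by linarith)] with y hy
    have h3 : productStar c S α (y ^ l) / productStar c S α y < 1 + ε := hy
    rw [div_lt_iff₀ (star_pos y)] at h3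
    exact h3.le
  tfae_have 3 → 1 := by
    rintro ⟨Λ, h1, h2, h3⟩
    have hne : Λ.Nonempty := by
      by_contra hcon
      rw [not_nonempty_iff_eq_empty] at hcon
      rw [hcon, measure_empty] at h2
      exact h2 rfl
    obtain ⟨l₀, hl₀⟩ := hne
    have hl1 : 1 < l₀ := h1 hl₀
    have h4 : l₀ ^ m ≤ 1 := le_of_forall_pos_le_add fun ε hε =>
      (s_upper hc h hF hm hl1 (h3 l₀ hl₀ ε hε)).2
    have hm0 : m = 0 := by
      by_contra hcon
      exact absurd (one_lt_pow₀ hl1 hcon) (not_lt.2 h4)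
    subst hm0
    have h5 := s_conv hc h hF hm ha ha0 h1 h2 (by
      intro l hl ε hε
      simpa only [pow_zero] using h3 l hl ε hε)
    simp only [pow_zero, div_one] at h5 ha
    have h6 : Tendsto F (𝓝[≠] (c : ℂ)) (𝓝 (F c)) :=
      hF.analytic.1.continuousAt.tendsto.mono_left nhdsWithin_le_nhds
    have h7 := tendsto_nhds_unique h6 ha
    rw [h7]
    exact ⟨ha0, h5⟩
  tfae_finish

end Pool.Agent.Q190.RV
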