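import Mathlib
import Pool.Agent.Q190.RV.StarPure

/-!
# Real power sums: the numerical form of a formula for the central value
-/

set_option autoImplicit false
set_option linter.unusedSectionVars false

namespace Pool.Agent.Q190.RV

open Filter Topology Set Complex NumberField IsDedekindDomain MeasureTheory ComplexConjugate
open Pool.Agent.Q18.P (norm Pure Bdd Tempered productStar NoZeros IsLeading star_pos)

variable {K : Type} [Field K] [NumberField K] {N : ℕ} {i : ℕ} {c : ℝ}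
  {S : Finset (HeightOneSpectrum (𝓞 K))} {α : HeightOneSpectrum (𝓞 K) → Fin N → ℂ} {F : ℂ → ℂ}

/-- There is a set `Λ ⊆ (1, ∞)` of positive (outer) Lebesgue measure such that for every `l ∈ Λ` the ratio
`P(y^l) / P(y)` converges as `y → ∞`. -/
def Conv (P : ℝ → ℝ) : Prop :=
  ∃ Λ : Set ℝ, Λ ⊆ Ioi 1 ∧ volume Λ ≠ 0 ∧ ∀ l ∈ Λ, ∃ r : ℝ, Tendsto (fun y : ℝ => P (y ^ l) / P y) atTop (𝓝 r)

/-- There is a set `Λ ⊆ (1, ∞)` of positive (outer) Lebesgue measure such that for every `l ∈ Λ` and `ε > 0`,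
`P(y^l) ≤ (1 + ε) P(y)` for all large `y`. -/
def Slow (P : ℝ → ℝ) : Prop :=
  ∃ Λ : Set ℝ, Λ ⊆ Ioi 1 ∧ volume Λ ≠ 0 ∧ ∀ l ∈ Λ, ∀ ε : ℝ, 0 < ε → ∀ᶠ y : ℝ in atTop, P (y ^ l) ≤ (1 + ε) * P y

theorem bdd_of (h : Pure i S α) : Bdd i S α := h.le

theorem some_mem {Λ : Set ℝ} (h2 : volume Λ ≠ 0) : ∃ l, l ∈ Λ := by
  by_contra hcon
  push Not at hcon
  rw [eq_empty_of_forall_notMem hcon, measure_empty] at h2
  exact h2 rfl

theorem Conv.noZeros (hc : c = ((i : ℝ) + 1) / 2) (h : Bdd i S α) (hF : Holo c S α F) {m : ℕ}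
    (hm : analyticOrderAt F c = m) (hcv : Conv (productStar c S α)) : NoZeros c F := by
  obtain ⟨Λ, h1, h2, h3⟩ := hcv
  obtain ⟨l, hl⟩ := some_mem h2
  obtain ⟨r, hr⟩ := h3 l hl
  exact (s_limit hc h hF hm (h1 hl) hr).1

theorem Slow.noZeros (hc : c = ((i : ℝ) + 1) / 2) (h : Bdd i S α) (hF : Holo c S α F) {m : ℕ}
    (hm : analyticOrderAt F c = m) (hcv : Slow (productStar c S α)) : NoZeros c F := by
  obtain ⟨Λ, h1, h2, h3⟩ := hcv
  obtain ⟨l, hl⟩ := some_mem h2
  exact (s_upper hc h hF hm (h1 hl) (h3 l hl 1 one_pos)).1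

/-- the leading coefficient is positive when there are no zeros -/
theorem lead_pos (hc : c = ((i : ℝ) + 1) / 2) (h : Pure i S α) (hF : Holo c S α F) {m : ℕ}
    (hm : analyticOrderAt F c = m) (hz : NoZeros c F) :
    ∃ A : ℝ, 0 < A ∧ Tendsto (fun s : ℂ => F s / (s - c) ^ m) (𝓝[≠] (c : ℂ)) (𝓝 (A : ℂ)) := by
  obtain ⟨A, hA, h1⟩ := Pool.Agent.Q18.P.lead_exists hc h hF.temp hz (mero_of hF hm)
  exact ⟨A, hA, by simpa only [zpow_natCast] using h1.2⟩

/-- **the asymptotics with the leading coefficient** -/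
theorem conv_lead (hc : c = ((i : ℝ) + 1) / 2) (h : Pure i S α) (hF : Holo c S α F) {m : ℕ}
    (hm : analyticOrderAt F c = m) (hcv : Conv (productStar c S α)) : NoZeros c F ∧ ∃ A : ℝ, 0 < A ∧
      Tendsto (fun s : ℂ => F s / (s - c) ^ m) (𝓝[≠] (c : ℂ)) (𝓝 (A : ℂ)) ∧
      Tendsto (fun y : ℝ => productStar c S α y / (Real.exp Real.eulerMascheroniConstant * Real.log y) ^ m) atTop
        (𝓝 (1 / A)) := by
  have hz := hcv.noZeros hc (bdd_of h) hF hm
  obtain ⟨A, hA, h1⟩ := lead_pos hc h hF hm hz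
  have hA' : (A : ℂ) ≠ 0 := by exact_mod_cast hA.ne'
  have h2 := (s_law hc (bdd_of h) hF hm h1 hA').out 0 3
  refine ⟨hz, A, hA, h1, ?_⟩
  have h3 := h2.2 hcv
  rwa [Complex.norm_real, Real.norm_of_nonneg hA.le] at h3

theorem centre_value (hF : Holo c S α F) {m : ℕ} {A : ℂ}
    (h1 : Tendsto (fun s : ℂ => F s / (s - c) ^ m) (𝓝[≠] (c : ℂ)) (𝓝 A)) : F c = if m = 0 then A else 0 := by
  have h6 : Tendsto F (𝓝[≠] (c : ℂ)) (𝓝 (F c)) :=
    hF.analytic.1.continuousAt.tendsto.mono_left nhdsWithin_le_nhds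
  have h7 : Tendsto (fun s : ℂ => (s - c) ^ m) (𝓝[≠] (c : ℂ)) (𝓝 (if m = 0 then 1 else 0)) := by
    have h8 : ContinuousAt (fun s : ℂ => (s - c) ^ m) c := by fun_prop
    have h9 := h8.tendsto.mono_left (nhdsWithin_le_nhds (s := {(c : ℂ)}ᶜ))
    rw [sub_self, zero_pow_eq] at h9
    exact h9
  have h8 := h1.mul h7
  have h9 : Tendsto (fun s : ℂ => F s / (s - c) ^ m * (s - c) ^ m) (𝓝[≠] (c : ℂ)) (𝓝 (F c)) := by
    refine h6.congr' ?_
    filter_upwards [self_mem_nhdsWithin] with s hs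
    have : s - c ≠ 0 := sub_ne_zero.2 hs
    field_simp
  have h10 := tendsto_nhds_unique h9 h8
  rw [h10]
  split_ifs <;> simp

/-- **the value under convergence of the ratios** -/
theorem conv_value (hc : c = ((i : ℝ) + 1) / 2) (h : Pure i S α) (hF : Holo c S α F)
    (hcv : Conv (productStar c S α)) : NoZeros c F ∧ ∃ A : ℝ, 0 ≤ A ∧ F c = A ∧
      Tendsto (fun y : ℝ => 1 / productStar c S α y) atTop (𝓝 A) := by
  obtain ⟨m, hm⟩ := hF.order_finite' hc (bdd_of h)
  obtain ⟨hz, A, hA, h1, h2⟩ := conv_lead hc h hF hm hcv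
  have h3 := centre_value hF h1
  refine ⟨hz, ?_⟩
  rcases eq_or_ne m 0 with h0 | h0
  · subst h0
    rw [if_pos rfl] at h3
    refine ⟨A, hA.le, h3, ?_⟩
    have h4 := h2.inv₀ (by positivity)
    simpa using h4
  · rw [if_neg h0] at h3
    refine ⟨0, le_rfl, by rw [h3]; simp, ?_⟩
    have h4 : Tendsto (fun y : ℝ => (Real.exp Real.eulerMascheroniConstant * Real.log y) ^ m) atTop atTop := by
      refine (tendsto_pow_atTop h0).comp ?_
      exact Real.tendsto_log_atTop.const_mul_atTop (Real.exp_pos _)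
    have h5 := (h2.inv₀ (by positivity)).mul h4.inv_tendsto_atTop
    rw [mul_zero] at h5
    refine h5.congr' ?_
    filter_upwards [eventually_gt_atTop 1] with y hy
    have hlog := Real.log_pos hy
    have hs := star_pos (c := c) (S := S) (α := α) y
    have he := Real.exp_pos Real.eulerMascheroniConstant
    simp only [Pi.inv_apply]
    field_simp

/-- **the numerical form of a formula** -/
theorem formula_iff (hc : c = ((i : ℝ) + 1) / 2) (h : Pure i S α) (hF : Holo c S α F) {c₀ P : ℝ} (hc₀ : 0 < c₀)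
    (hP : P ≠ 0) :
    Tendsto (fun y : ℝ => c₀ / productStar c S α y) atTop (𝓝 P) ↔
      (P : ℂ) = c₀ * F c ∧ Slow (productStar c S α) := by
  have hpos : ∀ y, 0 < productStar c S α y := star_pos
  obtain ⟨m, hm⟩ := hF.order_finite' hc (bdd_of h)
  have t := s_value hc (bdd_of h) hF
  have real : NoZeros c F → F c ≠ 0 → F c = (‖F c‖ : ℂ) := by
    intro hz h0
    obtain ⟨A, hA, h1⟩ := lead_pos hc h hF hm hz
    have h2 := centre_value hF h1
    by_cases hm0 : m = 0
    · rw [if_pos hm0] at h2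
      rw [h2, Complex.norm_real, Real.norm_of_nonneg hA.le]
    · rw [if_neg hm0] at h2
      exact absurd h2 h0
  constructor
  · intro h1
    have hP0 : 0 < P := lt_of_le_of_ne (ge_of_tendsto h1 (Eventually.of_forall fun y =>
      (div_pos hc₀ (hpos y)).le)) hP.symm
    have h2 : Tendsto (productStar c S α) atTop (𝓝 (c₀ / P)) := by
      have h3 := (h1.inv₀ hP).const_mul c₀
      refine (h3.congr fun y => ?_)
      have := (hpos y).ne'
      field_simp
    have h3 : ∃ b : ℝ, 0 < b ∧ Tendsto (productStar c S α) atTop (𝓝 b) := ⟨_, by positivity, h2⟩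
    have h4 := (t.out 0 1).2 h3
    have h5 : Slow (productStar c S α) := (t.out 1 2).1 h3
    have h6 := tendsto_nhds_unique h2 h4.2
    have h7 : 0 < ‖F c‖ := norm_pos_iff.2 h4.1
    refine ⟨?_, h5⟩
    rw [real (h5.noZeros hc (bdd_of h) hF hm) h4.1]
    have h8 : P = c₀ * ‖F c‖ := by
      field_simp at h6
      linarith
    exact_mod_cast h8
  · rintro ⟨h1, h2⟩
    have h4 := (t.out 0 2).2 h2
    have h7 : 0 < ‖F c‖ := norm_pos_iff.2 h4.1
    have h5 := (h4.2.inv₀ (by positivity)).const_mul c₀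
    have h6 : c₀ * (1 / ‖F c‖)⁻¹ = P := by
      rw [real (h2.noZeros hc (bdd_of h) hF hm) h4.1] at h1
      have h8 : P = c₀ * ‖F c‖ := by exact_mod_cast h1
      rw [h8]
      simp
    rw [h6] at h5
    exact h5.congr fun y => by rw [div_eq_mul_inv]

end Pool.Agent.Q190.RV
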