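import Mathlib
import Pool.Agent.Q190.RV.StarReal

/-!
# Order and leading coefficient from the asymptotics of the product over the prime powers
-/

set_option autoImplicit false
set_option linter.unusedSectionVars false

namespace Pool.Agent.Q190.RV

open Filter Topology Set Complex NumberField IsDedekindDomain MeasureTheory ComplexConjugate
open Pool.Agent.Q18.P (norm Pure Bdd Tempered productStar NoZeros IsLeading star_pos)

variable {K : Type} [Field K] [NumberField K] {N : ℕ} {i : ℕ} {c : ℝ}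
  {S : Finset (HeightOneSpectrum (𝓞 K))} {α : HeightOneSpectrum (𝓞 K) → Fin N → ℂ} {F : ℂ → ℂ}

/-- the order is `m` and the leading coefficient is `A` -/
def Lead (c : ℝ) (F : ℂ → ℂ) (m : ℕ) (A : ℂ) : Prop :=
  analyticOrderAt F c = m ∧ Tendsto (fun s : ℂ => F s / (s - c) ^ m) (𝓝[≠] (c : ℂ)) (𝓝 A)

theorem ratio_limit {P : ℝ → ℝ} (m : ℕ) {b : ℝ} (hb : b ≠ 0)
    (h : Tendsto (fun y : ℝ => P y / (Real.exp Real.eulerMascheroniConstant * Real.log y) ^ m) atTop (𝓝 b)) {l : ℝ}
    (hl : 0 < l) : Tendsto (fun y : ℝ => P (y ^ l) / P y) atTop (𝓝 (l ^ m)) := by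
  have h2 := ((h.comp (tendsto_rpow_atTop hl)).div h hb).mul_const (l ^ m)
  rw [div_self hb, one_mul] at h2
  refine h2.congr' ?_
  filter_upwards [eventually_gt_atTop 1, h.eventually_ne hb] with y hy hne
  have hlog := Real.log_pos hy
  have hP : P y ≠ 0 := fun h0 => hne (by rw [h0, zero_div])
  simp only [Pi.div_apply, Function.comp_apply]
  rw [Real.log_rpow (by linarith)]
  field_simp
  ring

/-- **order and leading coefficient from the asymptotics** -/
theorem lead_iff (hc : c = ((i : ℝ) + 1) / 2) (h : Pure i S α) (hF : Holo c S α F) (m : ℕ) {A : ℝ} (hA : 0 < A) :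
    Tendsto (fun y : ℝ => productStar c S α y / (Real.exp Real.eulerMascheroniConstant * Real.log y) ^ m) atTop
      (𝓝 (1 / A)) ↔ Conv (productStar c S α) ∧ Lead c F m A := by
  obtain ⟨m', hm'⟩ := hF.order_finite' hc (bdd_of h)
  constructor
  · intro h1
    have hb : (1 / A) ≠ 0 := by positivity
    have hcv : Conv (productStar c S α) := ⟨Ioi 1, subset_rfl, by simp, fun l hl => ⟨_, ratio_limit m hb h1 (by
      have : (1 : ℝ) < l := hl
      linarith)⟩⟩
    have h2 := (s_limit hc (bdd_of h) hF hm' (l := 2) (by norm_num) (ratio_limit m hb h1 (by norm_num))).2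
    have h3 : m = m' := Nat.pow_right_injective (le_refl 2) (by
      show 2 ^ m = 2 ^ m'
      exact_mod_cast h2)
    subst h3
    obtain ⟨hz, A', hA', h4, h5⟩ := conv_lead hc h hF hm' hcv
    have h6 := tendsto_nhds_unique h1 h5
    have h7 : A = A' := by
      field_simp at h6
      linarith
    rw [h7]
    exact ⟨hcv, hm', h4⟩
  · rintro ⟨hcv, h1, h2⟩
    obtain ⟨hz, A', hA', h4, h5⟩ := conv_lead hc h hF h1 hcv
    have h6 := tendsto_nhds_unique h2 h4
    have h7 : A = A' := by exact_mod_cast h6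
    rw [h7]
    exact h5

/-- the inverse form -/
theorem lead_iff' (hc : c = ((i : ℝ) + 1) / 2) (h : Pure i S α) (hF : Holo c S α F) (m : ℕ) {A : ℝ} (hA : 0 < A) :
    Tendsto (fun y : ℝ => (Real.exp Real.eulerMascheroniConstant * Real.log y) ^ m / productStar c S α y) atTop
      (𝓝 A) ↔ Conv (productStar c S α) ∧ Lead c F m A := by
  rw [← lead_iff hc h hF m hA]
  constructor
  · intro h1
    have h2 := h1.inv₀ hA.ne'
    simpa using h2
  · intro h1
    have h2 := h1.inv₀ (by positivity)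
    simpa using h2

theorem Lead.unique {m m' : ℕ} {A A' : ℂ} (h : Lead c F m A) (h' : Lead c F m' A') : m = m' ∧ A = A' := by
  have h1 : m = m' := by
    have := h.1.symm.trans h'.1
    exact_mod_cast this
  subst h1
  exact ⟨rfl, tendsto_nhds_unique h.2 h'.2⟩

/-- the order from one exponent -/
theorem order_lt (hc : c = ((i : ℝ) + 1) / 2) (h : Bdd i S α) (hF : Holo c S α F) {m : ℕ}
    (hm : analyticOrderAt F c = m) {l Q : ℝ} (hl : 1 < l)
    (hQ : ∀ᶠ y : ℝ in atTop, productStar c S α (y ^ l) ≤ Q * productStar c S α y) {k : ℕ} (hk : Q < l ^ k) :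
    NoZeros c F ∧ m < k := by
  obtain ⟨hz, h1⟩ := s_upper hc h hF hm hl hQ
  exact ⟨hz, (pow_lt_pow_iff_right₀ hl).1 (lt_of_le_of_lt h1 hk)⟩

/-- the order from one exponent, from below -/
theorem lt_order (hc : c = ((i : ℝ) + 1) / 2) (h : Bdd i S α) (hF : Holo c S α F) {m : ℕ}
    (hm : analyticOrderAt F c = m) (hz : NoZeros c F) {l q : ℝ} (hl : 1 < l)
    (hq : ∀ᶠ y : ℝ in atTop, q * productStar c S α y ≤ productStar c S α (y ^ l)) {k : ℕ} (hk : l ^ k < q) :
    k < m := by
  have hl0 : (0 : ℝ) < l ^ k := pow_pos (by linarith) k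
  have h1 := s_lower hc h hF hm hz hl (by linarith) hq
  exact (pow_lt_pow_iff_right₀ hl).1 (lt_of_lt_of_le hk h1)

end Pool.Agent.Q190.RV
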