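import Mathlib
import Pool.Agent.Q190.RV.StarLead

/-!
# The laws of the ratios, bundled
-/

set_option autoImplicit false
set_option linter.unusedSectionVars false

namespace Pool.Agent.Q190.RV

open Filter Topology Set Complex NumberField IsDedekindDomain MeasureTheory ComplexConjugate
open Pool.Agent.Q18.P (norm Pure Bdd productStar product NoZeros)

variable {K : Type} [Field K] [NumberField K] {N : ℕ} {i : ℕ} {c : ℝ}
  {S : Finset (HeightOneSpectrum (𝓞 K))} {α : HeightOneSpectrum (𝓞 K) → Fin N → ℂ} {F : ℂ → ℂ}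

/-- `P(y^l) ≤ Q P(y)` for all large `y` -/
def Upper (P : ℝ → ℝ) (l Q : ℝ) : Prop := ∀ᶠ y : ℝ in atTop, P (y ^ l) ≤ Q * P y

/-- `q P(y) ≤ P(y^l)` for all large `y` -/
def Lower (P : ℝ → ℝ) (l q : ℝ) : Prop := ∀ᶠ y : ℝ in atTop, q * P y ≤ P (y ^ l)

/-- The laws of the ratios for `P` and the order `m` of `F` at `c`: one exponent, exponents of positive measure. -/
structure Ratios (c : ℝ) (F : ℂ → ℂ) (m : ℕ) (P : ℝ → ℝ) : Prop where
  upper : ∀ l Q : ℝ, 1 < l → Upper P l Q → NoZeros c F ∧ l ^ m ≤ Q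
  lower : NoZeros c F → ∀ l q : ℝ, 1 < l → 0 < q → Lower P l q → q ≤ l ^ m
  limit : ∀ l r : ℝ, 1 < l → Tendsto (fun y : ℝ => P (y ^ l) / P y) atTop (𝓝 r) → NoZeros c F ∧ r = l ^ m

theorem ratios (hc : c = ((i : ℝ) + 1) / 2) (h : Bdd i S α) (hF : Holo c S α F) {m : ℕ}
    (hm : analyticOrderAt F c = m) : Ratios c F m (product c S α) where
  upper := fun _ _ hl hQ => one_upper hc h hF hm hl hQ
  lower := fun hz _ _ hl hq0 hq => one_lower hc h hF hm hz hl hq0 hq
  limit := fun _ _ hl hr => one_limit hc h hF hm hl hr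

theorem ratios_star (hc : c = ((i : ℝ) + 1) / 2) (h : Bdd i S α) (hF : Holo c S α F) {m : ℕ}
    (hm : analyticOrderAt F c = m) : Ratios c F m (productStar c S α) where
  upper := fun _ _ hl hQ => s_upper hc h hF hm hl hQ
  lower := fun hz _ _ hl hq0 hq => s_lower hc h hF hm hz hl hq0 hq
  limit := fun _ _ hl hr => s_limit hc h hF hm hl hr

theorem Ratios.lt {m : ℕ} {P : ℝ → ℝ} (R : Ratios c F m P) {l Q : ℝ} (hl : 1 < l) (hQ : Upper P l Q) {k : ℕ}
    (hk : Q < l ^ k) : m < k :=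
  (pow_lt_pow_iff_right₀ hl).1 (lt_of_le_of_lt (R.upper l Q hl hQ).2 hk)

theorem Ratios.gt {m : ℕ} {P : ℝ → ℝ} (R : Ratios c F m P) (hz : NoZeros c F) {l q : ℝ} (hl : 1 < l)
    (hq : Lower P l q) {k : ℕ} (hk : l ^ k < q) : k < m := by
  have hl0 : (0 : ℝ) < l ^ k := pow_pos (by linarith) k
  exact (pow_lt_pow_iff_right₀ hl).1 (lt_of_lt_of_le hk (R.lower hz l q hl (by linarith) hq))

/-- growth forced by the order -/
theorem Ratios.freq {m : ℕ} {P : ℝ → ℝ} (R : Ratios c F m P) {l Q : ℝ} (hl : 1 < l) (hQ : Q < l ^ m) :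
    ∃ᶠ y : ℝ in atTop, Q * P y < P (y ^ l) := by
  intro hcon
  have h1 : Upper P l Q := by
    filter_upwards [hcon] with y hy
    exact not_lt.1 hy
  exact absurd (R.upper l Q hl h1).2 (not_le.2 hQ)

/-- the exponent of an asymptotic formula -/
theorem Ratios.kappa {m : ℕ} {P : ℝ → ℝ} (R : Ratios c F m P) {κ b : ℝ} (hb : 0 < b)
    (h : Tendsto (fun y : ℝ => P y / Real.log y ^ κ) atTop (𝓝 b)) : NoZeros c F ∧ κ = m := by
  have h2 := ((h.comp (tendsto_rpow_atTop (by norm_num : (0 : ℝ) < 2))).div h hb.ne').mul_const ((2 : ℝ) ^ κ)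
  rw [div_self hb.ne', one_mul] at h2
  have h3 : Tendsto (fun y : ℝ => P (y ^ (2 : ℝ)) / P y) atTop (𝓝 ((2 : ℝ) ^ κ)) := by
    refine h2.congr' ?_
    filter_upwards [eventually_gt_atTop 1, h.eventually_ne hb.ne'] with y hy hne
    have hlog := Real.log_pos hy
    have h3 : 0 < Real.log y ^ κ := Real.rpow_pos_of_pos hlog κ
    have h4 : (0 : ℝ) < 2 ^ κ := Real.rpow_pos_of_pos (by norm_num) κ
    have hP : P y ≠ 0 := fun h0 => hne (by rw [h0, zero_div])
    simp only [Pi.div_apply, Function.comp_apply]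
    rw [Real.log_rpow (by linarith), Real.mul_rpow (by norm_num) hlog.le]
    field_simp
  obtain ⟨h4, h5⟩ := R.limit 2 _ (by norm_num) h3
  refine ⟨h4, ?_⟩
  rw [← Real.rpow_natCast] at h5
  have h6 := congrArg Real.log h5
  rw [Real.log_rpow (by norm_num), Real.log_rpow (by norm_num)] at h6
  exact mul_right_cancel₀ (Real.log_pos (by norm_num : (1 : ℝ) < 2)).ne' h6

end Pool.Agent.Q190.RV
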