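import Mathlib
import Pool.Agent.Q18.P.Cat
import Pool.Agent.Q190.RV.Laws

/-!
# Products of several Euler products
-/

set_option autoImplicit false
set_option linter.unusedSectionVars false

namespace Pool.Agent.Q190.RV

open Filter Topology Set Complex NumberField IsDedekindDomain MeasureTheory ComplexConjugate
open Pool.Agent.Q18.P (norm Pure Bdd productStar product NoZeros cat)

variable {K : Type} [Field K] [NumberField K] {M : ℕ} {N : Fin M → ℕ} {i : ℕ} {c : ℝ}
  {S : Finset (HeightOneSpectrum (𝓞 K))} {r : (i : Fin M) → HeightOneSpectrum (𝓞 K) → Fin (N i) → ℂ}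
  {F : Fin M → ℂ → ℂ}

theorem Holo.cat (h : ∀ i, Holo c S (r i) (F i)) : Holo c S (cat r) (fun s => ∏ i, F i s) :=
  ⟨Pool.Agent.Q18.P.holo_prod _ fun i _ => (h i).1, Pool.Agent.Q18.P.cat_euler fun i => (h i).2⟩

theorem order_prod {ι : Type} (s : Finset ι) {F : ι → ℂ → ℂ} {x : ℂ} (hF : ∀ i ∈ s, AnalyticAt ℂ (F i) x) {e : ι → ℕ}
    (h : ∀ i ∈ s, analyticOrderAt (F i) x = e i) :
    AnalyticAt ℂ (fun z => ∏ i ∈ s, F i z) x ∧ analyticOrderAt (fun z => ∏ i ∈ s, F i z) x = ((∑ i ∈ s, e i : ℕ) : ℕ∞) := by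
  classical
  induction s using Finset.induction_on with
  | empty =>
    simp only [Finset.prod_empty, Finset.sum_empty]
    refine ⟨analyticAt_const, ?_⟩
    rw [analyticAt_const.analyticOrderAt_eq_zero.2 one_ne_zero]
    rfl
  | insert i s hi ih =>
    obtain ⟨h1, h2⟩ := ih (fun j hj => hF j (Finset.mem_insert_of_mem hj)) fun j hj => h j (Finset.mem_insert_of_mem hj)
    have h3 := hF i (Finset.mem_insert_self i s)
    simp only [Finset.prod_insert hi, Finset.sum_insert hi]
    refine ⟨h3.mul h1, ?_⟩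
    have h4 := analyticOrderAt_mul h3 h1
    rw [show (fun z => F i z * ∏ j ∈ s, F j z) = F i * fun z => ∏ j ∈ s, F j z from rfl, h4,
      h i (Finset.mem_insert_self i s), h2]
    norm_cast

/-- the orders of the factors -/
theorem orders (hc : c = ((i : ℝ) + 1) / 2) (hb : ∀ j, Bdd i S (r j)) (h : ∀ j, Holo c S (r j) (F j)) :
    ∃ e : Fin M → ℕ, (∀ j, analyticOrderAt (F j) c = e j) ∧
      analyticOrderAt (fun s => ∏ j, F j s) c = ((∑ j, e j : ℕ) : ℕ∞) := by
  have := fun j => (h j).order_finite' hc (hb j)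
  choose e he using this
  exact ⟨e, he, (order_prod Finset.univ (fun j _ => (h j).analytic.1) fun j _ => he j).2⟩

end Pool.Agent.Q190.RV
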