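import Mathlib
import Pool.Agent.Q190.RV.Laws
import Pool.Agent.Q18.P.EC

/-!
# Local factors `1 - t q^{-s} + q^{1-2s}` with `|t| ≤ 2 √q`
-/

set_option autoImplicit false
set_option linter.unusedSectionVars false

namespace Pool.Agent.Q190.RV.Quad

open Filter Topology Set Complex NumberField IsDedekindDomain MeasureTheory ComplexConjugate
open Pool.Agent.Q18.P (norm Pure upTo)
open Pool.Agent.Q18.P.EC (two_le sqrt_pos sq_sqrt rt_sum rt_mul)
open Pool.Agent.TH942.ES (rt rt_norm)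

variable {K : Type} [Field K] [NumberField K]

/-- `t_v` is real and `|t_v| ≤ 2 √q_v` for `v ∉ S`. -/
def Bound (S : Finset (HeightOneSpectrum (𝓞 K))) (t : HeightOneSpectrum (𝓞 K) → ℝ) : Prop :=
  ∀ v, v ∉ S → |t v| ≤ 2 * √(norm v : ℝ)

/-- `α^n + β^n` for the roots `α`, `β` of `X² - t_v X + q_v` -/
noncomputable def powerSum (t : HeightOneSpectrum (𝓞 K) → ℝ) (v : HeightOneSpectrum (𝓞 K)) : ℕ → ℝ
  | 0 => 2
  | 1 => t v
  | n + 2 => t v * powerSum t v (n + 1) - norm v * powerSum t v n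

/-- `P(y) = ∏_{v ∉ S, q_v ≤ y} (q_v + 1 - t_v)/q_v` -/
noncomputable def product (S : Finset (HeightOneSpectrum (𝓞 K))) (t : HeightOneSpectrum (𝓞 K) → ℝ) (y : ℝ) : ℝ :=
  ∏ᶠ v ∈ upTo S y, ((norm v : ℝ) + 1 - t v) / norm v

/-- `P*(y) = exp (- ∑_{v ∉ S, q_v^n ≤ y} (α_v^n + β_v^n)/(n q_v^n))`, `n = x.2 + 1` -/
noncomputable def productStar (S : Finset (HeightOneSpectrum (𝓞 K))) (t : HeightOneSpectrum (𝓞 K) → ℝ) (y : ℝ) : ℝ :=
  Real.exp (-∑ᶠ (x : {v : HeightOneSpectrum (𝓞 K) // v ∉ S} × ℕ) (_ : (norm x.1.1 : ℝ) ^ (x.2 + 1) ≤ y),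
    powerSum t x.1.1 (x.2 + 1) / (((x.2 : ℝ) + 1) * (norm x.1.1 : ℝ) ^ (x.2 + 1)))

/-- the Euler product `∏_{v ∉ S} (1 - t_v q_v^{-s} + q_v^{1-2s})⁻¹` for `Re s > 3/2` -/
def Euler (S : Finset (HeightOneSpectrum (𝓞 K))) (t : HeightOneSpectrum (𝓞 K) → ℝ) (F : ℂ → ℂ) : Prop :=
  ∀ s : ℂ, 3 / 2 < s.re → HasProd (fun v : {v : HeightOneSpectrum (𝓞 K) // v ∉ S} =>
    (1 - (t v.1 : ℂ) * (norm v.1 : ℂ) ^ (-s) + (norm v.1 : ℂ) ^ (1 - 2 * s))⁻¹) (F s)

/-- the roots -/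
noncomputable def al (t : HeightOneSpectrum (𝓞 K) → ℝ) (v : HeightOneSpectrum (𝓞 K)) (j : Fin 2) : ℂ :=
  (√(norm v : ℝ) : ℝ) * rt (t v / (2 * √(norm v : ℝ))) j

variable {S : Finset (HeightOneSpectrum (𝓞 K))} {t : HeightOneSpectrum (𝓞 K) → ℝ} {v : HeightOneSpectrum (𝓞 K)}
  {F : ℂ → ℂ}

theorem small (h : |t v| ≤ 2 * √(norm v : ℝ)) : |t v / (2 * √(norm v : ℝ))| ≤ 1 := by
  have h0 := sqrt_pos v
  rw [abs_div, abs_of_pos (by positivity : 0 < 2 * √(norm v : ℝ)), div_le_one (by positivity)]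
  exact h

theorem al_le (h : |t v| ≤ 2 * √(norm v : ℝ)) (j : Fin 2) : ‖al t v j‖ ≤ √(norm v : ℝ) := by
  have h1 := rt_norm (small h) j
  have h2 : 0 ≤ √(norm v : ℝ) := (sqrt_pos v).le
  unfold al
  rw [norm_mul, Complex.norm_real, Real.norm_of_nonneg h2]
  exact mul_le_of_le_one_right h2 h1

theorem al_add : al t v 0 + al t v 1 = (t v : ℂ) := by
  have h0 := sqrt_pos v
  unfold al
  rw [← mul_add, rt_sum]
  have : √(norm v : ℝ) * (2 * (t v / (2 * √(norm v : ℝ)))) = t v := by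
    field_simp
  exact_mod_cast this

theorem al_mul (h : |t v| ≤ 2 * √(norm v : ℝ)) : al t v 0 * al t v 1 = norm v := by
  have h1 := rt_mul (small h)
  have h2 : ((√(norm v : ℝ) : ℝ) : ℂ) ^ 2 = norm v := by
    exact_mod_cast congrArg (fun x : ℝ => (x : ℂ)) (sq_sqrt v)
  unfold al
  calc _ = ((√(norm v : ℝ) : ℝ) : ℂ) ^ 2 * (rt (t v / (2 * √(norm v : ℝ))) 0 * rt (t v / (2 * √(norm v : ℝ))) 1) := by
        ring
    _ = _ := by rw [h1, h2, mul_one]

theorem al_pow (h : |t v| ≤ 2 * √(norm v : ℝ)) (n : ℕ) : ∑ j, al t v j ^ n = ((powerSum t v n : ℝ) : ℂ) := by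
  rw [Fin.sum_univ_two]
  induction n using Nat.strong_induction_on with
  | _ n ih =>
    match n with
    | 0 =>
      unfold powerSum
      norm_num
    | 1 =>
      rw [pow_one, pow_one, al_add]
      unfold powerSum
      rfl
    | n + 2 =>
      have h1 : al t v 0 ^ (n + 2) + al t v 1 ^ (n + 2) =
          (al t v 0 + al t v 1) * (al t v 0 ^ (n + 1) + al t v 1 ^ (n + 1)) -
            (al t v 0 * al t v 1) * (al t v 0 ^ n + al t v 1 ^ n) := by ring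
      rw [h1, al_add, al_mul h, ih (n + 1) (by omega), ih n (by omega)]
      show _ = ((t v * powerSum t v (n + 1) - norm v * powerSum t v n : ℝ) : ℂ)
      push_cast
      ring

theorem pure (hS : Bound S t) : Pure 1 S (al t) where
  le := fun v hv j => by
    refine (al_le (hS v hv) j).trans_eq ?_
    rw [Real.sqrt_eq_rpow]
    simp
  real := fun v hv k => by
    rw [al_pow (hS v hv), Complex.ofReal_im]

theorem factor_eq (h : |t v| ≤ 2 * √(norm v : ℝ)) (s : ℂ) :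
    1 - (t v : ℂ) * (norm v : ℂ) ^ (-s) + (norm v : ℂ) ^ (1 - 2 * s) = ∏ j, (1 - al t v j * (norm v : ℂ) ^ (-s)) := by
  have hn : (norm v : ℂ) ≠ 0 := by
    have := two_le v
    have h2 : (norm v : ℝ) ≠ 0 := by linarith
    exact_mod_cast h2
  have h1 : (norm v : ℂ) ^ (1 - 2 * s) = (al t v 0 * al t v 1) * ((norm v : ℂ) ^ (-s)) ^ 2 := by
    rw [al_mul h, ← Complex.cpow_nat_mul, show 1 - 2 * s = 1 + ((2 : ℕ) : ℂ) * (-s) by push_cast; ring,
      Complex.cpow_add _ _ hn, Complex.cpow_one]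
  rw [Fin.prod_univ_two, h1, ← al_add]
  ring

theorem euler (hS : Bound S t) (hE : Euler S t F) {s : ℂ} (hs : 1 + 1 / 2 < s.re) :
    HasProd (fun v : {v : HeightOneSpectrum (𝓞 K) // v ∉ S} =>
      (∏ j, (1 - al t v.1 j * (norm v.1 : ℂ) ^ (-s)))⁻¹) (F s) := by
  refine (hE s (by linarith)).congr_fun fun v => ?_
  rw [factor_eq (hS v.1 v.2)]

theorem product_eq (hS : Bound S t) : product S t = Pool.Agent.Q18.P.product 1 S (al t) := by
  funext y
  unfold product Pool.Agent.Q18.P.product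
  refine finprod_mem_congr rfl fun v hv => ?_
  have hn := two_le v
  have hn0 : (norm v : ℝ) ≠ 0 := by linarith
  have h2 := factor_eq (hS v hv.1) 1
  have e1 : (1 : ℂ) - (t v : ℂ) * (norm v : ℂ) ^ (-(1 : ℂ)) + (norm v : ℂ) ^ (1 - 2 * (1 : ℂ)) =
      ((((norm v : ℝ) + 1 - t v) / norm v : ℝ) : ℂ) := by
    have hc : (norm v : ℂ) ≠ 0 := by exact_mod_cast hn0
    rw [show (1 : ℂ) - 2 * 1 = -1 by norm_num, Complex.cpow_neg_one]
    push_cast
    field_simp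
    ring
  rw [e1] at h2
  have e2 : ∏ j, (1 - al t v j * (norm v : ℂ) ^ (-((1 : ℝ) : ℂ))) = ((((norm v : ℝ) + 1 - t v) / norm v : ℝ) : ℂ) := by
    rw [h2, Complex.ofReal_one]
  have h3 : 0 ≤ ((norm v : ℝ) + 1 - t v) / norm v := by
    refine div_nonneg ?_ (by linarith)
    have h4 := (abs_le.1 (hS v hv.1)).2
    have h5 := sq_sqrt v
    nlinarith [sq_nonneg (√(norm v : ℝ) - 1)]
  rw [e2, Complex.norm_real, Real.norm_of_nonneg h3]

theorem star_eq (hS : Bound S t) : productStar S t = Pool.Agent.Q18.P.productStar 1 S (al t) := by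
  funext y
  unfold productStar Pool.Agent.Q18.P.productStar
  congr 2
  refine finsum_congr fun p => finsum_congr fun _ => ?_
  rw [al_pow (hS p.1.1 p.1.2), Complex.ofReal_re, Real.rpow_one]

theorem one_c : (1 : ℝ) = (((1 : ℕ) : ℝ) + 1) / 2 := by norm_num

end Pool.Agent.Q190.RV.Quad
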