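import Mathlib

set_option autoImplicit false

open ComplexConjugate

namespace Pool.Agent.Q190.RV

noncomputable section

/-- primitive root -/
def ze (N : ℕ) : ℂ := Complex.exp (2 * Real.pi * Complex.I / N)

lemma ze_prim {N : ℕ} (hN : N ≠ 0) : IsPrimitiveRoot (ze N) N := Complex.isPrimitiveRoot_exp N hN

lemma norm_ze {N : ℕ} (hN : N ≠ 0) : ‖ze N‖ = 1 := (ze_prim hN).norm'_eq_one hN

lemma norm_ze_pow {N : ℕ} (hN : N ≠ 0) (k : ℕ) : ‖ze N ^ k‖ = 1 := by
  rw [norm_pow, norm_ze hN, one_pow]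

lemma pow_N {N : ℕ} (hN : N ≠ 0) (k : ℕ) : (ze N ^ k) ^ N = 1 := by
  rw [← pow_mul, mul_comm, pow_mul, (ze_prim hN).pow_eq_one, one_pow]

lemma root_sum {N : ℕ} (hN : N ≠ 0) (t : ℕ) :
    ∑ k ∈ Finset.range N, (ze N ^ k) ^ t = if N ∣ t then (N : ℂ) else 0 := by
  have e : ∀ k, (ze N ^ k) ^ t = (ze N ^ t) ^ k := fun k => by rw [← pow_mul, ← pow_mul, mul_comm]
  simp_rw [e]
  split_ifs with h
  · have h1 : ze N ^ t = 1 := ((ze_prim hN).pow_eq_one_iff_dvd t).2 h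
    simp [h1]
  · have h1 : ze N ^ t ≠ 1 := fun h2 => h (((ze_prim hN).pow_eq_one_iff_dvd t).1 h2)
    rw [geom_sum_eq h1]
    have h2 : (ze N ^ t) ^ N = 1 := by
      rw [← pow_mul, mul_comm, pow_mul, (ze_prim hN).pow_eq_one, one_pow]
    rw [h2, sub_self, zero_div]

lemma poly_sum {N : ℕ} (hN : N ≠ 0) (q : Polynomial ℂ) (n : ℕ) (hq : q.natDegree < N) :
    ∑ k ∈ Finset.range N, (ze N ^ k) ^ n * q.eval (ze N ^ k)
      = ∑ i ∈ Finset.range N, q.coeff i * (if N ∣ n + i then (N : ℂ) else 0) := by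
  have e : ∀ k, (ze N ^ k) ^ n * q.eval (ze N ^ k)
      = ∑ i ∈ Finset.range N, q.coeff i * (ze N ^ k) ^ (n + i) := by
    intro k
    rw [Polynomial.eval_eq_sum_range' hq, Finset.mul_sum]
    refine Finset.sum_congr rfl fun i _ => ?_
    rw [pow_add]; ring
  simp_rw [e]
  rw [Finset.sum_comm]
  refine Finset.sum_congr rfl fun i _ => ?_
  rw [← Finset.mul_sum, root_sum hN]

lemma poly_sum_zero {N : ℕ} (hN : 3 ≤ N) (q : Polynomial ℂ) (hq : q.natDegree + 2 < N) :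
    ∑ k ∈ Finset.range N, q.eval (ze N ^ k) = N * q.coeff 0 := by
  have h := poly_sum (by omega : N ≠ 0) q 0 (by omega)
  simp only [pow_zero, one_mul, zero_add] at h
  rw [h, Finset.sum_eq_single 0]
  · simp [mul_comm]
  · intro i hi hi0
    rw [Finset.mem_range] at hi
    rw [if_neg (fun h => hi0 (Nat.eq_zero_of_dvd_of_lt h hi)), mul_zero]
  · intro h; exact absurd (Finset.mem_range.2 (by omega)) h

lemma poly_sum_one {N : ℕ} (hN : 3 ≤ N) (q : Polynomial ℂ) (hq : q.natDegree + 2 < N) :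
    ∑ k ∈ Finset.range N, (ze N ^ k) * q.eval (ze N ^ k) = 0 := by
  have h := poly_sum (by omega : N ≠ 0) q 1 (by omega)
  simp only [pow_one] at h
  rw [h]
  apply Finset.sum_eq_zero
  intro i hi
  rw [Finset.mem_range] at hi
  by_cases h1 : N ∣ 1 + i
  · have h2 : q.natDegree < i := by
      have := Nat.le_of_dvd (by omega) h1
      omega
    rw [Polynomial.coeff_eq_zero_of_natDegree_lt h2, zero_mul]
  · rw [if_neg h1, mul_zero]

lemma poly_sum_neg {N : ℕ} (hN : 3 ≤ N) (q : Polynomial ℂ) (hq : q.natDegree + 2 < N) :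
    ∑ k ∈ Finset.range N, (ze N ^ k) ^ (N - 1) * q.eval (ze N ^ k) = N * q.coeff 1 := by
  have h := poly_sum (by omega : N ≠ 0) q (N - 1) (by omega)
  rw [h, Finset.sum_eq_single 1]
  · rw [if_pos (by rw [Nat.sub_add_cancel (by omega)]), mul_comm]
  · intro i hi hi0
    rw [Finset.mem_range] at hi
    rw [if_neg, mul_zero]
    intro h
    rcases Nat.eq_zero_or_pos i with h0 | h0
    · subst h0
      have := Nat.le_of_dvd (by omega) h
      omega
    · have h3 : N - 1 + i = N + (i - 1) := by omega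
      rw [h3] at h
      have h4 := (Nat.dvd_add_right (dvd_refl N)).1 h
      have h5 := Nat.eq_zero_of_dvd_of_lt h4 (by omega)
      omega
  · intro h; exact absurd (Finset.mem_range.2 (by omega)) h

lemma conj_ze {N : ℕ} (hN : N ≠ 0) (k : ℕ) : conj (ze N ^ k) = (ze N ^ k) ^ (N - 1) := by
  have h1 := norm_ze_pow hN k
  have h2 : (ze N ^ k) * conj (ze N ^ k) = 1 := by
    rw [Complex.mul_conj, Complex.normSq_eq_norm_sq, h1]; norm_num
  have h3 : (ze N ^ k) * (ze N ^ k) ^ (N - 1) = 1 := by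
    rw [← pow_succ', Nat.sub_add_cancel (by omega), pow_N hN]
  have h4 : ze N ^ k ≠ 0 := by
    intro h; rw [h] at h1; norm_num at h1
  exact mul_left_cancel₀ h4 (h2.trans h3.symm)

lemma sq_avg {N : ℕ} (hN : 3 ≤ N) (u v : ℂ) :
    ∑ k ∈ Finset.range N, ‖u + v * ze N ^ k‖ ^ 2 = N * (‖u‖ ^ 2 + ‖v‖ ^ 2) := by
  have hN0 : N ≠ 0 := by omega
  have h1 : ∀ k, (((‖u + v * ze N ^ k‖ ^ 2 : ℝ)) : ℂ)
      = (u * conj u + v * conj v) + (u * conj v) * (ze N ^ k) ^ (N - 1)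
        + (v * conj u) * (ze N ^ k) ^ 1 := by
    intro k
    have h2 : (ze N ^ k) * (ze N ^ k) ^ (N - 1) = 1 := by
      rw [← pow_succ', Nat.sub_add_cancel (by omega), pow_N hN0]
    rw [← Complex.normSq_eq_norm_sq, ← Complex.mul_conj, map_add, map_mul, conj_ze hN0]
    linear_combination (v * conj v) * h2
  have h3 : ((∑ k ∈ Finset.range N, ‖u + v * ze N ^ k‖ ^ 2 : ℝ) : ℂ)
      = ((N * (‖u‖ ^ 2 + ‖v‖ ^ 2) : ℝ) : ℂ) := by
    rw [Complex.ofReal_sum]
    simp_rw [h1]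
    rw [Finset.sum_add_distrib, Finset.sum_add_distrib, ← Finset.mul_sum, ← Finset.mul_sum,
      root_sum hN0, root_sum hN0, if_neg, if_neg]
    · rw [Complex.mul_conj, Complex.mul_conj, Complex.normSq_eq_norm_sq,
        Complex.normSq_eq_norm_sq]
      push_cast
      rw [Finset.sum_const, Finset.card_range, nsmul_eq_mul]
      ring
    · intro h; have := Nat.le_of_dvd (by omega) h; omega
    · intro h; have := Nat.le_of_dvd (by omega) h; omega
  exact_mod_cast h3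

/-- A row of polynomials bounded by `C` on the circle: the compression of the row multiplication
operator to `span{1, z}` is bounded by `C`. -/
theorem two_coeff {ι : Type*} [Fintype ι] (q : ι → Polynomial ℂ) (C : ℝ)
    (hC : ∀ w : ℂ, ‖w‖ = 1 → ∑ j, ‖(q j).eval w‖ ^ 2 ≤ C ^ 2) (x0 x1 : ℂ) :
    ∑ j, (‖conj ((q j).coeff 0) * x0 + conj ((q j).coeff 1) * x1‖ ^ 2
      + ‖conj ((q j).coeff 0) * x1‖ ^ 2) ≤ C ^ 2 * (‖x0‖ ^ 2 + ‖x1‖ ^ 2) := by
  obtain ⟨N, hN, hdeg⟩ : ∃ N : ℕ, 3 ≤ N ∧ ∀ j, (q j).natDegree + 2 < N := by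
    refine ⟨Finset.univ.sup (fun j => (q j).natDegree) + 3, by omega, fun j => ?_⟩
    have : (q j).natDegree ≤ Finset.univ.sup (fun j => (q j).natDegree) :=
      Finset.le_sup (f := fun j => (q j).natDegree) (Finset.mem_univ j)
    omega
  have hN0 : N ≠ 0 := by omega
  set y : ι → ℂ := fun j => conj ((q j).coeff 0) * x0 + conj ((q j).coeff 1) * x1 with hy
  set w : ι → ℂ := fun j => conj ((q j).coeff 0) * x1 with hw
  set Y : ℝ := ∑ j, (‖y j‖ ^ 2 + ‖w j‖ ^ 2) with hY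
  change Y ≤ _
  have hY0 : 0 ≤ Y := Finset.sum_nonneg fun j _ => by positivity
  set F : ℕ → ℂ := fun k => ∑ j, (q j).eval (ze N ^ k) * (y j + w j * ze N ^ k) with hF
  set G : ℕ → ℂ := fun k => conj (x0 + x1 * ze N ^ k) with hG
  -- identity
  have key : ∑ k ∈ Finset.range N, F k * G k = ((N * Y : ℝ) : ℂ) := by
    have e1 : ∀ k, F k * G k = ∑ j, ((y j * conj x0 + w j * conj x1) * (q j).eval (ze N ^ k)
        + (y j * conj x1) * ((ze N ^ k) ^ (N - 1) * (q j).eval (ze N ^ k))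
        + (w j * conj x0) * ((ze N ^ k) * (q j).eval (ze N ^ k))) := by
      intro k
      have h2 : (ze N ^ k) * (ze N ^ k) ^ (N - 1) = 1 := by
        rw [← pow_succ', Nat.sub_add_cancel (by omega), pow_N hN0]
      simp only [hF, hG]
      rw [Finset.sum_mul]
      refine Finset.sum_congr rfl fun j _ => ?_
      rw [map_add, map_mul, conj_ze hN0]
      linear_combination ((q j).eval (ze N ^ k) * w j * conj x1) * h2
    simp_rw [e1]
    rw [Finset.sum_comm]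
    have e2 : ∀ j, ∑ k ∈ Finset.range N, ((y j * conj x0 + w j * conj x1) * (q j).eval (ze N ^ k)
        + (y j * conj x1) * ((ze N ^ k) ^ (N - 1) * (q j).eval (ze N ^ k))
        + (w j * conj x0) * ((ze N ^ k) * (q j).eval (ze N ^ k)))
        = N * ((‖y j‖ ^ 2 + ‖w j‖ ^ 2 : ℝ) : ℂ) := by
      intro j
      rw [Finset.sum_add_distrib, Finset.sum_add_distrib, ← Finset.mul_sum, ← Finset.mul_sum,
        ← Finset.mul_sum, poly_sum_zero hN _ (hdeg j), poly_sum_neg hN _ (hdeg j),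
        poly_sum_one hN _ (hdeg j)]
      have h3 : ((‖y j‖ ^ 2 + ‖w j‖ ^ 2 : ℝ) : ℂ) = y j * conj (y j) + w j * conj (w j) := by
        rw [Complex.mul_conj, Complex.mul_conj, Complex.normSq_eq_norm_sq,
          Complex.normSq_eq_norm_sq]
        push_cast; ring
      rw [h3]
      simp only [hy, hw, map_add, map_mul, Complex.conj_conj]
      ring
    rw [Finset.sum_congr rfl fun j _ => e2 j, ← Finset.mul_sum, ← Complex.ofReal_sum, ← hY,
      Complex.ofReal_mul, Complex.ofReal_natCast]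
  have hNpos : (0:ℝ) < N := by exact_mod_cast Nat.pos_of_ne_zero hN0
  have h1 : (N * Y) ^ 2 ≤ (∑ k ∈ Finset.range N, ‖F k‖ ^ 2) * (∑ k ∈ Finset.range N, ‖G k‖ ^ 2) := by
    have h2 : N * Y ≤ ∑ k ∈ Finset.range N, ‖F k‖ * ‖G k‖ := by
      have h3 : ‖((N * Y : ℝ) : ℂ)‖ = N * Y := by
        rw [Complex.norm_real, Real.norm_of_nonneg (by positivity)]
      rw [← h3, ← key]
      refine (norm_sum_le _ _).trans (Finset.sum_le_sum fun k _ => ?_)
      rw [norm_mul]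
    calc (N * Y) ^ 2 ≤ (∑ k ∈ Finset.range N, ‖F k‖ * ‖G k‖) ^ 2 :=
          pow_le_pow_left₀ (by positivity) h2 2
      _ ≤ _ := Finset.sum_mul_sq_le_sq_mul_sq _ _ _
  have h2 : ∑ k ∈ Finset.range N, ‖G k‖ ^ 2 = N * (‖x0‖ ^ 2 + ‖x1‖ ^ 2) := by
    rw [← sq_avg hN]
    refine Finset.sum_congr rfl fun k _ => ?_
    simp only [hG]
    rw [Complex.norm_conj]
  have h3 : ∑ k ∈ Finset.range N, ‖F k‖ ^ 2 ≤ C ^ 2 * (N * Y) := by
    have h4 : ∀ k, ‖F k‖ ^ 2 ≤ C ^ 2 * ∑ j, ‖y j + w j * ze N ^ k‖ ^ 2 := by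
      intro k
      have h5 : ‖F k‖ ≤ ∑ j, ‖(q j).eval (ze N ^ k)‖ * ‖y j + w j * ze N ^ k‖ := by
        refine (norm_sum_le _ _).trans (Finset.sum_le_sum fun j _ => ?_)
        rw [norm_mul]
      calc ‖F k‖ ^ 2 ≤ (∑ j, ‖(q j).eval (ze N ^ k)‖ * ‖y j + w j * ze N ^ k‖) ^ 2 :=
            pow_le_pow_left₀ (norm_nonneg _) h5 2
        _ ≤ (∑ j, ‖(q j).eval (ze N ^ k)‖ ^ 2) * ∑ j, ‖y j + w j * ze N ^ k‖ ^ 2 :=
            Finset.sum_mul_sq_le_sq_mul_sq _ _ _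
        _ ≤ _ := by
            apply mul_le_mul_of_nonneg_right (hC _ (norm_ze_pow hN0 k))
            exact Finset.sum_nonneg fun j _ => by positivity
    calc ∑ k ∈ Finset.range N, ‖F k‖ ^ 2
        ≤ ∑ k ∈ Finset.range N, C ^ 2 * ∑ j, ‖y j + w j * ze N ^ k‖ ^ 2 :=
          Finset.sum_le_sum fun k _ => h4 k
      _ = C ^ 2 * (N * Y) := by
          rw [← Finset.mul_sum, Finset.sum_comm]
          simp_rw [sq_avg hN]
          rw [← Finset.mul_sum]
  rw [h2] at h1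
  have h4 : (N * Y) ^ 2 ≤ C ^ 2 * (N * Y) * (N * (‖x0‖ ^ 2 + ‖x1‖ ^ 2)) := by
    refine h1.trans (mul_le_mul_of_nonneg_right h3 (by positivity))
  rcases hY0.eq_or_lt with h5 | h5
  · rw [← h5]; positivity
  · have h6 : 0 < N ^ 2 * Y := by positivity
    have h7 : (N ^ 2 * Y) * Y ≤ (N ^ 2 * Y) * (C ^ 2 * (‖x0‖ ^ 2 + ‖x1‖ ^ 2)) := by
      nlinarith [h4]
    exact le_of_mul_le_mul_left h7 h6

end

end Pool.Agent.Q190.RV
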