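import Pool.Agent.Q190.RV.Shift
import Pool.Agent.Q190.RV.Avg

set_option autoImplicit false

open ComplexConjugate

namespace Pool.Agent.Q190.RV

noncomputable section

/-- `T^α` -/
def monOp {d : ℕ} {E : Type} [NormedAddCommGroup E] [InnerProductSpace ℂ E]
    (T : Fin d → (E →L[ℂ] E)) (α : Fin d →₀ ℕ) : E →L[ℂ] E := (List.ofFn fun i => T i ^ α i).prod

/-- `p(T)` -/
def polyOp {d : ℕ} {E : Type} [NormedAddCommGroup E] [InnerProductSpace ℂ E]
    (T : Fin d → (E →L[ℂ] E)) (p : MvPolynomial (Fin d) ℂ) : E →L[ℂ] E :=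
  ∑ α ∈ p.support, p.coeff α • monOp T α

/-- three dimensional space -/
abbrev E3 := EuclideanSpace ℂ (Fin 3)

/-- `e_j` -/
def ee (j : Fin 3) : E3 := EuclideanSpace.single j 1

/-- the tuple -/
def TT (i : Fin 2) : E3 →L[ℂ] E3 := (innerSL ℂ (ee 0)).smulRight (ee i.succ)

lemma TT_apply (i : Fin 2) (x : E3) : TT i x = (x 0) • ee i.succ := by
  unfold TT ee
  simp [EuclideanSpace.inner_single_left]

lemma TT_mul (i j : Fin 2) : TT i * TT j = 0 := by
  ext x k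
  rw [mul_apply_eq_comp, TT_apply, TT_apply]
  simp [ee]

lemma monOp_two (α : Fin 2 →₀ ℕ) : monOp TT α = TT 0 ^ α 0 * TT 1 ^ α 1 := by
  unfold monOp
  simp [List.ofFn_succ]

lemma monOp_big (α : Fin 2 →₀ ℕ) (h0 : α ≠ 0) (h1 : α ≠ Finsupp.single 0 1)
    (h2 : α ≠ Finsupp.single 1 1) : monOp TT α = 0 := by
  rw [monOp_two]
  have hα : ∀ β : Fin 2 →₀ ℕ, α 0 = β 0 → α 1 = β 1 → α = β := by
    intro β ha hb
    ext i
    fin_cases i
    · exact ha
    · exact hb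
  by_cases ha : 2 ≤ α 0
  · obtain ⟨k, hk⟩ := Nat.exists_eq_add_of_le ha
    rw [hk, pow_add, pow_two, TT_mul, zero_mul, zero_mul]
  by_cases hb : 2 ≤ α 1
  · obtain ⟨k, hk⟩ := Nat.exists_eq_add_of_le hb
    rw [hk, pow_add, pow_two, TT_mul, zero_mul, mul_zero]
  have ha' : α 0 = 1 := by
    by_contra h
    have h3 : α 0 = 0 := by omega
    have h4 : α 1 = 0 ∨ α 1 = 1 := by omega
    rcases h4 with h4 | h4
    · exact h0 (hα 0 (by simpa using h3) (by simpa using h4))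
    · exact h2 (hα _ (by simpa using h3) (by simpa using h4))
  have hb' : α 1 = 1 := by
    by_contra h
    have h3 : α 1 = 0 := by omega
    exact h1 (hα _ (by simpa using ha') (by simpa using h3))
  rw [ha', hb', pow_one, pow_one, TT_mul]

lemma polyOp_TT (p : MvPolynomial (Fin 2) ℂ) :
    polyOp TT p = p.coeff 0 • 1 + p.coeff (Finsupp.single 0 1) • TT 0
      + p.coeff (Finsupp.single 1 1) • TT 1 := by
  classical
  unfold polyOp
  have hne1 : (0 : Fin 2 →₀ ℕ) ≠ Finsupp.single 0 1 := by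
    intro h; have := DFunLike.congr_fun h 0; simp at this
  have hne2 : (0 : Fin 2 →₀ ℕ) ≠ Finsupp.single 1 1 := by
    intro h; have := DFunLike.congr_fun h 1; simp at this
  have hne3 : (Finsupp.single 0 1 : Fin 2 →₀ ℕ) ≠ Finsupp.single 1 1 := by
    intro h; have := DFunLike.congr_fun h 0; simp at this
  have h1 : ∑ α ∈ p.support, p.coeff α • monOp TT α
      = ∑ α ∈ p.support ∪ {0, Finsupp.single 0 1, Finsupp.single 1 1},
        p.coeff α • monOp TT α := by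
    apply Finset.sum_subset Finset.subset_union_left
    intro α _ hα
    rw [MvPolynomial.notMem_support_iff.1 hα, zero_smul]
  have h2 : ∑ α ∈ ({0, Finsupp.single 0 1, Finsupp.single 1 1} : Finset (Fin 2 →₀ ℕ)),
        p.coeff α • monOp TT α
      = ∑ α ∈ p.support ∪ {0, Finsupp.single 0 1, Finsupp.single 1 1},
        p.coeff α • monOp TT α := by
    apply Finset.sum_subset Finset.subset_union_right
    intro α _ hα
    simp only [Finset.mem_insert, Finset.mem_singleton, not_or] at hα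
    rw [monOp_big α hα.1 hα.2.1 hα.2.2, smul_zero]
  rw [h1, ← h2, Finset.sum_insert (by simp [hne1, hne2]), Finset.sum_insert (by simp [hne3]),
    Finset.sum_singleton]
  simp [monOp_two, add_assoc]

/-- restriction to a complex line -/
def slice (v : Fin 2 → ℂ) (p : MvPolynomial (Fin 2) ℂ) : Polynomial ℂ :=
  MvPolynomial.aeval (fun i => Polynomial.C (v i) * Polynomial.X) p

lemma slice_eval (v : Fin 2 → ℂ) (p : MvPolynomial (Fin 2) ℂ) (w : ℂ) :
    (slice v p).eval w = MvPolynomial.eval (fun i => v i * w) p := by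
  unfold slice
  have h : ((Polynomial.aeval w).comp
      (MvPolynomial.aeval (fun i => Polynomial.C (v i) * Polynomial.X)) :
        MvPolynomial (Fin 2) ℂ →ₐ[ℂ] ℂ) = MvPolynomial.aeval (fun i => v i * w) := by
    apply MvPolynomial.algHom_ext
    intro i
    simp
  have := congrArg (fun φ : MvPolynomial (Fin 2) ℂ →ₐ[ℂ] ℂ => φ p) h
  simpa [MvPolynomial.coe_aeval_eq_eval, Polynomial.coe_aeval_eq_eval] using this

lemma slice_monomial (v : Fin 2 → ℂ) (α : Fin 2 →₀ ℕ) (c : ℂ) :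
    slice v (MvPolynomial.monomial α c)
      = Polynomial.monomial (α 0 + α 1) (c * (v 0 ^ α 0 * v 1 ^ α 1)) := by
  unfold slice
  rw [MvPolynomial.aeval_monomial, Finsupp.prod_fintype _ _ (by simp), Fin.prod_univ_two,
    ← Polynomial.C_mul_X_pow_eq_monomial]
  simp only [mul_pow, map_mul, map_pow, pow_add, Polynomial.algebraMap_apply,
    Algebra.algebraMap_self, RingHom.id_apply]
  ring

lemma slice_coeff (v : Fin 2 → ℂ) (p : MvPolynomial (Fin 2) ℂ) :
    (slice v p).coeff 0 = p.coeff 0 ∧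
    (slice v p).coeff 1 = v 0 * p.coeff (Finsupp.single 0 1)
      + v 1 * p.coeff (Finsupp.single 1 1) := by
  induction p using MvPolynomial.induction_on' with
  | monomial α c =>
    rw [slice_monomial]
    simp only [Polynomial.coeff_monomial, MvPolynomial.coeff_monomial]
    have hα : ∀ β : Fin 2 →₀ ℕ, α 0 = β 0 → α 1 = β 1 → α = β := by
      intro β ha hb
      ext i
      fin_cases i
      · exact ha
      · exact hb
    constructor
    · by_cases h : α = 0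
      · subst h; simp
      · rw [if_neg, if_neg h]
        intro h1
        exact h (hα 0 (by simp; omega) (by simp; omega))
    · by_cases h1 : α = Finsupp.single 0 1
      · subst h1
        have : (Finsupp.single 0 1 : Fin 2 →₀ ℕ) ≠ Finsupp.single 1 1 := by
          intro h; have := DFunLike.congr_fun h 0; simp at this
        simp [this, mul_comm]
      · by_cases h2 : α = Finsupp.single 1 1
        · subst h2
          have : (Finsupp.single 1 1 : Fin 2 →₀ ℕ) ≠ Finsupp.single 0 1 := by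
            intro h; have := DFunLike.congr_fun h 0; simp at this
          simp [this, mul_comm]
        · rw [if_neg, if_neg h1, if_neg h2]
          · simp
          · intro h3
            have h4 : (α 0 = 1 ∧ α 1 = 0) ∨ (α 0 = 0 ∧ α 1 = 1) := by omega
            rcases h4 with h4 | h4
            · exact h1 (hα _ (by simpa using h4.1) (by simpa using h4.2))
            · exact h2 (hα _ (by simpa using h4.1) (by simpa using h4.2))
  | add p q hp hq =>
    have h : slice v (p + q) = slice v p + slice v q := by unfold slice; rw [map_add]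
    rw [h]
    simp only [Polynomial.coeff_add, MvPolynomial.coeff_add]
    rw [hp.1, hq.1, hp.2, hq.2]
    exact ⟨rfl, by ring⟩

/-- If `∑ |p_j|² ≤ C²` on the ball then the row `p(T)` is bounded by `C`. -/
theorem row_bound {m : ℕ} (p : Fin m → MvPolynomial (Fin 2) ℂ) (C : ℝ)
    (hC : ∀ z ∈ Ball, ∑ j, ‖MvPolynomial.eval z (p j)‖ ^ 2 ≤ C ^ 2) (x : Fin m → E3) :
    ‖∑ j, polyOp TT (p j) (x j)‖ ^ 2 ≤ C ^ 2 * ∑ j, ‖x j‖ ^ 2 := by
  -- on the closed ball
  have hC1 : ∀ z : Fin 2 → ℂ, ‖z 0‖ ^ 2 + ‖z 1‖ ^ 2 ≤ 1 →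
      ∑ j, ‖MvPolynomial.eval z (p j)‖ ^ 2 ≤ C ^ 2 := by
    intro z hz
    let S : Set ℝ := {r : ℝ | ∑ j, ‖MvPolynomial.eval (fun i => (r : ℂ) * z i) (p j)‖ ^ 2 ≤ C ^ 2}
    have hS : IsClosed S := by
      apply isClosed_le _ continuous_const
      refine continuous_finsetSum _ fun j _ => ?_
      refine (Continuous.norm ?_).pow 2
      have h1 : Continuous (fun r : ℝ => (fun i => (r : ℂ) * z i : Fin 2 → ℂ)) := by fun_prop
      exact (MvPolynomial.continuous_eval (p j)).comp h1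
    have h2 : Set.Ico (0:ℝ) 1 ⊆ S := by
      intro r hr
      apply hC
      show ‖(r : ℂ) * z 0‖ ^ 2 + ‖(r : ℂ) * z 1‖ ^ 2 < 1
      rw [norm_mul, norm_mul, Complex.norm_real, Real.norm_of_nonneg hr.1, mul_pow, mul_pow]
      have h3 : r ^ 2 < 1 := by nlinarith [hr.1, hr.2]
      have h4 : 0 ≤ ‖z 0‖ ^ 2 + ‖z 1‖ ^ 2 := by positivity
      nlinarith
    have h3 : (1 : ℝ) ∈ S := by
      have h4 : closure (Set.Ico (0:ℝ) 1) ⊆ S := closure_minimal h2 hS
      rw [closure_Ico (by norm_num)] at h4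
      exact h4 ⟨by norm_num, le_refl _⟩
    simpa [S] using h3
  set y : E3 := ∑ j, polyOp TT (p j) (x j) with hy
  set a : Fin m → ℂ := fun j => (p j).coeff 0 with ha
  set b0 : Fin m → ℂ := fun j => (p j).coeff (Finsupp.single 0 1) with hb0
  set b1 : Fin m → ℂ := fun j => (p j).coeff (Finsupp.single 1 1) with hb1
  have hcomp : ∀ j, polyOp TT (p j) (x j) = a j • x j + (b0 j * x j 0) • ee 1
      + (b1 j * x j 0) • ee 2 := by
    intro j
    rw [polyOp_TT]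
    simp only [add_apply, smul_apply,
      one_apply_eq_self, TT_apply, smul_smul]
    rfl
  have hy0 : y 0 = ∑ j, a j * x j 0 := by
    rw [hy]; simp [hcomp, ee]
  have hy1 : y 1 = ∑ j, (a j * x j 1 + b0 j * x j 0) := by
    rw [hy]; simp [hcomp, ee]
  have hy2 : y 2 = ∑ j, (a j * x j 2 + b1 j * x j 0) := by
    rw [hy]; simp [hcomp, ee]
  -- choose the direction
  obtain ⟨s, v, hs, hv, hv0, hv1⟩ : ∃ (s : ℝ) (v : Fin 2 → ℂ), s ^ 2 = ‖y 1‖ ^ 2 + ‖y 2‖ ^ 2 ∧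
      ‖v 0‖ ^ 2 + ‖v 1‖ ^ 2 ≤ 1 ∧ conj (y 1) = s * v 0 ∧ conj (y 2) = s * v 1 := by
    set s : ℝ := Real.sqrt (‖y 1‖ ^ 2 + ‖y 2‖ ^ 2) with hs
    have hs2 : s ^ 2 = ‖y 1‖ ^ 2 + ‖y 2‖ ^ 2 := Real.sq_sqrt (by positivity)
    by_cases h : s = 0
    · refine ⟨s, ![0, 0], hs2, by simp, ?_, ?_⟩
      · have : ‖y 1‖ ^ 2 = 0 := by
          rw [h] at hs2; nlinarith [sq_nonneg ‖y 1‖, sq_nonneg ‖y 2‖]
        have h1 : y 1 = 0 := by simpa using this
        rw [h1]; simp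
      · have : ‖y 2‖ ^ 2 = 0 := by
          rw [h] at hs2; nlinarith [sq_nonneg ‖y 1‖, sq_nonneg ‖y 2‖]
        have h1 : y 2 = 0 := by simpa using this
        rw [h1]; simp
    · have hsc : (s : ℂ) ≠ 0 := by exact_mod_cast h
      have hs0 : 0 ≤ s := Real.sqrt_nonneg _
      refine ⟨s, ![conj (y 1) / s, conj (y 2) / s], hs2, ?_, ?_, ?_⟩
      · simp only [Matrix.cons_val_zero, Matrix.cons_val_one, norm_div, Complex.norm_conj,
          Complex.norm_real, Real.norm_of_nonneg hs0, div_pow]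
        rw [← add_div, ← hs2, div_self (by positivity)]
      · simp; field_simp
      · simp; field_simp
  have hmain := two_coeff (fun j => slice v (p j)) C (by
    intro w hw
    have : ∀ j, (slice v (p j)).eval w = MvPolynomial.eval (fun i => v i * w) (p j) :=
      fun j => slice_eval v (p j) w
    simp_rw [this]
    apply hC1
    simp only [norm_mul, hw, mul_one]
    exact hv) (y 0) (s : ℂ)
  simp only [fun j => (slice_coeff v (p j)).1, fun j => (slice_coeff v (p j)).2] at hmain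
  -- the adjoint vector
  set u : Fin m → ℂ := fun j => conj (a j) * y 0 + conj (b0 j) * y 1 + conj (b1 j) * y 2 with hu
  have e1 : ∀ j, conj ((p j).coeff 0) * y 0
      + conj (v 0 * (p j).coeff (Finsupp.single 0 1) + v 1 * (p j).coeff (Finsupp.single 1 1))
        * (s : ℂ) = u j := by
    intro j
    have h1 : y 1 = s * conj (v 0) := by
      have := congrArg conj hv0
      simpa using this
    have h2 : y 2 = s * conj (v 1) := by
      have := congrArg conj hv1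
      simpa using this
    simp only [hu, ha, hb0, hb1, map_add, map_mul]
    rw [h1, h2]
    ring
  have e2 : ∀ j, ‖conj ((p j).coeff 0) * (s : ℂ)‖ ^ 2 = ‖a j‖ ^ 2 * ‖y 1‖ ^ 2
      + ‖a j‖ ^ 2 * ‖y 2‖ ^ 2 := by
    intro j
    rw [norm_mul, Complex.norm_conj, Complex.norm_real, mul_pow, Real.norm_eq_abs, sq_abs, hs]
    ring
  simp_rw [e1, e2] at hmain
  have e3 : ‖(s : ℂ)‖ ^ 2 = ‖y 1‖ ^ 2 + ‖y 2‖ ^ 2 := by
    rw [Complex.norm_real, Real.norm_eq_abs, sq_abs, hs]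
  have hn : ∀ t : E3, ‖t‖ ^ 2 = ‖t 0‖ ^ 2 + ‖t 1‖ ^ 2 + ‖t 2‖ ^ 2 := by
    intro t
    rw [EuclideanSpace.norm_sq_eq, Fin.sum_univ_three]
  rw [e3] at hmain
  -- Cauchy Schwarz
  have h5 : ((‖y‖ ^ 2 : ℝ) : ℂ) = ∑ j, (x j 0 * conj (u j) + x j 1 * (a j * conj (y 1))
      + x j 2 * (a j * conj (y 2))) := by
    have h6 : ((‖y‖ ^ 2 : ℝ) : ℂ) = y 0 * conj (y 0) + y 1 * conj (y 1) + y 2 * conj (y 2) := by
      rw [hn y, Complex.mul_conj, Complex.mul_conj, Complex.mul_conj, Complex.normSq_eq_norm_sq,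
        Complex.normSq_eq_norm_sq, Complex.normSq_eq_norm_sq]
      push_cast; ring
    have hu' : ∀ j, conj (u j) = a j * conj (y 0) + b0 j * conj (y 1) + b1 j * conj (y 2) := by
      intro j
      simp only [hu, map_add, map_mul, Complex.conj_conj]
    rw [h6]
    simp_rw [hu']
    obtain ⟨c0, hc0⟩ : ∃ c : ℂ, c = conj (y 0) := ⟨_, rfl⟩
    obtain ⟨c1, hc1⟩ : ∃ c : ℂ, c = conj (y 1) := ⟨_, rfl⟩
    obtain ⟨c2, hc2⟩ : ∃ c : ℂ, c = conj (y 2) := ⟨_, rfl⟩
    have h66 : y 0 * c0 + y 1 * c1 + y 2 * c2 = ∑ j, (x j 0 * (a j * c0 + b0 j * c1 + b1 j * c2)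
        + x j 1 * (a j * c1) + x j 2 * (a j * c2)) := by
      rw [hy0, hy1, hy2, Finset.sum_mul, Finset.sum_mul, Finset.sum_mul,
        ← Finset.sum_add_distrib, ← Finset.sum_add_distrib]
      refine Finset.sum_congr rfl fun j _ => ?_
      ring
    rw [hc0, hc1, hc2] at h66
    exact h66
  set X : ℝ := ∑ j, ‖x j‖ ^ 2 with hX
  have hX0 : 0 ≤ X := Finset.sum_nonneg fun j _ => by positivity
  set W : ℝ := ∑ j, (‖u j‖ ^ 2 + (‖a j‖ ^ 2 * ‖y 1‖ ^ 2 + ‖a j‖ ^ 2 * ‖y 2‖ ^ 2)) with hW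
  have h7 : (‖y‖ ^ 2) ^ 2 ≤ X * W := by
    have h8 : ‖y‖ ^ 2 ≤ ∑ j, ‖x j‖ * Real.sqrt (‖u j‖ ^ 2 + (‖a j‖ ^ 2 * ‖y 1‖ ^ 2
        + ‖a j‖ ^ 2 * ‖y 2‖ ^ 2)) := by
      have h9 : ‖((‖y‖ ^ 2 : ℝ) : ℂ)‖ = ‖y‖ ^ 2 := by
        rw [Complex.norm_real, Real.norm_of_nonneg (by positivity)]
      rw [← h9, h5]
      refine (norm_sum_le _ _).trans (Finset.sum_le_sum fun j _ => ?_)
      have h10 : ‖x j 0 * conj (u j) + x j 1 * (a j * conj (y 1)) + x j 2 * (a j * conj (y 2))‖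
          ≤ ‖x j 0‖ * ‖u j‖ + ‖x j 1‖ * (‖a j‖ * ‖y 1‖) + ‖x j 2‖ * (‖a j‖ * ‖y 2‖) := by
        refine (norm_add₃_le).trans ?_
        simp only [norm_mul, Complex.norm_conj]
        exact le_refl _
      refine h10.trans ?_
      have h11 : 0 ≤ ‖x j‖ := norm_nonneg _
      rw [← Real.sqrt_sq h11, ← Real.sqrt_mul (by positivity)]
      apply Real.le_sqrt_of_sq_le
      rw [hn (x j)]
      nlinarith [sq_nonneg (‖x j 0‖ * (‖a j‖ * ‖y 1‖) - ‖x j 1‖ * ‖u j‖),
        sq_nonneg (‖x j 0‖ * (‖a j‖ * ‖y 2‖) - ‖x j 2‖ * ‖u j‖),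
        sq_nonneg (‖x j 1‖ * (‖a j‖ * ‖y 2‖) - ‖x j 2‖ * (‖a j‖ * ‖y 1‖))]
    calc (‖y‖ ^ 2) ^ 2 ≤ (∑ j, ‖x j‖ * Real.sqrt (‖u j‖ ^ 2 + (‖a j‖ ^ 2 * ‖y 1‖ ^ 2
        + ‖a j‖ ^ 2 * ‖y 2‖ ^ 2))) ^ 2 := pow_le_pow_left₀ (by positivity) h8 2
      _ ≤ (∑ j, ‖x j‖ ^ 2) * ∑ j, (Real.sqrt (‖u j‖ ^ 2 + (‖a j‖ ^ 2 * ‖y 1‖ ^ 2
        + ‖a j‖ ^ 2 * ‖y 2‖ ^ 2))) ^ 2 := Finset.sum_mul_sq_le_sq_mul_sq _ _ _
      _ = X * W := by
        rw [hX, hW]
        congr 1
        refine Finset.sum_congr rfl fun j _ => ?_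
        rw [Real.sq_sqrt (by positivity)]
  have h8 : W ≤ C ^ 2 * ‖y‖ ^ 2 := by
    rw [hn y]
    refine hmain.trans (le_of_eq ?_)
    ring
  rcases (sq_nonneg ‖y‖).eq_or_lt with h9 | h9
  · rw [← h9]; exact mul_nonneg (sq_nonneg C) hX0
  · have h10 : ‖y‖ ^ 2 * ‖y‖ ^ 2 ≤ ‖y‖ ^ 2 * (C ^ 2 * X) := by
      have h11 : X * W ≤ X * (C ^ 2 * ‖y‖ ^ 2) := mul_le_mul_of_nonneg_left h8 hX0
      calc ‖y‖ ^ 2 * ‖y‖ ^ 2 = (‖y‖ ^ 2) ^ 2 := by ring
        _ ≤ X * W := h7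
        _ ≤ X * (C ^ 2 * ‖y‖ ^ 2) := h11
        _ = ‖y‖ ^ 2 * (C ^ 2 * X) := by ring
    exact le_of_mul_le_mul_left h10 h9

end

end Pool.Agent.Q190.RV
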