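import Pool.Agent.Q190.RV.Defs

set_option autoImplicit false

open ComplexConjugate

namespace Pool.Agent.Q190.RV

noncomputable section

/-- A row multiplier bounded by `C` has values bounded by `C`. -/
theorem mult_to_sup {X : Type} {H : Type} [NormedAddCommGroup H] [InnerProductSpace ℂ H]
    [CompleteSpace H] [RKHS ℂ H X ℂ] (z : X) (hz : RKHS.kernel H z z 1 ≠ 0) {m : ℕ}
    (p : Fin m → ℂ) (C : ℝ)
    (hb : ∀ f : Fin m → H, ∃ g : H, g z = ∑ j, p j * f j z ∧ ‖g‖ ^ 2 ≤ C ^ 2 * ∑ j, ‖f j‖ ^ 2) :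
    ∑ j, ‖p j‖ ^ 2 ≤ C ^ 2 := by
  let k : H := RKHS.kerFun H z (1:ℂ)
  have hk1 : ∀ f : H, f z = inner ℂ k f := by
    intro f
    rw [RKHS.kerFun_inner]
    simp
  obtain ⟨g, hg1, hg2⟩ := hb (fun j => conj (p j) • k)
  set S : ℝ := ∑ j, ‖p j‖ ^ 2 with hS
  have hS0 : 0 ≤ S := Finset.sum_nonneg fun j _ => by positivity
  set κ : ℝ := ‖k‖ ^ 2 with hκ
  have hk2 : k z = (κ : ℂ) := by
    rw [hk1, inner_self_eq_norm_sq_to_K, hκ]
    simp
  have hκ0 : 0 < κ := by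
    have h1 : (κ : ℂ) ≠ 0 := by
      rw [← hk2, RKHS.kerFun_apply]
      exact hz
    have h2 : 0 ≤ κ := by positivity
    exact lt_of_le_of_ne h2 (fun h => h1 (by rw [← h]; simp))
  have hg3 : g z = (S : ℂ) * (κ : ℂ) := by
    have h2 : ∀ j, p j * (conj (p j) • k : H) z = ((‖p j‖ ^ 2 : ℝ) : ℂ) * (κ : ℂ) := by
      intro j
      rw [hk1, inner_smul_right, ← hk1, hk2]
      have : ((‖p j‖ ^ 2 : ℝ) : ℂ) = p j * conj (p j) := by
        rw [Complex.mul_conj, Complex.normSq_eq_norm_sq]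
      rw [this]; ring
    rw [hg1, Finset.sum_congr rfl fun j _ => h2 j, ← Finset.sum_mul, hS, Complex.ofReal_sum]
  have h6 : ‖g z‖ ≤ ‖k‖ * ‖g‖ := by
    rw [hk1]; exact norm_inner_le_norm _ _
  rw [hg3, norm_mul, Complex.norm_real, Complex.norm_real, Real.norm_of_nonneg hS0,
    Real.norm_of_nonneg hκ0.le] at h6
  have h7 : ∑ j, ‖conj (p j) • k‖ ^ 2 = S * κ := by
    simp only [norm_smul, Complex.norm_conj, mul_pow]
    rw [← Finset.sum_mul]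
  rw [h7] at hg2
  have h8 : (S * κ) ^ 2 ≤ κ * (C ^ 2 * (S * κ)) := by
    calc (S * κ) ^ 2 ≤ (‖k‖ * ‖g‖) ^ 2 := pow_le_pow_left₀ (by positivity) h6 2
      _ = κ * ‖g‖ ^ 2 := by rw [mul_pow]
      _ ≤ _ := mul_le_mul_of_nonneg_left hg2 hκ0.le
  rcases hS0.eq_or_lt with h9 | h9
  · rw [← h9]; positivity
  · have h10 : (S * κ ^ 2) * S ≤ (S * κ ^ 2) * C ^ 2 := by nlinarith
    exact le_of_mul_le_mul_left h10 (by positivity)

lemma hardy_kernel_ne (z : Ball) : RKHS.kernel Hardy z z 1 ≠ 0 := by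
  rw [hardy_kernel]
  intro h2
  rw [div_eq_zero_iff] at h2
  rcases h2 with h2 | h2
  · exact one_ne_zero h2
  · have h3 : (1:ℂ) - (z.1 0 * conj (z.1 0) + z.1 1 * conj (z.1 1)) = 0 := by
      simpa using h2
    rw [Complex.mul_conj, Complex.mul_conj, Complex.normSq_eq_norm_sq,
      Complex.normSq_eq_norm_sq] at h3
    have h4 : (1:ℝ) - (‖z.1 0‖ ^ 2 + ‖z.1 1‖ ^ 2) = 0 := by exact_mod_cast h3
    have h5 : ‖z.1 0‖ ^ 2 + ‖z.1 1‖ ^ 2 < 1 := z.2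
    linarith

end

end Pool.Agent.Q190.RV
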