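import Mathlib

set_option autoImplicit false

open ComplexConjugate

namespace Pool.Agent.Q190.RV

noncomputable section

/-- the coefficients of the Szegő kernel of the ball of `ℂ²`. -/
def om (p : ℕ × ℕ) : ℝ := ((p.1 + p.2 + 1 : ℕ) : ℝ) * (((p.1 + p.2).choose p.1 : ℕ) : ℝ)

lemma om_pos (p : ℕ × ℕ) : 0 < om p := by
  unfold om
  have : 0 < (p.1 + p.2).choose p.1 := Nat.choose_pos (by omega)
  positivity

lemma fiber_sum {R : Type*} [CommRing R] (x y : R) (n : ℕ) :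
    ∑ p ∈ Finset.HasAntidiagonal.antidiagonal n,
      (((p.1 + p.2 + 1 : ℕ) : R) * (((p.1 + p.2).choose p.1 : ℕ) : R)) * (x ^ p.1 * y ^ p.2)
      = ((n : R) + 1) * (x + y) ^ n := by
  rw [(Commute.all x y).add_pow', Finset.mul_sum]
  refine Finset.sum_congr rfl fun p hp => ?_
  rw [Finset.HasAntidiagonal.mem_antidiagonal] at hp
  rw [hp, nsmul_eq_mul]
  push_cast
  ring

lemma summable_om {a b : ℝ} (ha : 0 ≤ a) (hb : 0 ≤ b) (h : a + b < 1) :
    Summable (fun p : ℕ × ℕ => om p * (a ^ p.1 * b ^ p.2)) := by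
  rw [← Finset.HasAntidiagonal.sigmaAntidiagonalEquivProd.summable_iff]
  rw [summable_sigma_of_nonneg]
  · refine ⟨fun n => (hasSum_fintype _).summable, ?_⟩
    have h1 : ∀ n : ℕ, ∑' y : Finset.HasAntidiagonal.antidiagonal n,
        ((fun p : ℕ × ℕ => om p * (a ^ p.1 * b ^ p.2)) ∘
          Finset.HasAntidiagonal.sigmaAntidiagonalEquivProd) ⟨n, y⟩
        = ((n : ℝ) + 1) * (a + b) ^ n := by
      intro n
      rw [tsum_fintype, ← fiber_sum a b n]
      exact Finset.sum_coe_sort (Finset.HasAntidiagonal.antidiagonal n)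
        (fun p : ℕ × ℕ => (((p.1 + p.2 + 1 : ℕ) : ℝ) * (((p.1 + p.2).choose p.1 : ℕ) : ℝ))
          * (a ^ p.1 * b ^ p.2))
    simp_rw [h1]
    have h2 := (hasSum_choose_mul_geometric_of_norm_lt_one 1 (r := a + b)
      (by rw [Real.norm_of_nonneg (by positivity)]; exact h)).summable
    refine h2.congr fun n => ?_
    simp
  · intro x
    have := om_pos (Finset.HasAntidiagonal.sigmaAntidiagonalEquivProd x)
    simp only [Function.comp_apply]
    positivity

lemma hasSum_om (x y : ℂ) (h : ‖x‖ + ‖y‖ < 1) :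
    HasSum (fun p : ℕ × ℕ => (om p : ℂ) * (x ^ p.1 * y ^ p.2)) (1 / (1 - (x + y)) ^ 2) := by
  have hs : Summable (fun p : ℕ × ℕ => (om p : ℂ) * (x ^ p.1 * y ^ p.2)) := by
    apply Summable.of_norm
    refine (summable_om (norm_nonneg x) (norm_nonneg y) h).congr fun p => ?_
    rw [norm_mul, norm_mul, norm_pow, norm_pow, Complex.norm_real, Real.norm_of_nonneg (om_pos p).le]
  have hs2 : Summable ((fun p : ℕ × ℕ => (om p : ℂ) * (x ^ p.1 * y ^ p.2)) ∘
      Finset.HasAntidiagonal.sigmaAntidiagonalEquivProd) :=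
    Finset.HasAntidiagonal.sigmaAntidiagonalEquivProd.summable_iff.2 hs
  have h1 : ∑' p : ℕ × ℕ, (om p : ℂ) * (x ^ p.1 * y ^ p.2) = 1 / (1 - (x + y)) ^ 2 := by
    rw [← Finset.HasAntidiagonal.sigmaAntidiagonalEquivProd.tsum_eq]
    have h2 := hs2.tsum_sigma' (fun n => (hasSum_fintype _).summable)
    have h3 : ∀ n : ℕ, ∑' y_1 : Finset.HasAntidiagonal.antidiagonal n,
        ((fun p : ℕ × ℕ => (om p : ℂ) * (x ^ p.1 * y ^ p.2)) ∘
          Finset.HasAntidiagonal.sigmaAntidiagonalEquivProd) ⟨n, y_1⟩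
        = ((n : ℂ) + 1) * (x + y) ^ n := by
      intro n
      rw [tsum_fintype, ← fiber_sum x y n]
      rw [← Finset.sum_coe_sort (Finset.HasAntidiagonal.antidiagonal n)
        (fun p : ℕ × ℕ => (((p.1 + p.2 + 1 : ℕ) : ℂ) * (((p.1 + p.2).choose p.1 : ℕ) : ℂ))
          * (x ^ p.1 * y ^ p.2))]
      refine Finset.sum_congr rfl fun p _ => ?_
      simp [om, Finset.HasAntidiagonal.sigmaAntidiagonalEquivProd]
    simp_rw [h3] at h2
    have h4 := hasSum_choose_mul_geometric_of_norm_lt_one (𝕜 := ℂ) 1 (r := x + y)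
      ((norm_add_le _ _).trans_lt h)
    have h5 : ∑' n : ℕ, ((n : ℂ) + 1) * (x + y) ^ n = 1 / (1 - (x + y)) ^ 2 := by
      rw [← h4.tsum_eq]
      refine tsum_congr fun n => ?_
      simp
    rw [← h5, ← h2]
    rfl
  rw [← h1]
  exact hs.hasSum

/-- the open unit ball of `ℂ²` -/
def Ball : Set (Fin 2 → ℂ) := {z | ‖z 0‖ ^ 2 + ‖z 1‖ ^ 2 < 1}

/-- the sequence space -/
abbrev L := lp (fun _ : ℕ × ℕ => ℂ) 2

/-- kernel vector coefficients -/
def kc (z : Fin 2 → ℂ) (p : ℕ × ℕ) : ℂ := (Real.sqrt (om p) : ℂ) * conj (z 0 ^ p.1 * z 1 ^ p.2)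

lemma kc_mem {z : Fin 2 → ℂ} (hz : z ∈ Ball) : Memℓp (kc z) 2 := by
  apply memℓp_gen
  have h := summable_om (a := ‖z 0‖ ^ 2) (b := ‖z 1‖ ^ 2) (by positivity) (by positivity) hz
  refine h.congr fun p => ?_
  have e : ((2 : ENNReal).toReal) = ((2 : ℕ) : ℝ) := by simp
  rw [e, Real.rpow_natCast]
  unfold kc
  rw [norm_mul, Complex.norm_real, Real.norm_of_nonneg (Real.sqrt_nonneg _), Complex.norm_conj,
    norm_mul, norm_pow, norm_pow, mul_pow, Real.sq_sqrt (om_pos p).le]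
  ring

/-- kernel vectors -/
def kv (z : Ball) : L := ⟨kc z, kc_mem z.2⟩

lemma inner_kv (z : Ball) (f : L) :
    inner ℂ (kv z) f = ∑' p : ℕ × ℕ, (Real.sqrt (om p) : ℂ) * (z.1 0 ^ p.1 * z.1 1 ^ p.2) * f p := by
  rw [lp.inner_eq_tsum]
  refine tsum_congr fun p => ?_
  simp only [kv, kc, RCLike.inner_apply, map_mul, Complex.conj_ofReal, map_pow, Complex.conj_conj]
  ring

lemma inner_kv_kv (z w : Ball) :
    inner ℂ (kv z) (kv w) = 1 / (1 - (z.1 0 * conj (w.1 0) + z.1 1 * conj (w.1 1))) ^ 2 := by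
  rw [inner_kv]
  have h : ‖z.1 0 * conj (w.1 0)‖ + ‖z.1 1 * conj (w.1 1)‖ < 1 := by
    rw [norm_mul, norm_mul, Complex.norm_conj, Complex.norm_conj]
    have h1 : ‖z.1 0‖ ^ 2 + ‖z.1 1‖ ^ 2 < 1 := z.2
    have h2 : ‖w.1 0‖ ^ 2 + ‖w.1 1‖ ^ 2 < 1 := w.2
    nlinarith [sq_nonneg (‖z.1 0‖ - ‖w.1 0‖), sq_nonneg (‖z.1 1‖ - ‖w.1 1‖)]
  rw [← (hasSum_om _ _ h).tsum_eq]
  refine tsum_congr fun p => ?_
  have h1 : (om p : ℂ) = (Real.sqrt (om p) : ℂ) * (Real.sqrt (om p) : ℂ) := by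
    rw [← Complex.ofReal_mul, Real.mul_self_sqrt (om_pos p).le]
  rw [h1]
  simp only [kv, kc, map_mul, map_pow]
  ring

/-- The Hardy space `H²` of the ball of `ℂ²`. -/
def Hardy : Submodule ℂ L := (Submodule.span ℂ (Set.range kv)).topologicalClosure

lemma kv_mem (z : Ball) : kv z ∈ Hardy :=
  (Submodule.span ℂ (Set.range kv)).le_topologicalClosure (Submodule.subset_span ⟨z, rfl⟩)

instance : CompleteSpace Hardy :=
  (Submodule.span ℂ (Set.range kv)).isClosed_topologicalClosure.completeSpace_coe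

/-- point evaluations -/
def ev : Hardy →L[ℂ] (Ball → ℂ) :=
  ContinuousLinearMap.pi fun z => (innerSL ℂ (kv z)).comp Hardy.subtypeL

lemma ev_apply (f : Hardy) (z : Ball) : ev f z = inner ℂ (kv z) (f : L) := rfl

lemma ev_injective : Function.Injective ev := by
  rw [injective_iff_map_eq_zero]
  intro f hf
  have h1 : ∀ z : Ball, inner ℂ (kv z) (f : L) = 0 := fun z => by
    rw [← ev_apply, hf]; rfl
  have h2 : Hardy ≤ (Submodule.span ℂ {(f : L)})ᗮ := by
    apply Submodule.topologicalClosure_minimal _ _ (Submodule.isClosed_orthogonal _)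
    apply Submodule.span_le.2
    rintro _ ⟨z, rfl⟩
    rw [SetLike.mem_coe, Submodule.mem_orthogonal_singleton_iff_inner_left]
    exact h1 z
  have h3 := h2 f.2
  rw [Submodule.mem_orthogonal_singleton_iff_inner_left, inner_self_eq_zero] at h3
  exact Subtype.ext h3

instance : RKHS ℂ Hardy Ball ℂ where
  coeCLM := ev
  coeCLM_injective := ev_injective

lemma hardy_apply (f : Hardy) (z : Ball) : f z = inner ℂ (kv z) (f : L) := rfl

lemma hardy_kernel (z w : Ball) :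
    RKHS.kernel Hardy z w 1 = 1 / (1 - (z.1 0 * conj (w.1 0) + z.1 1 * conj (w.1 1))) ^ 2 := by
  rw [← RKHS.kerFun_apply]
  have h : RKHS.kerFun Hardy w (1:ℂ) = (⟨kv w, kv_mem w⟩ : Hardy) := by
    apply ext_inner_right ℂ
    intro f
    rw [RKHS.kerFun_inner, hardy_apply, Submodule.coe_inner]
    simp
  rw [h, hardy_apply, inner_kv_kv]

end

end Pool.Agent.Q190.RV
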