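import Mathlib

/-!
# Primes of a Galois extension over the primes of the base field, and Euler products
-/

set_option autoImplicit false

namespace Pool.Agent.Q190.RV

open NumberField IsDedekindDomain

variable (K E : Type) [Field K] [NumberField K] [Field E] [NumberField E] [Algebra K E]

/-- the residue degree of the primes of `E` over `v` (`E/K` Galois) -/
noncomputable def resDeg (v : HeightOneSpectrum (𝓞 K)) : ℕ := v.asIdeal.inertiaDegIn (𝓞 E)

/-- the number of the primes of `E` over `v` -/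
noncomputable def numOver (v : HeightOneSpectrum (𝓞 K)) : ℕ := (v.asIdeal.primesOver (𝓞 E)).ncard

/-- the prime of `K` below `w` -/
noncomputable def below (w : HeightOneSpectrum (𝓞 E)) : HeightOneSpectrum (𝓞 K) := HeightOneSpectrum.under (𝓞 K) w

theorem numOver_pos (v : HeightOneSpectrum (𝓞 K)) : 0 < numOver K E v := by
  have := v.isMaximal
  exact IsDedekindDomain.one_le_primesOver_ncard v.asIdeal (𝓞 E)

section gal

variable [IsGalois K E]

theorem resDeg_pos (v : HeightOneSpectrum (𝓞 K)) : 0 < resDeg K E v := by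
  have := v.isPrime
  exact Nat.pos_of_ne_zero (Ideal.inertiaDegIn_ne_zero (G := (E ≃ₐ[K] E)))

theorem fg_le (v : HeightOneSpectrum (𝓞 K)) : resDeg K E v * numOver K E v ≤ Nat.card (E ≃ₐ[K] E) := by
  have := v.isPrime
  have h := Ideal.ncard_primesOver_mul_ramificationIdxIn_mul_inertiaDegIn v.asIdeal (𝓞 E) (E ≃ₐ[K] E)
  rw [← h]
  have h2 : 0 < v.asIdeal.ramificationIdxIn (𝓞 E) :=
    Nat.pos_of_ne_zero (Ideal.ramificationIdxIn_ne_zero (G := (E ≃ₐ[K] E)))
  unfold resDeg numOver
  calc v.asIdeal.inertiaDegIn (𝓞 E) * (v.asIdeal.primesOver (𝓞 E)).ncard =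
        (v.asIdeal.primesOver (𝓞 E)).ncard * (1 * v.asIdeal.inertiaDegIn (𝓞 E)) := by ring
    _ ≤ _ := Nat.mul_le_mul_left _ (Nat.mul_le_mul_right _ h2)

theorem norm_below (w : HeightOneSpectrum (𝓞 E)) :
    Ideal.absNorm w.asIdeal = Ideal.absNorm (below K E w).asIdeal ^ resDeg K E (below K E w) := by
  have hv := (below K E w).isPrime
  have hm := (below K E w).isMaximal
  have hw := w.isPrime
  have hL : w.asIdeal.LiesOver (below K E w).asIdeal := ⟨rfl⟩
  rw [Ideal.absNorm_eq_pow_inertiaDeg'_of_liesOver w.asIdeal (below K E w).asIdeal hv (below K E w).ne_bot]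
  unfold resDeg
  rw [Ideal.inertiaDegIn_eq_inertiaDeg (below K E w).asIdeal w.asIdeal (E ≃ₐ[K] E)]
  congr 1
  exact Ideal.inertiaDeg'_eq_inertiaDeg _ _

end gal

/-- the fibre -/
noncomputable def fibre (v : HeightOneSpectrum (𝓞 K)) :
    {w : HeightOneSpectrum (𝓞 E) // below K E w = v} ≃ v.asIdeal.primesOver (𝓞 E) where
  toFun w := ⟨w.1.asIdeal, w.1.isPrime, ⟨by
    have h := congrArg HeightOneSpectrum.asIdeal w.2
    exact h.symm⟩⟩
  invFun P := ⟨⟨P.1, P.2.1, Ideal.ne_bot_of_mem_primesOver v.ne_bot P.2⟩, by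
    apply HeightOneSpectrum.ext
    exact P.2.2.over.symm⟩
  left_inv w := by
    apply Subtype.ext
    apply HeightOneSpectrum.ext
    rfl
  right_inv P := rfl

theorem hasProd_group [IsGalois K E] {f : ℕ → ℂ} {a : ℂ}
    (h : HasProd (fun w : HeightOneSpectrum (𝓞 E) => f (Ideal.absNorm w.asIdeal)) a) :
    HasProd (fun v : HeightOneSpectrum (𝓞 K) =>
      f (Ideal.absNorm v.asIdeal ^ resDeg K E v) ^ numOver K E v) a := by
  classical
  have h1 := (Equiv.sigmaFiberEquiv (below K E)).hasProd_iff.2 h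
  refine h1.sigma fun v => ?_
  have := v.isMaximal
  have hfin : Fintype {w : HeightOneSpectrum (𝓞 E) // below K E w = v} :=
    Fintype.ofEquiv _ (fibre K E v).symm
  have h2 := hasProd_fintype (fun w : {w : HeightOneSpectrum (𝓞 E) // below K E w = v} =>
    ((fun w : HeightOneSpectrum (𝓞 E) => f (Ideal.absNorm w.asIdeal)) ∘ (Equiv.sigmaFiberEquiv (below K E))) ⟨v, w⟩)
  have h3 : ∏ w : {w : HeightOneSpectrum (𝓞 E) // below K E w = v},
      ((fun w : HeightOneSpectrum (𝓞 E) => f (Ideal.absNorm w.asIdeal)) ∘ (Equiv.sigmaFiberEquiv (below K E))) ⟨v, w⟩ =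
      f (Ideal.absNorm v.asIdeal ^ resDeg K E v) ^ numOver K E v := by
    have h4 : ∀ w : {w : HeightOneSpectrum (𝓞 E) // below K E w = v},
        ((fun w : HeightOneSpectrum (𝓞 E) => f (Ideal.absNorm w.asIdeal)) ∘ (Equiv.sigmaFiberEquiv (below K E))) ⟨v, w⟩ =
        f (Ideal.absNorm v.asIdeal ^ resDeg K E v) := by
      intro w
      show f (Ideal.absNorm w.1.asIdeal) = _
      rw [norm_below K E w.1, w.2]
    rw [Finset.prod_congr rfl fun w _ => h4 w, Finset.prod_const, Finset.card_univ]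
    congr 1
    unfold numOver
    rw [← Nat.card_coe_set_eq, ← Nat.card_congr (fibre K E v), Nat.card_eq_fintype_card]
  rw [← h3]
  exact h2

end Pool.Agent.Q190.RV
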