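import Mathlib

/-!
# Roots of unity: the polynomial `(1 - z^f)^g / (1 - z)`
-/

set_option autoImplicit false

namespace Pool.Agent.Q190.RV

open Complex Finset

/-- `exp(2 π i / f)` -/
noncomputable def zt (f : ℕ) : ℂ := exp (2 * Real.pi * I / f)

theorem zt_prim {f : ℕ} (hf : 0 < f) : IsPrimitiveRoot (zt f) f := Complex.isPrimitiveRoot_exp f hf.ne'

theorem image_pow {f : ℕ} (hf : 0 < f) :
    (range f).image (fun t => zt f ^ t) = Polynomial.nthRootsFinset f (1 : ℂ) := by
  classical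
  have h := zt_prim hf
  refine Finset.eq_of_subset_of_card_le (fun x hx => ?_) ?_
  · obtain ⟨t, -, rfl⟩ := Finset.mem_image.1 hx
    rw [Polynomial.mem_nthRootsFinset hf]
    rw [← pow_mul, mul_comm, pow_mul, h.pow_eq_one, one_pow]
  · rw [h.card_nthRootsFinset, Finset.card_image_of_injOn, Finset.card_range]
    intro a ha b hb hab
    exact h.pow_inj (Finset.mem_range.1 (Finset.mem_coe.1 ha)) (Finset.mem_range.1 (Finset.mem_coe.1 hb)) hab

theorem prod_one {f : ℕ} (hf : 0 < f) (z : ℂ) : ∏ t ∈ range f, (1 - zt f ^ t * z) = 1 - z ^ f := by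
  classical
  have h := (zt_prim hf).pow_sub_pow_eq_prod_sub_mul 1 z hf
  rw [one_pow] at h
  rw [h, ← image_pow hf, Finset.prod_image]
  intro a ha b hb hab
  exact (zt_prim hf).pow_inj (Finset.mem_range.1 (Finset.mem_coe.1 ha))
    (Finset.mem_range.1 (Finset.mem_coe.1 hb)) hab

theorem prod_many {f : ℕ} (hf : 0 < f) (g : ℕ) (z : ℂ) :
    ∏ t ∈ range (f * g), (1 - zt f ^ t * z) = (1 - z ^ f) ^ g := by
  induction g with
  | zero => simp
  | succ g ih =>
    rw [Nat.mul_succ, Finset.prod_range_add, ih, pow_succ]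
    congr 1
    rw [← prod_one hf z]
    refine Finset.prod_congr rfl fun t _ => ?_
    rw [pow_add, pow_mul, (zt_prim hf).pow_eq_one, one_pow, one_mul]

/-- the `f g - 1` roots of `(1 - z^f)^g / (1 - z)`, padded by zeros -/
noncomputable def rts (f g n : ℕ) (j : Fin n) : ℂ := if (j : ℕ) + 1 < f * g then zt f ^ ((j : ℕ) + 1) else 0

theorem norm_rts {f : ℕ} (hf : 0 < f) (g n : ℕ) (j : Fin n) : ‖rts f g n j‖ ≤ 1 := by
  unfold rts
  split_ifs
  · rw [norm_pow, (zt_prim hf).norm'_eq_one hf.ne', one_pow]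
  · simp

theorem prod_rts {f g n : ℕ} (hf : 0 < f) (hg : 0 < g) (hn : f * g ≤ n + 1) (z : ℂ) :
    (1 - z) * ∏ j, (1 - rts f g n j * z) = (1 - z ^ f) ^ g := by
  have h1 : ∏ j, (1 - rts f g n j * z) = ∏ j ∈ range n, (if j + 1 < f * g then 1 - zt f ^ (j + 1) * z else 1) := by
    rw [← Fin.prod_univ_eq_prod_range (fun j => if j + 1 < f * g then 1 - zt f ^ (j + 1) * z else 1) n]
    refine Finset.prod_congr rfl fun j _ => ?_
    unfold rts
    split_ifs
    · rfl
    · rw [zero_mul, sub_zero]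
  have h2 : ∏ j ∈ range n, (if j + 1 < f * g then 1 - zt f ^ (j + 1) * z else 1) =
      ∏ j ∈ range (f * g - 1), (1 - zt f ^ (j + 1) * z) := by
    have h0 : 0 < f * g := Nat.mul_pos hf hg
    rw [← Finset.prod_filter]
    refine Finset.prod_congr ?_ fun _ _ => rfl
    ext j
    simp only [Finset.mem_filter, Finset.mem_range]
    omega
  have h0 : 0 < f * g := Nat.mul_pos hf hg
  rw [h1, h2, ← prod_many hf g z]
  obtain ⟨m, hm⟩ : ∃ m, f * g = m + 1 := ⟨f * g - 1, by omega⟩
  rw [hm, Nat.add_sub_cancel, Finset.prod_range_succ']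
  rw [pow_zero, one_mul, mul_comm]

end Pool.Agent.Q190.RV
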