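import Mathlib
import Pool.Agent.Q18.P.Zeta
import Pool.Agent.Q190.RV.Pure
import Pool.Agent.Q190.RV.Roots
import Pool.Agent.Q190.RV.Over

/-!
# The quotient of the zeta functions of a Galois extension as a system of roots over the base field
-/

set_option autoImplicit false
set_option linter.unusedSectionVars false

namespace Pool.Agent.Q190.RV

open Filter Topology Set Complex NumberField IsDedekindDomain
open Pool.Agent.Q18.P (norm)
open Pool.Agent.Q18.LF (IsZeta ArtinFam)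

section one

variable {E : Type} [Field E] [NumberField E] {Z : ℂ → ℂ}

theorem two_le (w : HeightOneSpectrum (𝓞 E)) : 2 ≤ Ideal.absNorm w.asIdeal :=
  Pool.Agent.H921R2.TatePole.two_le_nm w

theorem zeta_full (h : IsZeta E Z) {s : ℂ} (hs : 1 < s.re) :
    HasProd (fun w : HeightOneSpectrum (𝓞 E) => (1 - ((Ideal.absNorm w.asIdeal : ℕ) : ℂ) ^ (-s))⁻¹) (Z s) := by
  have h1 := Pool.Agent.Q18.P.zeta_hasProd h hs
  have h2 : HasProd (fun w : HeightOneSpectrum (𝓞 E) =>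
      (∏ j, (1 - Pool.Agent.Q18.P.ones E w j * (norm w : ℂ) ^ (-s)))⁻¹) (Z s) :=
    (Equiv.hasProd_iff (Equiv.subtypeUnivEquiv (p := fun v : HeightOneSpectrum (𝓞 E) =>
      v ∉ (∅ : Finset (HeightOneSpectrum (𝓞 E)))) (by simp))).1 h1
  refine h2.congr_fun fun w => ?_
  rw [Fin.prod_univ_one]
  show _ = (1 - (1 : ℂ) * (norm w : ℂ) ^ (-s))⁻¹
  rw [one_mul]
  rfl

theorem zeta_ne (h : IsZeta E Z) {s : ℂ} (hs : 1 < s.re) : Z s ≠ 0 := by
  rw [h.euler s hs]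
  exact Complex.exp_ne_zero _

theorem zeta_inv (h : IsZeta E Z) {s : ℂ} (hs : 1 < s.re) :
    HasProd (fun w : HeightOneSpectrum (𝓞 E) => 1 - ((Ideal.absNorm w.asIdeal : ℕ) : ℂ) ^ (-s)) (Z s)⁻¹ := by
  have h1 := zeta_full h hs
  unfold HasProd at h1 ⊢
  have h2 := h1.inv₀ (zeta_ne h hs)
  refine h2.congr fun t => ?_
  rw [← Finset.prod_inv_distrib]
  exact Finset.prod_congr rfl fun w _ => inv_inv _

end one

variable (K E : Type) [Field K] [NumberField K] [Field E] [NumberField E] [Algebra K E] [IsGalois K E]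

/-- the roots of `(1 - z^f)^g / (1 - z)`, padded by zeros -/
noncomputable def qroots (v : HeightOneSpectrum (𝓞 K)) : Fin (Nat.card (E ≃ₐ[K] E) - 1) → ℂ :=
  rts (resDeg K E v) (numOver K E v) (Nat.card (E ≃ₐ[K] E) - 1)

theorem qroots_bdd : Pool.Agent.Q18.P.Bdd 0 ∅ (qroots K E) := by
  intro v _ j
  have h : ‖qroots K E v j‖ ≤ 1 := norm_rts (resDeg_pos K E v) (numOver K E v) _ j
  simpa using h

theorem qroots_prod (v : HeightOneSpectrum (𝓞 K)) (z : ℂ) :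
    (1 - z) * ∏ j, (1 - qroots K E v j * z) = (1 - z ^ resDeg K E v) ^ numOver K E v := by
  refine prod_rts (resDeg_pos K E v) (numOver_pos K E v) ?_ z
  have h1 := fg_le K E v
  have h2 : 0 < Nat.card (E ≃ₐ[K] E) := Nat.card_pos
  omega

variable {ZE ZK F : ℂ → ℂ}

theorem quot_factor (v : HeightOneSpectrum (𝓞 K)) {s : ℂ} (hs : 1 < s.re) :
    ((1 - ((Ideal.absNorm v.asIdeal ^ resDeg K E v : ℕ) : ℂ) ^ (-s))⁻¹) ^ numOver K E v *
      (1 - ((Ideal.absNorm v.asIdeal : ℕ) : ℂ) ^ (-s)) =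
      (∏ j, (1 - qroots K E v j * ((Ideal.absNorm v.asIdeal : ℕ) : ℂ) ^ (-s)))⁻¹ := by
  have hz : ((Ideal.absNorm v.asIdeal ^ resDeg K E v : ℕ) : ℂ) ^ (-s) =
      ((Ideal.absNorm v.asIdeal : ℂ) ^ (-s)) ^ resDeg K E v := by
    rw [Nat.cast_pow, ← Complex.cpow_nat_mul, Complex.natCast_cpow_natCast_mul]
  have hlt : ‖(Ideal.absNorm v.asIdeal : ℂ) ^ (-s)‖ < 1 := by
    have h5 := two_le v
    rw [Complex.norm_natCast_cpow_of_pos (by omega), Complex.neg_re]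
    have h6 : (2 : ℝ) ≤ Ideal.absNorm v.asIdeal := by exact_mod_cast h5
    exact Real.rpow_lt_one_of_one_lt_of_neg (by linarith) (by linarith)
  rw [hz]
  generalize (Ideal.absNorm v.asIdeal : ℂ) ^ (-s) = z at hlt
  have hne : 1 - z ≠ 0 := by
    intro h0
    rw [← sub_eq_zero.1 h0, norm_one] at hlt
    exact lt_irrefl _ hlt
  rw [inv_pow, ← qroots_prod K E v z, mul_inv, mul_comm, ← mul_assoc, mul_inv_cancel₀ hne, one_mul]

theorem quot_hasProd' (hE : IsZeta E ZE) (hK : IsZeta K ZK) {s : ℂ} (hs : 1 < s.re) (hF : F s * ZK s = ZE s) :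
    HasProd (fun v : HeightOneSpectrum (𝓞 K) =>
      (∏ j, (1 - qroots K E v j * ((Ideal.absNorm v.asIdeal : ℕ) : ℂ) ^ (-s)))⁻¹) (F s) := by
  have h1 := hasProd_group K E (f := fun N => (1 - (N : ℂ) ^ (-s))⁻¹) (zeta_full hE hs)
  have h2 := h1.mul (zeta_inv hK hs)
  have h3 : ZE s * (ZK s)⁻¹ = F s := by
    rw [← hF, mul_assoc, mul_inv_cancel₀ (zeta_ne hK hs), mul_one]
  rw [h3] at h2
  exact h2.congr_fun fun v => (quot_factor K E v hs).symm

theorem hasProd_empty {X : Type} (f : X → ℂ) {a : ℂ} (h : HasProd f a) :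
    HasProd (fun v : {v : X // v ∉ (∅ : Finset X)} => f v.1) a :=
  (Equiv.hasProd_iff (Equiv.subtypeUnivEquiv (p := fun v : X => v ∉ (∅ : Finset X)) (by simp))).2 h

theorem quot_hasProd (hE : IsZeta E ZE) (hK : IsZeta K ZK) {s : ℂ} (hs : 1 < s.re) (hF : F s * ZK s = ZE s) :
    HasProd (fun v : {v : HeightOneSpectrum (𝓞 K) // v ∉ (∅ : Finset (HeightOneSpectrum (𝓞 K)))} =>
      (∏ j, (1 - qroots K E v.1 j * (norm v.1 : ℂ) ^ (-s)))⁻¹) (F s) :=
  hasProd_empty (fun v : HeightOneSpectrum (𝓞 K) => (∏ j, (1 - qroots K E v j * (norm v : ℂ) ^ (-s)))⁻¹)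
    (quot_hasProd' K E hE hK hs hF)

theorem quot_holo (hE : IsZeta E ZE) (hK : IsZeta K ZK)
    (hG : ∃ (η C : ℝ) (k : ℕ), 0 < η ∧ ∀ s : ℂ, 1 / 2 - η < s.re → DifferentiableAt ℂ F s ∧ ‖F s‖ ≤ C * (1 + ‖s‖) ^ k)
    (hF : ∀ s : ℂ, 1 < s.re → F s * ZK s = ZE s) : Holo (1 / 2) ∅ (qroots K E) F :=
  ⟨hG, fun s hs => quot_hasProd K E hE hK (by linarith) (hF s (by linarith))⟩

/-- `F` is `ζ_E / ζ_K` near every point. -/
theorem quot_eq (hE : IsZeta E ZE) (hK : IsZeta K ZK) {η : ℝ} (hη : 0 < η)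
    (hG : ∀ s : ℂ, 1 / 2 - η < s.re → DifferentiableAt ℂ F s) (hF : ∀ s : ℂ, 1 < s.re → F s * ZK s = ZE s)
    {s : ℂ} (hs : 1 / 2 - η < s.re) : F =ᶠ[𝓝[≠] s] ZE * ZK⁻¹ := by
  have hU : IsOpen {s : ℂ | 1 / 2 - η < s.re} := isOpen_lt continuous_const Complex.continuous_re
  have hUc : Convex ℝ {s : ℂ | 1 / 2 - η < s.re} := convex_halfSpace_re_gt _
  have ha : AnalyticOnNhd ℂ F {s : ℂ | 1 / 2 - η < s.re} :=
    DifferentiableOn.analyticOnNhd (fun s hs => (hG s hs).differentiableWithinAt) hU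
  have h2 : (2 : ℂ) ∈ {s : ℂ | 1 / 2 - η < s.re} := by
    show 1 / 2 - η < (2 : ℂ).re
    simp only [Complex.re_ofNat]
    linarith
  have hm : MeromorphicOn (F - ZE * ZK⁻¹) {s : ℂ | 1 / 2 - η < s.re} := fun s hs =>
    (ha s hs).meromorphicAt.sub ((hE.mero s (Set.mem_univ _)).mul (hK.mero s (Set.mem_univ _)).inv)
  have htop : meromorphicOrderAt (F - ZE * ZK⁻¹) s = ⊤ := by
    by_contra hne
    have h3 := hm.meromorphicOrderAt_ne_top_of_isPreconnected hUc.isPreconnected hs h2 hne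
    refine h3 (meromorphicOrderAt_eq_top_iff.2 ?_)
    have h4 : ∀ᶠ z : ℂ in 𝓝 2, 1 < z.re :=
      (isOpen_lt continuous_const Complex.continuous_re).mem_nhds (by
        show (1 : ℝ) < (2 : ℂ).re
        simp only [Complex.re_ofNat]
        norm_num)
    filter_upwards [h4.filter_mono nhdsWithin_le_nhds] with z hz
    show F z - ZE z * (ZK z)⁻¹ = 0
    rw [← hF z hz, mul_assoc, mul_inv_cancel₀ (zeta_ne hK hz), mul_one, sub_self]
  rw [meromorphicOrderAt_eq_top_iff] at htop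
  filter_upwards [htop] with z hz
  exact sub_eq_zero.1 hz

/-- `∏_{q_v ≤ y} (1 - q_v^{-f_v/2})^{g_v} / (1 - q_v^{-1/2})` -/
theorem split_product (y : ℝ) : Pool.Agent.Q18.P.product (1 / 2) ∅ (qroots K E) y =
    ∏ᶠ v ∈ {v : HeightOneSpectrum (𝓞 K) | (Ideal.absNorm v.asIdeal : ℝ) ≤ y},
      (1 - (Ideal.absNorm v.asIdeal : ℝ) ^ (-(resDeg K E v : ℝ) / 2)) ^ numOver K E v /
        (1 - (Ideal.absNorm v.asIdeal : ℝ) ^ (-(1 / 2) : ℝ)) := by
  unfold Pool.Agent.Q18.P.product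
  have hs : Pool.Agent.Q18.P.upTo (K := K) ∅ y = {v | (Ideal.absNorm v.asIdeal : ℝ) ≤ y} := by
    ext v
    simp only [Pool.Agent.Q18.P.upTo, Finset.notMem_empty, not_false_iff, true_and, Set.mem_ofPred_eq]
    rfl
  rw [hs]
  refine finprod_mem_congr rfl fun v _ => ?_
  have h2 : (2 : ℝ) ≤ (Ideal.absNorm v.asIdeal : ℝ) := by exact_mod_cast two_le v
  have h3 : (Ideal.absNorm v.asIdeal : ℝ) ^ (-(1 / 2) : ℝ) < 1 :=
    Real.rpow_lt_one_of_one_lt_of_neg (by linarith) (by norm_num)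
  have h30 : 0 ≤ (Ideal.absNorm v.asIdeal : ℝ) ^ (-(1 / 2) : ℝ) := by positivity
  have h4 : ((Pool.Agent.Q18.P.norm v : ℕ) : ℂ) ^ (-((1 / 2 : ℝ) : ℂ)) =
      (((Ideal.absNorm v.asIdeal : ℝ) ^ (-(1 / 2) : ℝ) : ℝ) : ℂ) := by
    rw [Complex.ofReal_cpow (by linarith)]
    push_cast
    rfl
  have h5 : (Ideal.absNorm v.asIdeal : ℝ) ^ (-(resDeg K E v : ℝ) / 2) =
      ((Ideal.absNorm v.asIdeal : ℝ) ^ (-(1 / 2) : ℝ)) ^ resDeg K E v := by
    rw [← Real.rpow_natCast, ← Real.rpow_mul (by linarith)]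
    congr 1
    ring
  rw [h4, h5]
  generalize (Ideal.absNorm v.asIdeal : ℝ) ^ (-(1 / 2) : ℝ) = x at h3 h30
  have h6 := qroots_prod K E v (x : ℂ)
  have hne : (1 : ℂ) - x ≠ 0 := by
    rw [← Complex.ofReal_one, ← Complex.ofReal_sub]
    exact_mod_cast (by linarith : (0 : ℝ) < 1 - x).ne'
  have h7 : ∏ j, (1 - qroots K E v j * (x : ℂ)) =
      (((1 - x ^ resDeg K E v) ^ numOver K E v / (1 - x) : ℝ) : ℂ) := by
    push_cast
    rw [eq_div_iff hne, mul_comm]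
    exact h6
  rw [h7, Complex.norm_real, Real.norm_of_nonneg]
  have h8 : x ^ resDeg K E v ≤ 1 := pow_le_one₀ h30 h3.le
  exact div_nonneg (pow_nonneg (by linarith) _) (by linarith)

end Pool.Agent.Q190.RV
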