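import Pool.Agent.Q190.RV.Hardy

set_option autoImplicit false

open ComplexConjugate

namespace Pool.Agent.Q190.RV

noncomputable section

/-- weighted shift along an injective map -/
def shc (e : ℕ × ℕ → ℕ × ℕ) (r : ℕ × ℕ → ℝ) (c : ℕ × ℕ → ℂ) : ℕ × ℕ → ℂ :=
  Function.extend e (fun q => (r q : ℂ) * c q) 0

lemma shc_norm {e : ℕ × ℕ → ℕ × ℕ} (he : Function.Injective e) (r : ℕ × ℕ → ℝ) (c : ℕ × ℕ → ℂ) :
    (fun p => ‖shc e r c p‖ ^ 2) = Function.extend e (fun q => ‖(r q : ℂ) * c q‖ ^ 2) 0 := by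
  funext p
  by_cases h : ∃ q, e q = p
  · obtain ⟨q, rfl⟩ := h
    rw [he.extend_apply]
    unfold shc
    rw [he.extend_apply]
  · rw [Function.extend_apply' _ _ _ h]
    unfold shc
    rw [Function.extend_apply' _ _ _ h]
    simp

lemma sq_summable (c : L) : Summable (fun p => ‖c p‖ ^ 2) := by
  have h := (lp.memℓp c).summable (by norm_num)
  refine h.congr fun p => ?_
  have e : ((2 : ENNReal).toReal) = ((2 : ℕ) : ℝ) := by simp
  rw [e, Real.rpow_natCast]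

lemma norm_sq_eq (c : L) : ‖c‖ ^ 2 = ∑' p, ‖c p‖ ^ 2 := by
  have h := lp.norm_rpow_eq_tsum (p := 2) (by norm_num) c
  have e : ((2 : ENNReal).toReal) = ((2 : ℕ) : ℝ) := by simp
  simp_rw [e, Real.rpow_natCast] at h
  exact h

lemma mem_of_sq {c : ℕ × ℕ → ℂ} (h : Summable (fun p => ‖c p‖ ^ 2)) : Memℓp c 2 := by
  apply memℓp_gen
  refine h.congr fun p => ?_
  have e : ((2 : ENNReal).toReal) = ((2 : ℕ) : ℝ) := by simp
  rw [e, Real.rpow_natCast]

lemma rc_summable (r : ℕ × ℕ → ℝ) (hr : ∀ q, |r q| ≤ 1) (c : L) :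
    Summable (fun q => ‖(r q : ℂ) * c q‖ ^ 2) := by
  refine Summable.of_nonneg_of_le (fun q => by positivity) (fun q => ?_) (sq_summable c)
  rw [norm_mul, Complex.norm_real, Real.norm_eq_abs, mul_pow]
  have : |r q| ^ 2 ≤ 1 := by
    have := hr q
    have h0 := abs_nonneg (r q)
    nlinarith
  exact mul_le_of_le_one_left (by positivity) this

lemma shc_summable {e : ℕ × ℕ → ℕ × ℕ} (he : Function.Injective e) (r : ℕ × ℕ → ℝ)
    (hr : ∀ q, |r q| ≤ 1) (c : L) : Summable (fun p => ‖shc e r c p‖ ^ 2) := by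
  rw [shc_norm he]
  exact (summable_extend_zero he).2 (rc_summable r hr c)

/-- the shifted element -/
def sh {e : ℕ × ℕ → ℕ × ℕ} (he : Function.Injective e) (r : ℕ × ℕ → ℝ)
    (hr : ∀ q, |r q| ≤ 1) (c : L) : L := ⟨shc e r c, mem_of_sq (shc_summable he r hr c)⟩

lemma sh_norm {e : ℕ × ℕ → ℕ × ℕ} (he : Function.Injective e) (r : ℕ × ℕ → ℝ)
    (hr : ∀ q, |r q| ≤ 1) (c : L) : ‖sh he r hr c‖ ^ 2 = ∑' q, (r q) ^ 2 * ‖c q‖ ^ 2 := by
  rw [norm_sq_eq]
  have h1 : (fun p => ‖(sh he r hr c) p‖ ^ 2) = fun p => ‖shc e r c p‖ ^ 2 := rfl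
  rw [h1, shc_norm he, tsum_extend_zero he]
  refine tsum_congr fun q => ?_
  rw [norm_mul, Complex.norm_real, Real.norm_eq_abs, mul_pow, sq_abs]

lemma sh_inner {e : ℕ × ℕ → ℕ × ℕ} (he : Function.Injective e) (r : ℕ × ℕ → ℝ)
    (hr : ∀ q, |r q| ≤ 1) (c : L) (z : Ball) (a : ℂ)
    (h : ∀ q, (Real.sqrt (om (e q)) : ℂ) * (z.1 0 ^ (e q).1 * z.1 1 ^ (e q).2) * (r q : ℂ)
      = a * ((Real.sqrt (om q) : ℂ) * (z.1 0 ^ q.1 * z.1 1 ^ q.2))) :
    inner ℂ (kv z) (sh he r hr c) = a * inner ℂ (kv z) c := by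
  rw [inner_kv, inner_kv, ← tsum_mul_left]
  have h1 : (fun p : ℕ × ℕ => (Real.sqrt (om p) : ℂ) * (z.1 0 ^ p.1 * z.1 1 ^ p.2)
      * (sh he r hr c) p)
      = Function.extend e (fun q => a * ((Real.sqrt (om q) : ℂ) * (z.1 0 ^ q.1 * z.1 1 ^ q.2)
        * c q)) 0 := by
    funext p
    have h2 : (sh he r hr c) p = shc e r c p := rfl
    rw [h2]
    by_cases hp : ∃ q, e q = p
    · obtain ⟨q, rfl⟩ := hp
      rw [he.extend_apply]
      unfold shc
      rw [he.extend_apply, ← mul_assoc, h q]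
      ring
    · rw [Function.extend_apply' _ _ _ hp]
      unfold shc
      rw [Function.extend_apply' _ _ _ hp]
      simp
  rw [h1, tsum_extend_zero he]

/-- raising maps -/
def e0 (q : ℕ × ℕ) : ℕ × ℕ := (q.1 + 1, q.2)

/-- raising maps -/
def e1 (q : ℕ × ℕ) : ℕ × ℕ := (q.1, q.2 + 1)

lemma e0_inj : Function.Injective e0 := by
  rintro ⟨a, b⟩ ⟨c, d⟩ h
  simp only [e0, Prod.mk.injEq] at h
  ext <;> simp <;> omega

lemma e1_inj : Function.Injective e1 := by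
  rintro ⟨a, b⟩ ⟨c, d⟩ h
  simp only [e1, Prod.mk.injEq] at h
  ext <;> simp <;> omega

/-- weights -/
def r0 (q : ℕ × ℕ) : ℝ := Real.sqrt (((q.1 : ℝ) + 1) / ((q.1 : ℝ) + q.2 + 2))

/-- weights -/
def r1 (q : ℕ × ℕ) : ℝ := Real.sqrt (((q.2 : ℝ) + 1) / ((q.1 : ℝ) + q.2 + 2))

lemma r_sq (q : ℕ × ℕ) : r0 q ^ 2 + r1 q ^ 2 = 1 := by
  unfold r0 r1
  rw [Real.sq_sqrt (by positivity), Real.sq_sqrt (by positivity)]
  field_simp
  ring

lemma abs_r0 (q : ℕ × ℕ) : |r0 q| ≤ 1 := by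
  have := r_sq q
  rw [← sq_le_one_iff_abs_le_one]
  nlinarith [sq_nonneg (r1 q)]

lemma abs_r1 (q : ℕ × ℕ) : |r1 q| ≤ 1 := by
  have := r_sq q
  rw [← sq_le_one_iff_abs_le_one]
  nlinarith [sq_nonneg (r0 q)]

lemma om_e0 (q : ℕ × ℕ) : om (e0 q) * ((q.1 : ℝ) + 1) = om q * ((q.1 : ℝ) + q.2 + 2) := by
  unfold om e0
  have h := Nat.add_one_mul_choose_eq (q.1 + q.2) q.1
  have h2 : ((q.1 + q.2 + 1 : ℕ) : ℝ) * (((q.1 + q.2).choose q.1 : ℕ) : ℝ)
      = (((q.1 + q.2 + 1).choose (q.1 + 1) : ℕ) : ℝ) * ((q.1 + 1 : ℕ) : ℝ) := by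
    exact_mod_cast h
  have h3 : q.1 + 1 + q.2 = q.1 + q.2 + 1 := by ring
  rw [h3, h2]
  push_cast
  ring

lemma om_e1 (q : ℕ × ℕ) : om (e1 q) * ((q.2 : ℝ) + 1) = om q * ((q.1 : ℝ) + q.2 + 2) := by
  have hs : ∀ p : ℕ × ℕ, om p = om (p.2, p.1) := by
    intro p
    unfold om
    simp only
    rw [add_comm p.2 p.1]
    congr 2
    exact Nat.choose_symm_add
  have h := om_e0 (q.2, q.1)
  have h1 : e0 (q.2, q.1) = ((e1 q).2, (e1 q).1) := rfl
  rw [h1, ← hs (e1 q), ← hs q] at h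
  simp only at h
  rw [h]
  ring

lemma key0 (q : ℕ × ℕ) : Real.sqrt (om (e0 q)) * r0 q = Real.sqrt (om q) := by
  unfold r0
  rw [← Real.sqrt_mul (om_pos _).le]
  congr 1
  have := om_e0 q
  field_simp
  linarith

lemma key1 (q : ℕ × ℕ) : Real.sqrt (om (e1 q)) * r1 q = Real.sqrt (om q) := by
  unfold r1
  rw [← Real.sqrt_mul (om_pos _).le]
  congr 1
  have := om_e1 q
  field_simp
  linarith

/-- Multiplication by the coordinates is a column contraction on the Hardy space. -/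
theorem hardy_column (f : Hardy) : ∃ g : Fin 2 → Hardy,
    (∀ i (z : Ball), g i z = z.1 i * f z) ∧ ∑ i, ‖g i‖ ^ 2 ≤ ‖f‖ ^ 2 := by
  let s0 : L := sh e0_inj r0 abs_r0 (f : L)
  let s1 : L := sh e1_inj r1 abs_r1 (f : L)
  have hk : ∀ (s : L) (z : Ball),
      ((Hardy.orthogonalProjectionOnto s : Hardy) : Hardy) z = inner ℂ (kv z) s := by
    intro s z
    rw [hardy_apply]
    have h1 : s - (Hardy.orthogonalProjectionOnto s : L) ∈ Hardyᗮ :=
      Submodule.sub_starProjection_mem_orthogonal (K := Hardy) s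
    have h2 := h1 (kv z) (kv_mem z)
    rw [inner_sub_right, sub_eq_zero] at h2
    exact h2.symm
  have hn : ∀ s : L, ‖(Hardy.orthogonalProjectionOnto s : Hardy)‖ ≤ ‖s‖ := by
    intro s
    have h9 := (Hardy.orthogonalProjectionOnto).le_opNorm s
    calc _ ≤ ‖Hardy.orthogonalProjectionOnto‖ * ‖s‖ := h9
      _ ≤ 1 * ‖s‖ := by
        gcongr
        exact Hardy.orthogonalProjectionOnto_norm_le
      _ = ‖s‖ := one_mul _
  refine ⟨![Hardy.orthogonalProjectionOnto s0, Hardy.orthogonalProjectionOnto s1], ?_, ?_⟩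
  · intro i z
    fin_cases i
    · show (Hardy.orthogonalProjectionOnto s0 : Hardy) z = z.1 0 * f z
      rw [hk, hardy_apply]
      apply sh_inner
      intro q
      have := key0 q
      have h2 : (Real.sqrt (om (e0 q)) : ℂ) * (r0 q : ℂ) = (Real.sqrt (om q) : ℂ) := by
        rw [← this]; push_cast; ring
      simp only [e0] at h2 ⊢
      linear_combination (z.1 0 ^ (q.1 + 1) * z.1 1 ^ q.2) * h2
    · show (Hardy.orthogonalProjectionOnto s1 : Hardy) z = z.1 1 * f z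
      rw [hk, hardy_apply]
      apply sh_inner
      intro q
      have := key1 q
      have h2 : (Real.sqrt (om (e1 q)) : ℂ) * (r1 q : ℂ) = (Real.sqrt (om q) : ℂ) := by
        rw [← this]; push_cast; ring
      simp only [e1] at h2 ⊢
      linear_combination (z.1 0 ^ q.1 * z.1 1 ^ (q.2 + 1)) * h2
  · rw [Fin.sum_univ_two]
    show ‖(Hardy.orthogonalProjectionOnto s0 : Hardy)‖ ^ 2
      + ‖(Hardy.orthogonalProjectionOnto s1 : Hardy)‖ ^ 2 ≤ _
    have h0 := pow_le_pow_left₀ (norm_nonneg _) (hn s0) 2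
    have h1 := pow_le_pow_left₀ (norm_nonneg _) (hn s1) 2
    have h2 : ‖s0‖ ^ 2 + ‖s1‖ ^ 2 = ‖(f : L)‖ ^ 2 := by
      rw [sh_norm, sh_norm, norm_sq_eq, ← Summable.tsum_add]
      · refine tsum_congr fun q => ?_
        rw [← add_mul, r_sq, one_mul]
      · refine (rc_summable r0 abs_r0 (f : L)).congr fun q => ?_
        rw [norm_mul, Complex.norm_real, Real.norm_eq_abs, mul_pow, sq_abs]
      · refine (rc_summable r1 abs_r1 (f : L)).congr fun q => ?_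
        rw [norm_mul, Complex.norm_real, Real.norm_eq_abs, mul_pow, sq_abs]
    have h3 : ‖(f : L)‖ = ‖f‖ := rfl
    rw [h3] at h2
    linarith

end

end Pool.Agent.Q190.RV
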