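import Mathlib
import Pool.Agent.Q190.RV.Laws

/-!
# The sign of a functional equation and the order at the centre
-/

set_option autoImplicit false
set_option linter.unusedSectionVars false

namespace Pool.Agent.Q190.RV

open Filter Topology Set Complex

/-- `A(s) F(c + s) = ε(s) A(-s) F(c - s)` near `0`, `A` and `ε` continuous at `0`, `A(0) ≠ 0` -/
structure FunctionalEquation (c : ℂ) (F A ε : ℂ → ℂ) : Prop where
  contA : ContinuousAt A 0
  ne : A 0 ≠ 0
  contE : ContinuousAt ε 0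
  eq : ∀ᶠ s in 𝓝 (0 : ℂ), A s * F (c + s) = ε s * (A (-s) * F (c - s))

theorem FunctionalEquation.sign {c : ℂ} {F A ε : ℂ → ℂ} (h : FunctionalEquation c F A ε) (hF : AnalyticAt ℂ F c)
    {m : ℕ} (hm : analyticOrderAt F c = m) : ε 0 = (-1) ^ m := by
  obtain ⟨g, hg, hg0, he⟩ := hF.analyticOrderAt_eq_natCast.1 hm
  have t1 : Tendsto (fun s : ℂ => c + s) (𝓝 0) (𝓝 c) := by
    have : Continuous fun s : ℂ => c + s := by fun_prop
    simpa using this.tendsto 0
  have t2 : Tendsto (fun s : ℂ => c - s) (𝓝 0) (𝓝 c) := by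
    have : Continuous fun s : ℂ => c - s := by fun_prop
    simpa using this.tendsto 0
  have t3 : Tendsto (fun s : ℂ => -s) (𝓝 0) (𝓝 (0 : ℂ)) := by
    have : Continuous fun s : ℂ => -s := by fun_prop
    simpa using this.tendsto 0
  have e1 : ∀ᶠ s in 𝓝[≠] (0 : ℂ), A s * g (c + s) = ε s * (A (-s) * ((-1) ^ m * g (c - s))) := by
    have h1 := (h.eq.and ((t1.eventually he).and (t2.eventually he))).filter_mono
      (nhdsWithin_le_nhds (s := {(0 : ℂ)}ᶜ))
    filter_upwards [h1, self_mem_nhdsWithin] with s ⟨h2, h3, h4⟩ hs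
    have hs0 : s ≠ 0 := hs
    rw [h3, h4, add_sub_cancel_left, show c - s - c = -s by ring, smul_eq_mul, smul_eq_mul, neg_pow s m] at h2
    have h5 : s ^ m ≠ 0 := pow_ne_zero _ hs0
    refine mul_left_cancel₀ h5 ?_
    linear_combination h2
  have l1 : Tendsto (fun s : ℂ => A s * g (c + s)) (𝓝[≠] 0) (𝓝 (A 0 * g c)) :=
    ((h.contA.tendsto).mul (hg.continuousAt.tendsto.comp t1)).mono_left nhdsWithin_le_nhds
  have l2 : Tendsto (fun s : ℂ => ε s * (A (-s) * ((-1) ^ m * g (c - s)))) (𝓝[≠] 0)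
      (𝓝 (ε 0 * (A 0 * ((-1) ^ m * g c)))) :=
    ((h.contE.tendsto).mul ((h.contA.tendsto.comp t3).mul
      ((hg.continuousAt.tendsto.comp t2).const_mul _))).mono_left nhdsWithin_le_nhds
  have l3 := tendsto_nhds_unique (l2.congr' (e1.mono fun s hs => hs.symm)) l1
  have h6 : ε 0 * (-1) ^ m = 1 := by
    have h7 : A 0 * g c ≠ 0 := mul_ne_zero h.ne hg0
    refine mul_right_cancel₀ h7 ?_
    linear_combination l3
  have h8 : ((-1 : ℂ) ^ m) * (-1) ^ m = 1 := by
    rw [← mul_pow]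
    norm_num
  calc ε 0 = ε 0 * ((-1) ^ m * (-1) ^ m) := by rw [h8, mul_one]
    _ = (ε 0 * (-1) ^ m) * (-1) ^ m := by ring
    _ = _ := by rw [h6, one_mul]

theorem neg_one_pow_eq {m r : ℕ} : (-1 : ℂ) ^ m = (-1) ^ r ↔ m ≡ r [MOD 2] := by
  have h0 : ∀ k : ℕ, (-1 : ℂ) ^ k = if k % 2 = 0 then 1 else -1 := by
    intro k
    split_ifs with h
    · exact Even.neg_one_pow (Nat.even_iff.2 h)
    · exact Odd.neg_one_pow (Nat.odd_iff.2 (by omega))
  have h1 : (1 : ℂ) ≠ -1 := by norm_num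
  rw [h0, h0]
  unfold Nat.ModEq
  split_ifs with h2 h3 h3
  · simp [h2, h3]
  · simp only [h1, false_iff]
    omega
  · simp only [h1.symm, false_iff]
    omega
  · simp only [true_iff]
    omega

end Pool.Agent.Q190.RV
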