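import Mathlib
import Pool.Agent.Q18.P.EC

/-!
# The Satake parameters of triple products (from `MP_60ff09_nt.TripleEulerProducts` of helper18)
-/

set_option autoImplicit false

namespace Pool.Agent.Q190.RV.Triple

open Filter Topology Set Complex NumberField IsDedekindDomain MeasureTheory ComplexConjugate
open Pool.Agent.Q18.P (norm upTo)

/-- the finite places of `ℚ`, that is, the primes `p`; `norm v` is the prime number `p` -/
abbrev Prime := HeightOneSpectrum (𝓞 ℚ)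

/-- The Satake parameters of an eigenform of weight `k` and nebentypus `χ` at the primes outside of `S`: they are the
roots `x 0`, `x 1` of `X^2 - a(p) X + χ(p) p^(k-1)`, and have absolute value `p^((k-1)/2)` (Deligne, Deligne-Serre). -/
structure Satake (k : ℕ) (S : Finset Prime) (χ : Prime → ℂ) (x : Prime → Fin 2 → ℂ) : Prop where
  mul : ∀ v, v ∉ S → x v 0 * x v 1 = χ v * (norm v : ℂ) ^ (k - 1)
  abs : ∀ v, v ∉ S → ∀ j, ‖x v j‖ ^ 2 = (norm v : ℝ) ^ (k - 1)

/-- the inverse of the Euler factor, `∏_{i,j,l} (1 - x_i y_j z_l p^{-s})` -/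
noncomputable def factor (x y z : Prime → Fin 2 → ℂ) (v : Prime) (s : ℂ) : ℂ :=
  ∏ i, ∏ j, ∏ l, (1 - x v i * y v j * z v l * (norm v : ℂ) ^ (-s))

/-- `P(Y) = ∏_{p ∉ S, p ≤ Y} |∏_{i,j,l} (1 - x_i y_j z_l p^{-k/2})|` -/
noncomputable def product (k : ℕ) (S : Finset Prime) (x y z : Prime → Fin 2 → ℂ) (Y : ℝ) : ℝ :=
  ∏ᶠ v ∈ upTo S Y, ‖factor x y z v (((k : ℝ) / 2 : ℝ) : ℂ)‖

/-- `t(p^n) = x_0^n + x_1^n` -/
noncomputable def trace (x : Prime → Fin 2 → ℂ) (v : Prime) (n : ℕ) : ℂ := x v 0 ^ n + x v 1 ^ n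

/-- `P*(Y) = exp (- ∑_{p ∉ S, p^n ≤ Y} t_f(p^n) t_g(p^n) t_h(p^n) / (n p^(nk/2)))`, `n = q.2 + 1 ≥ 1` -/
noncomputable def productStar (k : ℕ) (S : Finset Prime) (x y z : Prime → Fin 2 → ℂ) (Y : ℝ) : ℝ :=
  Real.exp (-∑ᶠ (q : {v : Prime // v ∉ S} × ℕ) (_ : (norm q.1.1 : ℝ) ^ (q.2 + 1) ≤ Y),
      (trace x q.1.1 (q.2 + 1) * trace y q.1.1 (q.2 + 1) * trace z q.1.1 (q.2 + 1)).re /
        (((q.2 : ℝ) + 1) * ((norm q.1.1 : ℝ) ^ ((k : ℝ) / 2)) ^ (q.2 + 1)))

/-! ### translation -/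

/-- the eight parameters -/
noncomputable def par (x y z : Prime → Fin 2 → ℂ) (v : Prime) (n : Fin (2 * (2 * 2))) : ℂ :=
  x v (finProdFinEquiv.symm n).1 * y v (finProdFinEquiv.symm (finProdFinEquiv.symm n).2).1 *
    z v (finProdFinEquiv.symm (finProdFinEquiv.symm n).2).2

theorem sum_par (x y z : Prime → Fin 2 → ℂ) (v : Prime) (n : ℕ) :
    ∑ j, par x y z v j ^ n = trace x v n * trace y v n * trace z v n := by
  unfold par trace
  rw [← finProdFinEquiv.sum_comp, Fintype.sum_prod_type]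
  simp only [Equiv.symm_apply_apply]
  have e1 : ∀ i : Fin 2, ∑ w : Fin (2 * 2), (x v i * y v (finProdFinEquiv.symm w).1 *
      z v (finProdFinEquiv.symm w).2) ^ n = ∑ j : Fin 2, ∑ l : Fin 2, (x v i * y v j * z v l) ^ n := by
    intro i
    rw [← finProdFinEquiv.sum_comp, Fintype.sum_prod_type]
    simp only [Equiv.symm_apply_apply]
  rw [Finset.sum_congr rfl fun i _ => e1 i]
  simp only [Fin.sum_univ_two, mul_pow]
  ring

theorem factor_par (x y z : Prime → Fin 2 → ℂ) (v : Prime) (s : ℂ) :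
    factor x y z v s = ∏ j, (1 - par x y z v j * (norm v : ℂ) ^ (-s)) := by
  unfold par factor
  symm
  rw [← finProdFinEquiv.prod_comp, Fintype.prod_prod_type]
  simp only [Equiv.symm_apply_apply]
  refine Finset.prod_congr rfl fun i _ => ?_
  rw [← finProdFinEquiv.prod_comp, Fintype.prod_prod_type]
  simp only [Equiv.symm_apply_apply]

variable {k : ℕ} {S : Finset Prime} {χ : Fin 3 → Prime → ℂ} {x y z : Prime → Fin 2 → ℂ} {F : ℂ → ℂ}

theorem conj_trace {χ : Prime → ℂ} (h : Satake k S χ x) {v : Prime} (hv : v ∉ S) (n : ℕ) :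
    conj (trace x v n) = conj (χ v) ^ n * trace x v n := by
  have hp : (0 : ℝ) < norm v := by
    have := Pool.Agent.Q18.P.EC.two_le v
    linarith
  have hr : (0 : ℝ) < (norm v : ℝ) ^ (k - 1) := by positivity
  have h0 := h.abs v hv 0
  have h1 := h.abs v hv 1
  have hm := h.mul v hv
  have c0 : x v 0 * conj (x v 0) = (((norm v : ℝ) ^ (k - 1) : ℝ) : ℂ) := by
    rw [Complex.mul_conj, Complex.normSq_eq_norm_sq, h0]
  have c1 : x v 1 * conj (x v 1) = (((norm v : ℝ) ^ (k - 1) : ℝ) : ℂ) := by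
    rw [Complex.mul_conj, Complex.normSq_eq_norm_sq, h1]
  have hrr : (((norm v : ℝ) ^ (k - 1) : ℝ) : ℂ) = (norm v : ℂ) ^ (k - 1) := by push_cast; rfl
  have hr0 : (norm v : ℂ) ^ (k - 1) ≠ 0 := by
    rw [← hrr]
    exact_mod_cast hr.ne'
  have hcm : conj (x v 0) * conj (x v 1) = conj (χ v) * (norm v : ℂ) ^ (k - 1) := by
    rw [← map_mul, hm, map_mul, map_pow, Complex.conj_natCast]
  rw [hrr] at c0 c1
  have a0 : conj (x v 0) = conj (χ v) * x v 1 := by
    have : conj (x v 0) * (norm v : ℂ) ^ (k - 1) = conj (χ v) * x v 1 * (norm v : ℂ) ^ (k - 1) := by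
      calc conj (x v 0) * (norm v : ℂ) ^ (k - 1) = conj (x v 0) * (x v 1 * conj (x v 1)) := by rw [c1]
        _ = (conj (x v 0) * conj (x v 1)) * x v 1 := by ring
        _ = _ := by rw [hcm]; ring
    exact mul_right_cancel₀ hr0 this
  have a1 : conj (x v 1) = conj (χ v) * x v 0 := by
    have : conj (x v 1) * (norm v : ℂ) ^ (k - 1) = conj (χ v) * x v 0 * (norm v : ℂ) ^ (k - 1) := by
      calc conj (x v 1) * (norm v : ℂ) ^ (k - 1) = conj (x v 1) * (x v 0 * conj (x v 0)) := by rw [c0]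
        _ = (conj (x v 0) * conj (x v 1)) * x v 0 := by ring
        _ = _ := by rw [hcm]; ring
    exact mul_right_cancel₀ hr0 this
  unfold trace
  rw [map_add, map_pow, map_pow, a0, a1, mul_pow, mul_pow]
  ring

theorem abs_le (h : Satake k S (χ 0) x) {v : Prime} (hv : v ∉ S) (j : Fin 2) :
    ‖x v j‖ = (norm v : ℝ) ^ (((k - 1 : ℕ) : ℝ) / 2) := by
  have hp : (0 : ℝ) ≤ norm v := Nat.cast_nonneg _
  have h0 := h.abs v hv j
  have h1 : ((norm v : ℝ) ^ (((k - 1 : ℕ) : ℝ) / 2)) ^ 2 = (norm v : ℝ) ^ (k - 1) := by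
    rw [← Real.rpow_natCast, ← Real.rpow_mul hp, Nat.cast_ofNat, div_mul_cancel₀ _ (by norm_num : (2 : ℝ) ≠ 0),
      Real.rpow_natCast]
  have h2 : 0 ≤ (norm v : ℝ) ^ (((k - 1 : ℕ) : ℝ) / 2) := Real.rpow_nonneg hp _
  have h3 : ‖x v j‖ ^ 2 = ((norm v : ℝ) ^ (((k - 1 : ℕ) : ℝ) / 2)) ^ 2 := by rw [h0, h1]
  exact (pow_left_inj₀ (norm_nonneg _) h2 (by norm_num)).1 h3

theorem abs_one {χ : Prime → ℂ} {x : Prime → Fin 2 → ℂ} (h : Satake 1 S χ x) {v : Prime} (hv : v ∉ S) (j : Fin 2) :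
    ‖x v j‖ = 1 := by
  have h0 := h.abs v hv j
  rw [Nat.sub_self, pow_zero] at h0
  have h3 : ‖x v j‖ ^ 2 = (1 : ℝ) ^ 2 := by rw [h0, one_pow]
  exact (pow_left_inj₀ (norm_nonneg _) zero_le_one (by norm_num)).1 h3

theorem pure (hx : Satake k S (χ 0) x) (hy : Satake 1 S (χ 1) y) (hz : Satake 1 S (χ 2) z)
    (hχ : ∀ v, v ∉ S → χ 0 v * χ 1 v * χ 2 v = 1) : Pool.Agent.Q18.P.Pure (k - 1) S (par x y z) where
  le := fun v hv j => by
    unfold par
    rw [norm_mul, norm_mul, abs_one hy hv, abs_one hz hv, mul_one, mul_one, abs_le hx hv]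
  real := fun v hv n => by
    rw [sum_par, ← Complex.conj_eq_iff_im, map_mul, map_mul, conj_trace hx hv, conj_trace hy hv, conj_trace hz hv]
    have h1 : conj (χ 0 v) ^ n * conj (χ 1 v) ^ n * conj (χ 2 v) ^ n = 1 := by
      rw [← mul_pow, ← mul_pow, ← map_mul, ← map_mul, hχ v hv, map_one, one_pow]
    calc _ = (conj (χ 0 v) ^ n * conj (χ 1 v) ^ n * conj (χ 2 v) ^ n) *
        (trace x v n * trace y v n * trace z v n) := by ring
      _ = _ := by rw [h1, one_mul]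

theorem product_eq : product k S x y z = Pool.Agent.Q18.P.product ((k : ℝ) / 2) S (par x y z) := by
  funext Y
  unfold product Pool.Agent.Q18.P.product
  refine finprod_congr fun v => finprod_congr fun _ => ?_
  rw [factor_par]

theorem star_eq : productStar k S x y z = Pool.Agent.Q18.P.productStar ((k : ℝ) / 2) S (par x y z) := by
  funext Y
  unfold productStar Pool.Agent.Q18.P.productStar
  congr 2
  refine finsum_congr fun p => ?_
  rw [sum_par]

end Pool.Agent.Q190.RV.Triple
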