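import Mathlib
import Pool.Agent.Q18.P.EC
import Pool.Agent.Q190.RV.Laws

/-!
# One elliptic curve with known parity: ratios of Euler products
-/

set_option autoImplicit false
set_option linter.unusedSectionVars false

namespace Pool.Agent.Q190.RV.Tunnell

open Filter Topology Set Complex NumberField IsDedekindDomain MeasureTheory
open Pool.Agent.Q18.P.EC (Good Euler product productStar)
open Pool.Agent.Q190.RV (Slow Ratios)

variable {K : Type} [Field K] [NumberField K] {a b : 𝓞 K} {S : Finset (HeightOneSpectrum (𝓞 K))} {F : ℂ → ℂ}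

/-- holomorphic of polynomial growth in a half plane `Re s > 1 - η` -/
def HoloOne (F : ℂ → ℂ) : Prop :=
  ∃ (η C : ℝ) (k : ℕ), 0 < η ∧ ∀ s : ℂ, 1 - η < s.re → DifferentiableAt ℂ F s ∧ ‖F s‖ ≤ C * (1 + ‖s‖) ^ k

theorem holo (hS : ∀ v, v ∉ S → Good a b v) (hE : Euler S a b F) (hF : HoloOne F) :
    Pool.Agent.Q190.RV.Holo 1 S (Pool.Agent.Q18.P.EC.al a b) F := ⟨hF, Pool.Agent.Q18.P.EC.euler hS hE⟩

/-- the laws for both products -/
theorem both (hS : ∀ v, v ∉ S → Good a b v) (hE : Euler S a b F) (hF : HoloOne F) :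
    ∃ m : ℕ, analyticOrderAt F 1 = m ∧ ∀ R : ℝ → ℝ, R = product S a b ∨ R = productStar S a b → Ratios 1 F m R := by
  have hP := Pool.Agent.Q18.P.EC.pure (a := a) (b := b) hS
  have hH := holo hS hE hF
  obtain ⟨m, hm⟩ := hH.order_finite' Pool.Agent.Q18.P.EC.one_c hP.le
  refine ⟨m, by rw [Complex.ofReal_one] at hm; exact hm, fun R hR => ?_⟩
  rcases hR with rfl | rfl
  · rw [Pool.Agent.Q18.P.EC.product_eq hS]
    exact Pool.Agent.Q190.RV.ratios Pool.Agent.Q18.P.EC.one_c hP.le hH hm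
  · rw [Pool.Agent.Q18.P.EC.star_eq hS]
    exact Pool.Agent.Q190.RV.ratios_star Pool.Agent.Q18.P.EC.one_c hP.le hH hm

/-- order `w` from one exponent -/
theorem upper_w {m w : ℕ} {R : ℝ → ℝ} (H : Ratios 1 F m R) (hw : m % 2 = w % 2) (hw1 : w ≤ 1) {l Q : ℝ} (hl : 1 < l)
    (hQ : ∀ᶠ y : ℝ in atTop, R (y ^ l) ≤ Q * R y) (h : Q < l ^ (w + 2)) : Pool.Agent.Q18.P.NoZeros 1 F ∧ m = w := by
  refine ⟨(H.upper l Q hl hQ).1, ?_⟩
  have h3 := H.lt hl hQ h
  omega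

theorem freq_w {m w : ℕ} {R : ℝ → ℝ} (H : Ratios 1 F m R) (hw : m % 2 = w % 2) (hw1 : w ≤ 1) (hne : m ≠ w) {l Q : ℝ}
    (hl : 1 < l) (h : Q < l ^ (w + 2)) : ∃ᶠ y : ℝ in atTop, Q * R y < R (y ^ l) :=
  H.freq hl (lt_of_lt_of_le h (pow_le_pow_right₀ hl.le (by omega)))

theorem limit_w {m w : ℕ} {R : ℝ → ℝ} (H : Ratios 1 F m R) (hw : m % 2 = w % 2) (hw1 : w ≤ 1) {l ρ : ℝ}
    (hl : 1 < l) (hρ : Tendsto (fun y : ℝ => R (y ^ l) / R y) atTop (𝓝 ρ)) :
    Pool.Agent.Q18.P.NoZeros 1 F ∧ (m = w ↔ ρ = l ^ w) ∧ (m = w ↔ ρ < l ^ (w + 2)) := by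
  obtain ⟨h1, h2⟩ := H.limit l ρ hl hρ
  refine ⟨h1, ?_, ?_⟩
  · rw [h2]
    exact ⟨fun h => by rw [h], fun h => pow_right_injective₀ (by linarith) hl.ne' h⟩
  · rw [h2]
    constructor
    · rintro rfl
      exact pow_lt_pow_right₀ hl (by omega)
    · intro h
      have := (pow_lt_pow_iff_right₀ hl).1 h
      omega

/-- the value `Ω T²` -/
theorem value (hS : ∀ v, v ∉ S → Good a b v) (hE : Euler S a b F) (hF : HoloOne F) {Ω : ℝ} (hΩ : 0 < Ω) {T : ℤ}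
    (hT : F 1 = ((Ω * (T : ℝ) ^ 2 : ℝ) : ℂ)) {d : ℕ} (hd : 0 < d) :
    Tendsto (fun y : ℝ => Ω * d ^ 2 * productStar S a b y) atTop (𝓝 1) ↔ |T| = d ∧ Slow (productStar S a b) := by
  have hP := Pool.Agent.Q18.P.EC.pure (a := a) (b := b) hS
  have hH := holo hS hE hF
  have hd' : (0 : ℝ) < d := by exact_mod_cast hd
  have hA : 0 < Ω * (d : ℝ) ^ 2 := by positivity
  rw [Pool.Agent.Q18.P.EC.star_eq hS]
  set P := Pool.Agent.Q18.P.productStar 1 S (Pool.Agent.Q18.P.EC.al a b) with hPdef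
  have hpos : ∀ y, 0 < P y := Pool.Agent.Q18.P.star_pos
  have h1 : Tendsto (fun y : ℝ => Ω * d ^ 2 * P y) atTop (𝓝 1) ↔
      Tendsto (fun y : ℝ => 1 / P y) atTop (𝓝 (Ω * d ^ 2)) := by
    constructor
    · intro h
      have h2 := (h.inv₀ one_ne_zero).const_mul (Ω * (d : ℝ) ^ 2)
      rw [inv_one, mul_one] at h2
      refine h2.congr fun y => ?_
      have := (hpos y).ne'
      field_simp
    · intro h
      have h2 := (h.inv₀ hA.ne').const_mul (Ω * (d : ℝ) ^ 2)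
      rw [mul_inv_cancel₀ hA.ne'] at h2
      refine h2.congr fun y => ?_
      have := (hpos y).ne'
      field_simp
  rw [h1, Pool.Agent.Q190.RV.formula_iff Pool.Agent.Q18.P.EC.one_c hP hH one_pos hA.ne']
  refine and_congr_left fun _ => ?_
  rw [Complex.ofReal_one, hT, one_mul]
  have h3 : (|T| = d) ↔ (T : ℝ) ^ 2 = (d : ℝ) ^ 2 := by
    constructor
    · intro h
      have h4 : ((|T| : ℤ) : ℝ) = (d : ℝ) := by rw [h]; simp
      rw [← h4]
      push_cast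
      rw [sq_abs]
    · intro h
      have h4 : T ^ 2 = (d : ℤ) ^ 2 := by exact_mod_cast h
      have h5 := (sq_eq_sq_iff_abs_eq_abs T (d : ℤ)).1 h4
      rw [h5]
      simp
  rw [h3]
  constructor
  · intro h
    have h4 : Ω * (d : ℝ) ^ 2 = Ω * (T : ℝ) ^ 2 := by exact_mod_cast h
    exact (mul_left_cancel₀ hΩ.ne' h4).symm
  · intro h
    rw [h]

end Pool.Agent.Q190.RV.Tunnell
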